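import Pool.Agent.Lib_MP_2c424f_lc5.Defs5
import Pool.Agent.Lib_MP_2c424f_lc.PercB

/-!
# MP_2c424f_pr, linear corners, Part III (balance): definitions

A pair `(f, g)` of colourings is one function `ω : V → Fin q × Fin q`.  `f` uses the colours of `A` at the even vertices,
`g` those of `B ⊆ A`; `A \ B = J1 ∪ J2`, `|J1| = |J2| = j`, `|A| + |B| = q`.
-/

set_option autoImplicit false

open Finset Filter

namespace Pool.Agent.LC3

open Pool.Agent.LO Pool.Agent.LIN Pool.Agent.THR Pool.Agent.COR Pool.Agent.LC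

/-! ## Pairs of colourings -/

section pairs
variable {V : Type} [Fintype V] [DecidableEq V] {q : ℕ}

/-- the first colouring of a pair -/
def fo (ω : V → Fin q × Fin q) : V → Fin q := fun v => (ω v).1

/-- the second colouring of a pair -/
def go (ω : V → Fin q × Fin q) : V → Fin q := fun v => (ω v).2

/-- both colourings are proper -/
def PrP (G : SimpleGraph V) (ω : V → Fin q × Fin q) : Prop := PrG G (fo ω) ∧ PrG G (go ω)

open scoped Classical in
/-- number of pairs of proper colourings with the property `P` -/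
noncomputable def cP (G : SimpleGraph V) (P : (V → Fin q × Fin q) → Prop) : ℝ :=
  ((univ.filter fun ω : V → Fin q × Fin q => PrP G ω ∧ P ω).card : ℝ)

/-- the pairs agree at the odd vertices -/
def so (ev : V → Prop) (ω ω' : V → Fin q × Fin q) : Prop := ∀ v, ¬ ev v → ω v = ω' v

open scoped Classical in
/-- the pairs of proper colourings which agree with `ω` at the odd vertices -/
noncomputable def cl (G : SimpleGraph V) (ev : V → Prop) (ω : V → Fin q × Fin q) : Finset (V → Fin q × Fin q) :=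
  univ.filter fun ω' => PrP G ω' ∧ so ev ω' ω

open scoped Classical in
/-- possible values at `v`, given the odd vertices -/
noncomputable def Sx (G : SimpleGraph V) (ev : V → Prop) (ω : V → Fin q × Fin q) (v : V) : Finset (Fin q × Fin q) :=
  if ev v then Rv G (fo ω) v ×ˢ Rv G (go ω) v else {ω v}

/-- exchange of two colours in the first colouring -/
def sw1 (a b : Fin q) (ω : V → Fin q × Fin q) : V → Fin q × Fin q := fun v => (Equiv.swap a b (ω v).1, (ω v).2)

/-- exchange of two colours in the second colouring -/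
def sw2 (a b : Fin q) (ω : V → Fin q × Fin q) : V → Fin q × Fin q := fun v => ((ω v).1, Equiv.swap a b (ω v).2)

open scoped Classical in
/-- at most `|V| / d^6` of the conditions which depend on the odd vertices only fail -/
def TTo (d : ℕ) (G : SimpleGraph V) (ev : V → Prop) (A : Finset (Fin q)) (F : V → Fin q) : Prop :=
  ((univ.filter fun v => (ev v ∧ ¬ TyE d G ev A F v) ∨ (¬ ev v ∧ ¬ TyO d G ev A F v)).card : ℝ) ≤
    Fintype.card V / (d : ℝ) ^ 6

end pairs

/-! ## The data -/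

open scoped Classical in
/-- the data of the balance argument -/
structure Bal (V : Type) [Fintype V] (d q j : ℕ) where
  G : SimpleGraph V
  ev : V → Prop
  A : Finset (Fin q)
  B : Finset (Fin q)
  J1 : Finset (Fin q)
  J2 : Finset (Fin q)
  rg : Rg d q
  dl : 10 ^ 10 ≤ d
  par : Par G ev
  deg : ∀ v, (nb G v).card = 2 * d
  half : 2 * (univ.filter fun v => ev v).card = Fintype.card V
  sub : B ⊆ A
  un : A \ B = J1 ∪ J2
  dis : Disjoint J1 J2
  c1 : J1.card = j
  c2 : J2.card = j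
  AB : A.card + B.card = q
  j1 : 1 ≤ j
  jq : 50 * j ≤ q

section bal
variable {V : Type} [Fintype V] [DecidableEq V] {d q j : ℕ}

/-- a colour of `J1` occurs -/
def s1 (D : Bal V d q j) (a : Fin q × Fin q) : Prop := a.1 ∈ D.J1 ∨ a.2 ∈ D.J1

/-- a colour of `J2` occurs -/
def s2 (D : Bal V d q j) (a : Fin q × Fin q) : Prop := a.1 ∈ D.J2 ∨ a.2 ∈ D.J2

open scoped Classical in
/-- the atypical vertices; depends on the odd vertices only -/
noncomputable def X0 (D : Bal V d q j) (ω : V → Fin q × Fin q) : Finset V :=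
  univ.filter fun v => (D.ev v ∧ ¬ (TyE d D.G D.ev D.A (fo ω) v ∧ TyE d D.G D.ev D.B (go ω) v)) ∨
    (¬ D.ev v ∧ ¬ cert d D.G D.ev D.A D.B (fo ω) (go ω) v)

open scoped Classical in
/-- the odd vertices with a colour of `J1` and one of `J2` -/
noncomputable def X00 (D : Bal V d q j) (ω : V → Fin q × Fin q) : Finset V :=
  univ.filter fun v => ¬ D.ev v ∧ s1 D (ω v) ∧ s2 D (ω v)

/-- the deleted vertices -/
noncomputable def Del (D : Bal V d q j) (ω : V → Fin q × Fin q) : Finset V := X0 D ω ∪ X00 D ω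

/-- generic conflict edge: the common colour is not in `J` -/
def gc (D : Bal V d q j) (ω : V → Fin q × Fin q) (s t : V) : Prop :=
  D.G.Adj s t ∧ (((ω s).1 = (ω t).2 ∧ (ω s).1 ∉ D.A \ D.B) ∨ ((ω s).2 = (ω t).1 ∧ (ω s).2 ∉ D.A \ D.B))

/-- generic path outside `X0` -/
def gen (D : Bal V d q j) (ω : V → Fin q × Fin q) (l : List V) : Prop :=
  (∀ s ∈ l, s ∉ X0 D ω) ∧ l.IsChain (gc D ω)

/-- chain: a generic path outside `Del` from a colour of `J1` to a colour of `J2` -/
def Ech (D : Bal V d q j) (ω : V → Fin q × Fin q) (l : List V) : Prop :=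
  (∀ s ∈ l, s ∉ Del D ω) ∧ l.IsChain (gc D ω) ∧ (∃ s ∈ l.head?, s1 D (ω s)) ∧ ∃ s ∈ l.getLast?, s2 D (ω s)

open scoped Classical in
/-- self-avoiding lists which contain an even vertex -/
noncomputable def Pth (D : Bal V d q j) : Finset (List V) :=
  (Pool.Agent.LC.LT V (Fintype.card V)).filter fun l => l.Nodup ∧ ∃ s ∈ l, D.ev s

open scoped Classical in
/-- number of even vertices of a list -/
noncomputable def evl (D : Bal V d q j) (l : List V) : ℕ := (l.filter fun s => D.ev s).length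

/-- no chain -/
def NL (D : Bal V d q j) (ω : V → Fin q × Fin q) : Prop := ∀ l ∈ Pth D, ¬ Ech D ω l

open scoped Classical in
/-- number of chains, with the weights `4^e` -/
noncomputable def wch (D : Bal V d q j) (ω : V → Fin q × Fin q) : ℝ :=
  ∑ l ∈ Pth D, if Ech D ω l then (4 : ℝ) ^ evl D l else 0

/-- its mean, given the odd vertices -/
noncomputable def Wcl (D : Bal V d q j) (ω : V → Fin q × Fin q) : ℝ :=
  (∑ ω' ∈ cl D.G D.ev ω, wch D ω') / ((cl D.G D.ev ω).card : ℝ)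

open scoped Classical in
/-- pairs of proper colourings, typical up to few vertices -/
noncomputable def OM (D : Bal V d q j) : Finset (V → Fin q × Fin q) :=
  univ.filter fun ω => PrP D.G ω ∧ TTo d D.G D.ev D.A (fo ω) ∧ TTo d D.G D.ev D.B (go ω)

open scoped Classical in
/-- number of the odd vertices with a colour of `J'` in the first colouring -/
noncomputable def nJ (D : Bal V d q j) (J' : Finset (Fin q)) (ω : V → Fin q × Fin q) : ℝ :=
  ((univ.filter fun v => ¬ D.ev v ∧ (ω v).1 ∈ J').card : ℝ)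

/-- `(j/q)^2 |V|` -/
noncomputable def jN (D : Bal V d q j) : ℝ := ((j : ℝ) / q) ^ 2 * Fintype.card V

/-- the odd vertices are typical -/
def QQ (D : Bal V d q j) (ω : V → Fin q × Fin q) : Prop :=
  Wcl D ω ≤ jN D / 10 ^ 20 ∧ ((X00 D ω).card : ℝ) ≤ jN D / 10 ^ 20 ∧
    nJ D D.J1 ω ≤ (j : ℝ) / q * Fintype.card V / 10 ^ 20 ∧ nJ D D.J2 ω ≤ (j : ℝ) / q * Fintype.card V / 10 ^ 20

/-! ## The kernels of the conflict walk -/

/-- conflict of the even vertex `x` with the value `a` and the odd vertex `y`, given the odd vertices -/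
def cfB (D : Bal V d q j) (ω₀ : V → Fin q × Fin q) (x y : V) (a : Fin q × Fin q) : Prop :=
  D.G.Adj x y ∧ x ∉ X0 D ω₀ ∧ y ∉ X0 D ω₀ ∧ cj (D.A \ D.B) (fo ω₀) (go ω₀) y a.1 a.2

open scoped Classical in
/-- its probability -/
noncomputable def P1B (D : Bal V d q j) (ω₀ : V → Fin q × Fin q) (x y : V) : ℝ :=
  if D.ev x ∧ ¬ D.ev y ∧ D.G.Adj x y ∧ x ∉ X0 D ω₀ ∧ y ∉ X0 D ω₀ then
    (((Rv D.G (fo ω₀) x ×ˢ Rv D.G (go ω₀) x).filter fun a => cj (D.A \ D.B) (fo ω₀) (go ω₀) y a.1 a.2).card : ℝ) /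
      (((Rv D.G (fo ω₀) x).card : ℝ) * ((Rv D.G (go ω₀) x).card : ℝ)) else 0

open scoped Classical in
/-- the probability of the conflicts of `x` with `y` and `y'` -/
noncomputable def P2B (D : Bal V d q j) (ω₀ : V → Fin q × Fin q) (x y y' : V) : ℝ :=
  if D.ev x ∧ ¬ D.ev y ∧ ¬ D.ev y' ∧ D.G.Adj x y ∧ D.G.Adj x y' ∧ y ≠ y' ∧ x ∉ X0 D ω₀ ∧ y ∉ X0 D ω₀ ∧ y' ∉ X0 D ω₀ then
    pc D.G (D.A \ D.B) (fo ω₀) (go ω₀) x y y' else 0

/-! ## Images of the swap -/

open scoped Classical in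
/-- pairs before the swap, with `X0 = X`, `X00 = Y` -/
def src (D : Bal V d q j) (X Y : Finset V) (ω : V → Fin q × Fin q) : Prop :=
  PrP D.G ω ∧ X0 D ω = X ∧ X00 D ω = Y ∧ NL D ω ∧
    nJ D D.J1 ω ≤ (j : ℝ) / q * Fintype.card V / 10 ^ 20 ∧ nJ D D.J2 ω ≤ (j : ℝ) / q * Fintype.card V / 10 ^ 20

open scoped Classical in
/-- pairs after the swap -/
def tgt (D : Bal V d q j) (X Y : Finset V) (ω : V → Fin q × Fin q) : Prop :=
  PrP (dlG D.G (X ∪ Y)) ω ∧ (∀ y ∈ Y, s1 D (ω y) ∧ s2 D (ω y)) ∧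
    (∀ x, D.ev x → x ∉ X → ¬ ((ω x).1 ∈ D.J2 ∧ (ω x).2 ∈ D.J1)) ∧
    (((univ.filter fun v => ¬ D.ev v ∧ v ∉ X ∪ Y ∧ (ω v).1 ∈ D.J2).card : ℝ) ≤ (j : ℝ) / q * Fintype.card V / 10 ^ 20) ∧
    (((univ.filter fun v => ¬ D.ev v ∧ v ∉ X ∪ Y ∧ (ω v).2 ∈ D.J1).card : ℝ) ≤ (j : ℝ) / q * Fintype.card V / 10 ^ 20)

end bal

end Pool.Agent.LC3
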