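import Pool.Agent.Lib_MP_2c424f_lc3.Defs3

/-!
# Part III, T00: numbers

`Rg d q` gives `1000 q ≤ 2 d ≤ 2000 q`, so `1000 ≤ a = 2 d / q ≤ 2000` (`q ≥ 1` because `d ≥ 1`).  `e^{-a/2} ≤ e^{-500} ≤ 2^{-500}`;
`rh d q = 200 a^2 e^{-a/2} ≤ 8 * 10^8 * 2^{-500}`.
`card_B`: `|A| = |B| + 2 j` (`sub`, `un`, `dis`, `c1`, `c2`), so `2 |B| = q - 2 j ≥ q - q/25`;  `card_Ac`: `|Aᶜ| = q - |A| = |B|`.
-/

set_option autoImplicit false

open Finset Filter

namespace Pool.Agent.LC3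

open Pool.Agent.LO Pool.Agent.LIN Pool.Agent.THR Pool.Agent.COR Pool.Agent.LC

theorem num_q {d q : ℕ} (hR : Rg d q) (hd : 1 ≤ d) : 1 ≤ q ∧ 500 * q ≤ d ∧ d ≤ 1000 * q := by
  obtain ⟨_, h1, h2⟩ := hR
  refine ⟨by omega, by omega, by omega⟩

theorem num_a {d q : ℕ} (hR : Rg d q) (hd : 1 ≤ d) : 1000 ≤ ra d q ∧ ra d q ≤ 2000 := by
  obtain ⟨h0, _, _⟩ := num_q hR hd
  obtain ⟨_, h1, h2⟩ := hR
  have hq : (0 : ℝ) < q := by exact_mod_cast h0
  have h1' : 1000 * (q : ℝ) ≤ 2 * d := by exact_mod_cast h1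
  have h2' : 2 * (d : ℝ) ≤ 2000 * q := by exact_mod_cast h2
  unfold ra
  exact ⟨by rw [le_div_iff₀ hq]; exact h1', by rw [div_le_iff₀ hq]; exact h2'⟩

private theorem T00_exp : Real.exp (-500) ≤ 1 / 10 ^ 100 := by
  have h1 : Real.exp (-1) ≤ 1 / 2 := by
    rw [Real.exp_neg, one_div]
    refine inv_anti₀ (by norm_num) ?_
    have := Real.exp_one_gt_d9
    linarith
  have h2 : Real.exp (-500) = Real.exp (-1) ^ 500 := by
    rw [← Real.exp_nat_mul]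
    norm_num
  rw [h2]
  calc Real.exp (-1) ^ 500 ≤ (1 / 2) ^ 500 := pow_le_pow_left₀ (Real.exp_pos _).le h1 _
    _ = ((1 / 2) ^ 10) ^ 50 := by rw [← pow_mul]
    _ ≤ (1 / 10 ^ 3) ^ 50 := pow_le_pow_left₀ (by norm_num) (by norm_num) _
    _ ≤ 1 / 10 ^ 100 := by norm_num

theorem num_e {d q : ℕ} (hR : Rg d q) (hd : 1 ≤ d) :
    Real.exp (-ra d q) ≤ 1 / 10 ^ 100 ∧ Real.exp (-ra d q / 2) ≤ 1 / 10 ^ 100 ∧ rh d q ≤ 1 / 10 ^ 60 := by
  obtain ⟨h1, h2⟩ := num_a hR hd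
  have h3 : Real.exp (-ra d q / 2) ≤ 1 / 10 ^ 100 :=
    (Real.exp_le_exp.2 (by linarith)).trans T00_exp
  refine ⟨(Real.exp_le_exp.2 (by linarith)).trans T00_exp, h3, ?_⟩
  unfold rh
  have h4 : ra d q ^ 2 ≤ 2000 ^ 2 := pow_le_pow_left₀ (by linarith) h2 _
  calc 200 * ra d q ^ 2 * Real.exp (-ra d q / 2) ≤ 200 * 2000 ^ 2 * (1 / 10 ^ 100) := by
        refine mul_le_mul (by linarith) h3 (Real.exp_pos _).le (by norm_num)
    _ ≤ 1 / 10 ^ 60 := by norm_num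

section
variable {V : Type} [Fintype V] [DecidableEq V] {d q j : ℕ}

theorem card_B (D : Bal V d q j) : D.A.card = D.B.card + 2 * j ∧ (48 : ℝ) / 100 * q ≤ D.B.card := by
  classical
  have h1 : (D.A \ D.B).card = j + j := by
    have h := Finset.card_union_of_disjoint D.dis
    rw [D.c1, D.c2] at h
    rw [D.un]
    exact h
  have h2 : (D.A \ D.B).card + D.B.card = D.A.card := Finset.card_sdiff_add_card_eq_card D.sub
  have h3 : D.A.card = D.B.card + 2 * j := by omega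
  refine ⟨h3, ?_⟩
  have h4 := D.AB
  have h5 := D.jq
  have h6 : 48 * q ≤ 100 * D.B.card := by omega
  have h7 : 48 * (q : ℝ) ≤ 100 * (D.B.card : ℝ) := by exact_mod_cast h6
  linarith

theorem card_Ac (D : Bal V d q j) : (D.Aᶜ).card = D.B.card := by
  rw [Finset.card_compl, Fintype.card_fin]
  have := D.AB
  omega

end

end Pool.Agent.LC3
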