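import Pool.Agent.Lib_MP_2c424f_lc3.Defs3

/-!
# Part III, T01: automorphisms of the graph and permutations of the colours

`s` an automorphism of `G`, `π` a permutation of the colours, `F' x = π (F (s x))`.  Then `nb G (s v)` is the image of `nb G v` under `s`;
`Rv G F' v` is the image of `Rv G F (s v)` under `π`, `Rc G F' v w` that of `Rc G F (s v) (s w)`;  `nv G F' v (π c) = nv G F (s v) c`,
`nc G F' v w (π c) = nc G F (s v) (s w) c`.  `hT` says that the types agree.  Reindex the sums over the colours by `π` and those over the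
neighbours by `s`.
-/

set_option autoImplicit false

open Finset Filter

namespace Pool.Agent.LC3

open Pool.Agent.LO Pool.Agent.LIN Pool.Agent.THR Pool.Agent.COR Pool.Agent.LC

section
variable {V : Type} [Fintype V] [DecidableEq V] {d q : ℕ}

omit [DecidableEq V] in
open scoped Classical in
private theorem T01_nb (G : SimpleGraph V) (s : Equiv.Perm V) (hs : ∀ x y, G.Adj (s x) (s y) ↔ G.Adj x y) (v x : V) :
    x ∈ nb G v ↔ s x ∈ nb G (s v) := by
  unfold nb
  rw [Finset.mem_filter, Finset.mem_filter]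
  exact ⟨fun h => ⟨Finset.mem_univ _, (hs v x).2 h.2⟩, fun h => ⟨Finset.mem_univ _, (hs v x).1 h.2⟩⟩

omit [DecidableEq V] in
open scoped Classical in
private theorem T01_Rc (G : SimpleGraph V) (s : Equiv.Perm V) (hs : ∀ x y, G.Adj (s x) (s y) ↔ G.Adj x y)
    (π : Equiv.Perm (Fin q)) (F : V → Fin q) (v w : V) (c : Fin q) :
    π c ∈ Rc G (fun x => π (F (s x))) v w ↔ c ∈ Rc G F (s v) (s w) := by
  unfold Rc
  rw [Finset.mem_filter, Finset.mem_filter]
  constructor
  · rintro ⟨_, h⟩
    refine ⟨Finset.mem_univ _, fun y hy hyw hF => ?_⟩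
    have h1 : G.Adj v (s.symm y) := by
      rw [← hs, Equiv.apply_symm_apply]
      exact hy
    refine h (s.symm y) h1 ?_ ?_
    · intro e
      apply hyw
      rw [← e, Equiv.apply_symm_apply]
    · show π (F (s (s.symm y))) = π c
      rw [Equiv.apply_symm_apply, hF]
  · rintro ⟨_, h⟩
    refine ⟨Finset.mem_univ _, fun x hx hxw hF => ?_⟩
    exact h (s x) ((hs v x).2 hx) (fun e => hxw (s.injective e)) (π.injective hF)

omit [DecidableEq V] in
open scoped Classical in
private theorem T01_Rv (G : SimpleGraph V) (s : Equiv.Perm V) (hs : ∀ x y, G.Adj (s x) (s y) ↔ G.Adj x y)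
    (π : Equiv.Perm (Fin q)) (F : V → Fin q) (v : V) (c : Fin q) :
    π c ∈ Rv G (fun x => π (F (s x))) v ↔ c ∈ Rv G F (s v) := by
  unfold Rv
  rw [Finset.mem_filter, Finset.mem_filter]
  constructor
  · rintro ⟨_, h⟩
    refine ⟨Finset.mem_univ _, fun y hy hF => ?_⟩
    have h1 : G.Adj v (s.symm y) := by
      rw [← hs, Equiv.apply_symm_apply]
      exact hy
    refine h (s.symm y) h1 ?_
    show π (F (s (s.symm y))) = π c
    rw [Equiv.apply_symm_apply, hF]
  · rintro ⟨_, h⟩
    refine ⟨Finset.mem_univ _, fun x hx hF => ?_⟩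
    exact h (s x) ((hs v x).2 hx) (π.injective hF)

omit [DecidableEq V] in
open scoped Classical in
private theorem T01_nc (G : SimpleGraph V) (s : Equiv.Perm V) (hs : ∀ x y, G.Adj (s x) (s y) ↔ G.Adj x y)
    (π : Equiv.Perm (Fin q)) (F : V → Fin q) (v w : V) (c : Fin q) :
    nc G (fun x => π (F (s x))) v w (π c) = nc G F (s v) (s w) c := by
  unfold nc
  refine Finset.card_bijective s s.bijective fun x => ?_
  rw [Finset.mem_filter, Finset.mem_filter, hs]
  constructor
  · rintro ⟨_, h1, h2, h3⟩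
    exact ⟨Finset.mem_univ _, h1, fun e => h2 (s.injective e), π.injective h3⟩
  · rintro ⟨_, h1, h2, h3⟩
    exact ⟨Finset.mem_univ _, h1, fun e => h2 (congrArg s e), congrArg π h3⟩

omit [DecidableEq V] in
open scoped Classical in
private theorem T01_nv (G : SimpleGraph V) (s : Equiv.Perm V) (hs : ∀ x y, G.Adj (s x) (s y) ↔ G.Adj x y)
    (π : Equiv.Perm (Fin q)) (F : V → Fin q) (v : V) (c : Fin q) :
    nv G (fun x => π (F (s x))) v (π c) = nv G F (s v) c := by
  unfold nv
  refine Finset.card_bijective s s.bijective fun x => ?_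
  rw [Finset.mem_filter, Finset.mem_filter, hs]
  constructor
  · rintro ⟨_, h1, h3⟩
    exact ⟨Finset.mem_univ _, h1, π.injective h3⟩
  · rintro ⟨_, h1, h3⟩
    exact ⟨Finset.mem_univ _, h1, congrArg π h3⟩

omit [DecidableEq V] in
open scoped Classical in
private theorem T01_e1 (G : SimpleGraph V) (s : Equiv.Perm V) (hs : ∀ x y, G.Adj (s x) (s y) ↔ G.Adj x y)
    (π : Equiv.Perm (Fin q)) (F : V → Fin q) (v : V) (c : Fin q) :
    ((nb G v).filter fun x => π c ∈ Rc G (fun x => π (F (s x))) x v).card =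
      ((nb G (s v)).filter fun x => c ∈ Rc G F x (s v)).card := by
  refine Finset.card_bijective s s.bijective fun x => ?_
  rw [Finset.mem_filter, Finset.mem_filter, T01_nb G s hs, T01_Rc G s hs]

omit [DecidableEq V] in
open scoped Classical in
private theorem T01_sum (G : SimpleGraph V) (s : Equiv.Perm V) (hs : ∀ x y, G.Adj (s x) (s y) ↔ G.Adj x y)
    (π : Equiv.Perm (Fin q)) (F : V → Fin q) (v : V) (c : Fin q) (p : ℕ) :
    ∑ x ∈ nb G v, (nc G (fun x => π (F (s x))) x v (π c) : ℝ) ^ p = ∑ x ∈ nb G (s v), (nc G F x (s v) c : ℝ) ^ p := by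
  refine Finset.sum_bijective s s.bijective (fun x => T01_nb G s hs v x) fun x _ => ?_
  rw [T01_nc G s hs]

omit [DecidableEq V] in
open scoped Classical in
private theorem T01_sum1 (G : SimpleGraph V) (s : Equiv.Perm V) (hs : ∀ x y, G.Adj (s x) (s y) ↔ G.Adj x y)
    (π : Equiv.Perm (Fin q)) (F : V → Fin q) (v : V) (c : Fin q) :
    ∑ x ∈ nb G v, (nc G (fun x => π (F (s x))) x v (π c) : ℝ) = ∑ x ∈ nb G (s v), (nc G F x (s v) c : ℝ) := by
  refine Finset.sum_bijective s s.bijective (fun x => T01_nb G s hs v x) fun x _ => ?_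
  rw [T01_nc G s hs]

theorem TyO_iso (G : SimpleGraph V) (ev : V → Prop) (s : Equiv.Perm V) (hs : ∀ x y, G.Adj (s x) (s y) ↔ G.Adj x y)
    (π : Equiv.Perm (Fin q)) (A B : Finset (Fin q)) (hT : ∀ v c, tS ev B v (π c) ↔ tS ev A (s v) c)
    (F : V → Fin q) (v : V) :
    TyO d G ev B (fun x => π (F (s x))) v ↔ TyO d G ev A F (s v) := by
  constructor
  · intro h
    refine ⟨fun c hc => ?_, fun c => ?_, fun c hc => ?_⟩
    · rw [← T01_e1 G s hs π F v c]
      exact h.o1 (π c) ((hT v c).2 hc)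
    · rw [← T01_sum G s hs π F v c 2]
      exact h.o2 (π c)
    · rw [← T01_sum1 G s hs π F v c]
      exact h.o3 (π c) (fun e => hc ((hT v c).1 e))
  · intro h
    refine ⟨fun c hc => ?_, fun c => ?_, fun c hc => ?_⟩
    · obtain ⟨c, rfl⟩ := π.surjective c
      rw [T01_e1 G s hs π F v c]
      exact h.o1 c ((hT v c).1 hc)
    · obtain ⟨c, rfl⟩ := π.surjective c
      rw [T01_sum G s hs π F v c 2]
      exact h.o2 c
    · obtain ⟨c, rfl⟩ := π.surjective c
      rw [T01_sum1 G s hs π F v c]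
      exact h.o3 c (fun e => hc ((hT v c).2 e))

omit [DecidableEq V] in
open scoped Classical in
private theorem T01_c1 (G : SimpleGraph V) (s : Equiv.Perm V) (hs : ∀ x y, G.Adj (s x) (s y) ↔ G.Adj x y)
    (π : Equiv.Perm (Fin q)) (F : V → Fin q) (v : V) :
    (Rv G F (s v)).card = (Rv G (fun x => π (F (s x))) v).card :=
  Finset.card_bijective π π.bijective fun c => (T01_Rv G s hs π F v c).symm

omit [DecidableEq V] in
open scoped Classical in
private theorem T01_c2 (G : SimpleGraph V) (ev : V → Prop) (s : Equiv.Perm V) (hs : ∀ x y, G.Adj (s x) (s y) ↔ G.Adj x y)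
    (π : Equiv.Perm (Fin q)) (A B : Finset (Fin q)) (hT : ∀ v c, tS ev B v (π c) ↔ tS ev A (s v) c) (F : V → Fin q) (v : V) :
    ((Rv G F (s v)).filter fun c => ¬ tS ev A (s v) c).card =
      ((Rv G (fun x => π (F (s x))) v).filter fun c => ¬ tS ev B v c).card := by
  refine Finset.card_bijective π π.bijective fun c => ?_
  rw [Finset.mem_filter, Finset.mem_filter, T01_Rv G s hs π F v c, hT]

omit [DecidableEq V] in
open scoped Classical in
private theorem T01_c3 (G : SimpleGraph V) (s : Equiv.Perm V) (hs : ∀ x y, G.Adj (s x) (s y) ↔ G.Adj x y)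
    (π : Equiv.Perm (Fin q)) (F : V → Fin q) (v : V) :
    ∑ c, (nv G F (s v) c : ℝ) ^ 4 = ∑ c, (nv G (fun x => π (F (s x))) v c : ℝ) ^ 4 := by
  refine Finset.sum_bijective π π.bijective (fun c => by simp only [Finset.mem_univ]) fun c _ => ?_
  rw [T01_nv G s hs]

omit [DecidableEq V] in
open scoped Classical in
private theorem T01_c4 (G : SimpleGraph V) (ev : V → Prop) (s : Equiv.Perm V) (hs : ∀ x y, G.Adj (s x) (s y) ↔ G.Adj x y)
    (π : Equiv.Perm (Fin q)) (A B : Finset (Fin q)) (hT : ∀ v c, tS ev B v (π c) ↔ tS ev A (s v) c) (F : V → Fin q) (v : V) :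
    ∑ c ∈ univ.filter (fun c => tS ev A (s v) c), (nv G F (s v) c : ℝ) ^ 2 =
      ∑ c ∈ univ.filter (fun c => tS ev B v c), (nv G (fun x => π (F (s x))) v c : ℝ) ^ 2 := by
  refine Finset.sum_bijective π π.bijective (fun c => ?_) fun c _ => ?_
  · rw [Finset.mem_filter, Finset.mem_filter, hT]
    simp only [Finset.mem_univ, true_and]
  · rw [T01_nv G s hs]

theorem TyE_iso (G : SimpleGraph V) (ev : V → Prop) (s : Equiv.Perm V) (hs : ∀ x y, G.Adj (s x) (s y) ↔ G.Adj x y)
    (π : Equiv.Perm (Fin q)) (A B : Finset (Fin q)) (hT : ∀ v c, tS ev B v (π c) ↔ tS ev A (s v) c)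
    (F : V → Fin q) (v : V) :
    TyE d G ev B (fun x => π (F (s x))) v ↔ TyE d G ev A F (s v) := by
  constructor
  · intro h
    refine ⟨?_, ?_, ?_, ?_⟩
    · rw [T01_c1 G s hs π F v]
      exact h.e1
    · rw [T01_c2 G ev s hs π A B hT F v]
      exact h.e2
    · rw [T01_c3 G s hs π F v]
      exact h.e3
    · rw [T01_c4 G ev s hs π A B hT F v]
      exact h.e4
  · intro h
    refine ⟨?_, ?_, ?_, ?_⟩
    · rw [← T01_c1 G s hs π F v]
      exact h.e1
    · rw [← T01_c2 G ev s hs π A B hT F v]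
      exact h.e2
    · rw [← T01_c3 G s hs π F v]
      exact h.e3
    · rw [← T01_c4 G ev s hs π A B hT F v]
      exact h.e4

end

end Pool.Agent.LC3
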