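import Pool.Agent.Lib_MP_2c424f_lc3.T01

/-!
# Part III, T02: the sets `A` and `B` with `|A| + |B| = q`

Choose a permutation `π` with `π c ∈ B ↔ c ∉ A` (`|Aᶜ| = |B|`; e.g. `Finset.equivOfCardEq` and `Equiv.extendSubtype`, or
`Equiv.Perm` from the equivalences of the subtypes).  `F ↦ F'`, `F' x = π (F (s x))` is a bijection of the functions which preserves
`PrG`, and `Ty d G ev B F' v ↔ Ty d G ev A F (s v)` by `TyO_iso`, `TyE_iso`: `tS ev B v (π c) = (ev v ↔ π c ∈ B)`,
`tS ev A (s v) c = (ev (s v) ↔ c ∈ A)`.  So the numbers of the vertices which are not typical agree (reindex by `s`).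
-/

set_option autoImplicit false

open Finset Filter

namespace Pool.Agent.LC3

open Pool.Agent.LO Pool.Agent.LIN Pool.Agent.THR Pool.Agent.COR Pool.Agent.LC

private theorem T02_perm {q : ℕ} (A B : Finset (Fin q)) (h : A.card + B.card = q) :
    ∃ π : Equiv.Perm (Fin q), ∀ c, π c ∈ B ↔ c ∉ A := by
  classical
  have h1 : (Aᶜ : Finset (Fin q)).card = B.card := by
    rw [Finset.card_compl, Fintype.card_fin]
    omega
  let e : {c // c ∈ (Aᶜ : Finset (Fin q))} ≃ {c // c ∈ B} := Finset.equivOfCardEq h1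
  refine ⟨e.extendSubtype, fun c => ⟨fun h2 h3 => ?_, fun h2 => ?_⟩⟩
  · have h4 : ¬ c ∈ (Aᶜ : Finset (Fin q)) := by
      rw [Finset.mem_compl]
      exact not_not.2 h3
    exact e.extendSubtype_not_mem c h4 h2
  · exact e.extendSubtype_mem c (Finset.mem_compl.2 h2)

open scoped Classical in
theorem TT_symm {V : Type} [Fintype V] [DecidableEq V] {d q : ℕ} (G : SimpleGraph V) (ev : V → Prop)
    (s : Equiv.Perm V) (hs : ∀ x y, G.Adj (s x) (s y) ↔ G.Adj x y) (he : ∀ v, ev (s v) ↔ ¬ ev v)
    (A B : Finset (Fin q)) (h : A.card + B.card = q) (r : ℝ) :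
    cG G (fun F : V → Fin q => ((univ.filter fun v => ¬ Ty d G ev A F v).card : ℝ) ≤ r) =
      cG G (fun F : V → Fin q => ((univ.filter fun v => ¬ Ty d G ev B F v).card : ℝ) ≤ r) := by
  obtain ⟨π, hπ⟩ := T02_perm A B h
  have hT : ∀ v c, tS ev B v (π c) ↔ tS ev A (s v) c := by
    intro v c
    have h1 := hπ c
    have h2 := he v
    unfold tS
    tauto
  have hTy : ∀ (F : V → Fin q) (v : V), Ty d G ev B (fun x => π (F (s x))) v ↔ Ty d G ev A F (s v) := by
    intro F v
    unfold LC.Ty
    rw [TyO_iso G ev s hs π A B hT F v, TyE_iso G ev s hs π A B hT F v]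
  let Φ : (V → Fin q) ≃ (V → Fin q) :=
    { toFun := fun F x => π (F (s x))
      invFun := fun F x => π.symm (F (s.symm x))
      left_inv := fun F => by funext x; simp
      right_inv := fun F => by funext x; simp }
  have hPr : ∀ F : V → Fin q, PrG G F ↔ PrG G (Φ F) := by
    intro F
    constructor
    · intro hF x y hxy hc
      exact hF (s x) (s y) ((hs x y).2 hxy) (π.injective hc)
    · intro hF x y hxy hc
      have h1 : G.Adj (s.symm x) (s.symm y) := by
        rw [← hs]
        simpa using hxy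
      refine hF _ _ h1 ?_
      show π (F (s (s.symm x))) = π (F (s (s.symm y)))
      rw [Equiv.apply_symm_apply, Equiv.apply_symm_apply, hc]
  have hcard : ∀ F : V → Fin q, (univ.filter fun v => ¬ Ty d G ev B (Φ F) v).card =
      (univ.filter fun v => ¬ Ty d G ev A F v).card := by
    intro F
    refine Finset.card_equiv s fun v => ?_
    rw [Finset.mem_filter, Finset.mem_filter]
    have h1 := hTy F v
    constructor
    · rintro ⟨_, h2⟩
      exact ⟨Finset.mem_univ _, fun h3 => h2 (h1.2 h3)⟩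
    · rintro ⟨_, h2⟩
      exact ⟨Finset.mem_univ _, fun h3 => h2 (h1.1 h3)⟩
  unfold cG
  refine congrArg Nat.cast (Finset.card_equiv Φ fun F => ?_)
  rw [Finset.mem_filter, Finset.mem_filter]
  simp only [Finset.mem_univ, true_and]
  rw [hcard F, ← hPr F]

end Pool.Agent.LC3
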