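import Pool.Agent.Lib_MP_2c424f_lc3.T01

/-!
# Part III, T03: exchange of two colours

`T01` with `s = 1` and `π = Equiv.swap a b`; `tS ev A v (π c) ↔ tS ev A v c` because `π` preserves `A`.
-/

set_option autoImplicit false

open Finset Filter

namespace Pool.Agent.LC3

open Pool.Agent.LO Pool.Agent.LIN Pool.Agent.THR Pool.Agent.COR Pool.Agent.LC

section
variable {V : Type} [Fintype V] [DecidableEq V] {d q j : ℕ}

private theorem T03_swap {a b : Fin q} {A : Finset (Fin q)} (h : a ∈ A ↔ b ∈ A) (c : Fin q) :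
    Equiv.swap a b c ∈ A ↔ c ∈ A := by
  rcases eq_or_ne c a with rfl | h1
  · rw [Equiv.swap_apply_left]
    exact h.symm
  · rcases eq_or_ne c b with rfl | h2
    · rw [Equiv.swap_apply_right]
      exact h
    · rw [Equiv.swap_apply_of_ne_of_ne h1 h2]

private theorem T03_TyO (G : SimpleGraph V) (ev : V → Prop) {a b : Fin q} {A : Finset (Fin q)}
    (h : a ∈ A ↔ b ∈ A) (F : V → Fin q) (v : V) :
    TyO d G ev A (fun x => Equiv.swap a b (F x)) v ↔ TyO d G ev A F v := by
  have := TyO_iso (d := d) G ev (Equiv.refl V) (fun _ _ => Iff.rfl) (Equiv.swap a b) A A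
    (fun v c => by
      unfold tS
      rw [T03_swap h]
      rfl) F v
  simpa using this

private theorem T03_TyE (G : SimpleGraph V) (ev : V → Prop) {a b : Fin q} {A : Finset (Fin q)}
    (h : a ∈ A ↔ b ∈ A) (F : V → Fin q) (v : V) :
    TyE d G ev A (fun x => Equiv.swap a b (F x)) v ↔ TyE d G ev A F v := by
  have := TyE_iso (d := d) G ev (Equiv.refl V) (fun _ _ => Iff.rfl) (Equiv.swap a b) A A
    (fun v c => by
      unfold tS
      rw [T03_swap h]
      rfl) F v
  simpa using this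

private theorem T03_PrG (G : SimpleGraph V) (a b : Fin q) (F : V → Fin q) :
    PrG G (fun x => Equiv.swap a b (F x)) ↔ PrG G F := by
  unfold PrG
  simp

private theorem T03_TTo (G : SimpleGraph V) (ev : V → Prop) {a b : Fin q} {A : Finset (Fin q)}
    (h : a ∈ A ↔ b ∈ A) (F : V → Fin q) :
    TTo d G ev A (fun x => Equiv.swap a b (F x)) ↔ TTo d G ev A F := by
  classical
  have h1 : (univ.filter fun v => (ev v ∧ ¬ TyE d G ev A (fun x => Equiv.swap a b (F x)) v) ∨
      (¬ ev v ∧ ¬ TyO d G ev A (fun x => Equiv.swap a b (F x)) v)) =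
      univ.filter fun v => (ev v ∧ ¬ TyE d G ev A F v) ∨ (¬ ev v ∧ ¬ TyO d G ev A F v) := by
    ext v
    simp only [Finset.mem_filter, T03_TyO G ev h, T03_TyE G ev h]
  unfold TTo
  constructor
  · intro h2
    convert h2 using 3
    convert h1.symm
  · intro h2
    convert h2 using 3

private theorem T03_cert (G : SimpleGraph V) (ev : V → Prop) {a b : Fin q} {A B : Finset (Fin q)}
    (h : a ∈ A ↔ b ∈ A) (F F' : V → Fin q) (y : V) :
    cert d G ev A B (fun x => Equiv.swap a b (F x)) F' y ↔ cert d G ev A B F F' y := by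
  unfold cert
  simp only [T03_TyO G ev h, T03_TyE G ev h]

private theorem T03_cert' (G : SimpleGraph V) (ev : V → Prop) {a b : Fin q} {A B : Finset (Fin q)}
    (h : a ∈ B ↔ b ∈ B) (F F' : V → Fin q) (y : V) :
    cert d G ev A B F (fun x => Equiv.swap a b (F' x)) y ↔ cert d G ev A B F F' y := by
  unfold cert
  simp only [T03_TyO G ev h, T03_TyE G ev h]

private theorem T03_fo1 (a b : Fin q) (ω : V → Fin q × Fin q) :
    fo (sw1 a b ω) = fun v => Equiv.swap a b (fo ω v) := rfl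

private theorem T03_go1 (a b : Fin q) (ω : V → Fin q × Fin q) : go (sw1 a b ω) = go ω := rfl

private theorem T03_fo2 (a b : Fin q) (ω : V → Fin q × Fin q) : fo (sw2 a b ω) = fo ω := rfl

private theorem T03_go2 (a b : Fin q) (ω : V → Fin q × Fin q) :
    go (sw2 a b ω) = fun v => Equiv.swap a b (go ω v) := rfl

theorem OM_sw1 (D : Bal V d q j) {a b : Fin q} (h : a ∈ D.A ↔ b ∈ D.A) {ω : V → Fin q × Fin q} (hω : ω ∈ OM D) :
    sw1 a b ω ∈ OM D := by
  simp only [OM, PrP, Finset.mem_filter] at hω ⊢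
  rw [T03_fo1, T03_go1, T03_PrG, T03_TTo _ _ h]
  exact ⟨Finset.mem_univ _, hω.2⟩

theorem OM_sw2 (D : Bal V d q j) {a b : Fin q} (h : a ∈ D.B ↔ b ∈ D.B) {ω : V → Fin q × Fin q} (hω : ω ∈ OM D) :
    sw2 a b ω ∈ OM D := by
  simp only [OM, PrP, Finset.mem_filter] at hω ⊢
  rw [T03_fo2, T03_go2, T03_PrG, T03_TTo _ _ h]
  exact ⟨Finset.mem_univ _, hω.2⟩

theorem X0_sw1 (D : Bal V d q j) {a b : Fin q} (h : a ∈ D.A ↔ b ∈ D.A) (ω : V → Fin q × Fin q) :
    X0 D (sw1 a b ω) = X0 D ω := by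
  ext v
  simp only [X0, Finset.mem_filter, T03_fo1, T03_go1, T03_TyE D.G D.ev h, T03_cert D.G D.ev h]

theorem X0_sw2 (D : Bal V d q j) {a b : Fin q} (h : a ∈ D.B ↔ b ∈ D.B) (ω : V → Fin q × Fin q) :
    X0 D (sw2 a b ω) = X0 D ω := by
  ext v
  simp only [X0, Finset.mem_filter, T03_fo2, T03_go2, T03_TyE D.G D.ev h, T03_cert' D.G D.ev h]

end

end Pool.Agent.LC3
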