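import Pool.Agent.Lib_MP_2c424f_lc3.Defs3

/-!
# Part III, T04: functions of the odd vertices

`G` is bipartite (`Par`).  `TyE … F x` for even `x` uses `Rv G F x`, `nv G F x c`: colours of neighbours of `x`, odd.  `TyO … F y` for odd `y` uses
`Rc G F x y`, `nc G F x y c` for `x ~ y`: colours of the neighbours of the even vertices `x`.  So `X0`, `X00`, `TTo`, `nJ` depend on the
odd vertices only.  `cl` depends only on the odd vertices by definition, hence also `Wcl`, `QQ`.
-/

set_option autoImplicit false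

open Finset Filter

namespace Pool.Agent.LC3

open Pool.Agent.LO Pool.Agent.LIN Pool.Agent.THR Pool.Agent.COR Pool.Agent.LC

section
variable {V : Type} [Fintype V] [DecidableEq V] {d q j : ℕ}

private theorem T04_Rv (G : SimpleGraph V) (ev : V → Prop) (hP : Par G ev) {F F' : V → Fin q}
    (h : ∀ v, ¬ ev v → F v = F' v) {v : V} (hv : ev v) : Rv G F v = Rv G F' v := by
  classical
  unfold Rv
  refine Finset.filter_congr fun c _ => ?_
  refine forall_congr' fun x => forall_congr' fun hx => ?_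
  rw [h x ((hP v x hx).1 hv)]

private theorem T04_nv (G : SimpleGraph V) (ev : V → Prop) (hP : Par G ev) {F F' : V → Fin q}
    (h : ∀ v, ¬ ev v → F v = F' v) {v : V} (hv : ev v) (c : Fin q) : nv G F v c = nv G F' v c := by
  classical
  unfold nv
  congr 1
  refine Finset.filter_congr fun x _ => ?_
  refine and_congr_right fun hx => ?_
  rw [h x ((hP v x hx).1 hv)]

private theorem T04_Rc (G : SimpleGraph V) (ev : V → Prop) (hP : Par G ev) {F F' : V → Fin q}
    (h : ∀ v, ¬ ev v → F v = F' v) {x : V} (hx : ev x) (v : V) : Rc G F x v = Rc G F' x v := by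
  unfold Rc
  ext c
  simp only [Finset.mem_filter]
  refine and_congr_right fun _ => ?_
  refine forall_congr' fun y => forall_congr' fun hy => forall_congr' fun _ => ?_
  rw [h y ((hP x y hy).1 hx)]

private theorem T04_nc (G : SimpleGraph V) (ev : V → Prop) (hP : Par G ev) {F F' : V → Fin q}
    (h : ∀ v, ¬ ev v → F v = F' v) {x : V} (hx : ev x) (v : V) (c : Fin q) : nc G F x v c = nc G F' x v c := by
  unfold nc
  congr 1
  ext y
  simp only [Finset.mem_filter]
  refine and_congr_right fun _ => ?_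
  refine and_congr_right fun hy => ?_
  rw [h y ((hP x y hy).1 hx)]

private theorem T04_TyE_imp (G : SimpleGraph V) (ev : V → Prop) (hP : Par G ev) (A : Finset (Fin q)) {F F' : V → Fin q}
    (h : ∀ v, ¬ ev v → F v = F' v) {v : V} (hv : ev v) (H : TyE d G ev A F v) : TyE d G ev A F' v := by
  have h1 := T04_Rv G ev hP h hv
  have h2 := T04_nv G ev hP h hv
  obtain ⟨e1, e2, e3, e4⟩ := H
  rw [h1] at e1 e2
  simp only [h2] at e3 e4
  exact ⟨e1, e2, e3, e4⟩

private theorem T04_TyE (G : SimpleGraph V) (ev : V → Prop) (hP : Par G ev) (A : Finset (Fin q)) {F F' : V → Fin q}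
    (h : ∀ v, ¬ ev v → F v = F' v) {v : V} (hv : ev v) : TyE d G ev A F v ↔ TyE d G ev A F' v :=
  ⟨T04_TyE_imp G ev hP A h hv, T04_TyE_imp G ev hP A (fun v hv => (h v hv).symm) hv⟩

private theorem T04_nb (G : SimpleGraph V) (ev : V → Prop) (hP : Par G ev) {v x : V} (hv : ¬ ev v) (hx : x ∈ nb G v) : ev x := by
  classical
  unfold nb at hx
  rw [Finset.mem_filter] at hx
  by_contra hc
  exact hv ((hP v x hx.2).2 hc)

private theorem T04_TyO_imp (G : SimpleGraph V) (ev : V → Prop) (hP : Par G ev) (A : Finset (Fin q)) {F F' : V → Fin q}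
    (h : ∀ v, ¬ ev v → F v = F' v) {v : V} (hv : ¬ ev v) (H : TyO d G ev A F v) : TyO d G ev A F' v := by
  classical
  obtain ⟨o1, o2, o3⟩ := H
  refine ⟨fun c hc => ?_, fun c => ?_, fun c hc => ?_⟩
  · refine le_trans (le_of_eq ?_) (o1 c hc)
    congr 2
    refine Finset.filter_congr fun x hx => ?_
    rw [T04_Rc G ev hP h (T04_nb G ev hP hv hx) v]
  · refine le_trans (le_of_eq ?_) (o2 c)
    refine Finset.sum_congr rfl fun x hx => ?_
    rw [T04_nc G ev hP h (T04_nb G ev hP hv hx) v c]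
  · refine le_trans (le_of_eq ?_) (o3 c hc)
    refine Finset.sum_congr rfl fun x hx => ?_
    rw [T04_nc G ev hP h (T04_nb G ev hP hv hx) v c]

private theorem T04_TyO (G : SimpleGraph V) (ev : V → Prop) (hP : Par G ev) (A : Finset (Fin q)) {F F' : V → Fin q}
    (h : ∀ v, ¬ ev v → F v = F' v) {v : V} (hv : ¬ ev v) : TyO d G ev A F v ↔ TyO d G ev A F' v :=
  ⟨T04_TyO_imp G ev hP A h hv, T04_TyO_imp G ev hP A (fun v hv => (h v hv).symm) hv⟩

private theorem T04_cert (G : SimpleGraph V) (ev : V → Prop) (hP : Par G ev) (A B : Finset (Fin q)) {F F' K K' : V → Fin q}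
    (h : ∀ v, ¬ ev v → F v = F' v) (h' : ∀ v, ¬ ev v → K v = K' v) {v : V} (hv : ¬ ev v) :
    cert d G ev A B F K v ↔ cert d G ev A B F' K' v := by
  unfold cert
  refine and_congr ?_ ?_
  · rw [T04_TyO G ev hP A h hv, T04_TyO G ev hP B h' hv]
  · refine forall_congr' fun x => forall_congr' fun hx => ?_
    have hx' := T04_nb G ev hP hv hx
    rw [T04_TyE G ev hP A h hx', T04_TyE G ev hP B h' hx']

private theorem T04_fo {ev : V → Prop} {ω ω' : V → Fin q × Fin q} (h : so ev ω ω') :
    ∀ v, ¬ ev v → fo ω v = fo ω' v := fun v hv => by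
  unfold fo
  rw [h v hv]

private theorem T04_go {ev : V → Prop} {ω ω' : V → Fin q × Fin q} (h : so ev ω ω') :
    ∀ v, ¬ ev v → go ω v = go ω' v := fun v hv => by
  unfold go
  rw [h v hv]

private theorem T04_symm {ev : V → Prop} {ω ω' : V → Fin q × Fin q} (h : so ev ω ω') : so ev ω' ω :=
  fun v hv => (h v hv).symm

theorem TTo_so (G : SimpleGraph V) (ev : V → Prop) (hP : Par G ev) (A : Finset (Fin q)) {F F' : V → Fin q}
    (h : ∀ v, ¬ ev v → F v = F' v) : TTo d G ev A F ↔ TTo d G ev A F' := by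
  classical
  unfold TTo
  have h1 : (univ.filter fun v => (ev v ∧ ¬ TyE d G ev A F v) ∨ (¬ ev v ∧ ¬ TyO d G ev A F v)) =
      univ.filter fun v => (ev v ∧ ¬ TyE d G ev A F' v) ∨ (¬ ev v ∧ ¬ TyO d G ev A F' v) := by
    refine Finset.filter_congr fun v _ => ?_
    refine or_congr (and_congr_right fun hv => ?_) (and_congr_right fun hv => ?_)
    · rw [T04_TyE G ev hP A h hv]
    · rw [T04_TyO G ev hP A h hv]
  rw [h1]

theorem X0_so (D : Bal V d q j) {ω ω' : V → Fin q × Fin q} (h : so D.ev ω ω') : X0 D ω = X0 D ω' := by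
  classical
  unfold X0
  refine Finset.filter_congr fun v _ => ?_
  refine or_congr (and_congr_right fun hv => ?_) (and_congr_right fun hv => ?_)
  · rw [T04_TyE D.G D.ev D.par D.A (T04_fo h) hv, T04_TyE D.G D.ev D.par D.B (T04_go h) hv]
  · rw [T04_cert D.G D.ev D.par D.A D.B (T04_fo h) (T04_go h) hv]

theorem X00_so (D : Bal V d q j) {ω ω' : V → Fin q × Fin q} (h : so D.ev ω ω') : X00 D ω = X00 D ω' := by
  classical
  unfold X00
  refine Finset.filter_congr fun v _ => ?_
  refine and_congr_right fun hv => ?_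
  rw [h v hv]

theorem Del_so (D : Bal V d q j) {ω ω' : V → Fin q × Fin q} (h : so D.ev ω ω') : Del D ω = Del D ω' := by
  unfold Del
  rw [X0_so D h, X00_so D h]

theorem nJ_so (D : Bal V d q j) (J' : Finset (Fin q)) {ω ω' : V → Fin q × Fin q} (h : so D.ev ω ω') :
    nJ D J' ω = nJ D J' ω' := by
  classical
  unfold nJ
  congr 2
  refine Finset.filter_congr fun v _ => ?_
  refine and_congr_right fun hv => ?_
  rw [h v hv]

theorem cl_congr (G : SimpleGraph V) (ev : V → Prop) {ω ω' : V → Fin q × Fin q} (h : so ev ω ω') :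
    cl G ev ω = cl G ev ω' := by
  classical
  unfold cl
  refine Finset.filter_congr fun ω'' _ => ?_
  refine and_congr_right fun _ => ?_
  constructor
  · intro h1 v hv
    rw [h1 v hv, h v hv]
  · intro h1 v hv
    rw [h1 v hv, h v hv]

theorem QQ_so (D : Bal V d q j) {ω ω' : V → Fin q × Fin q} (h : so D.ev ω ω') : QQ D ω ↔ QQ D ω' := by
  unfold QQ Wcl
  rw [cl_congr D.G D.ev h, X00_so D h, nJ_so D D.J1 h, nJ_so D D.J2 h]

theorem OM_cl (D : Bal V d q j) {ω : V → Fin q × Fin q} (hω : ω ∈ OM D) : cl D.G D.ev ω ⊆ OM D := by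
  classical
  intro ω' hω'
  unfold OM at hω ⊢
  unfold cl at hω'
  rw [Finset.mem_filter] at hω hω' ⊢
  obtain ⟨_, _, h2, h3⟩ := hω
  obtain ⟨_, h5, h6⟩ := hω'
  refine ⟨Finset.mem_univ _, h5, ?_, ?_⟩
  · exact (TTo_so D.G D.ev D.par D.A (T04_fo h6)).2 h2
  · exact (TTo_so D.G D.ev D.par D.B (T04_go h6)).2 h3

end

end Pool.Agent.LC3
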