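import Pool.Agent.Lib_MP_2c424f_lc3.T04

/-!
# Part III, T05: classes of pairs with the same odd vertices

`cl_eq`: a pair `ω'` with `ω' = ω` at the odd vertices is proper iff `(ω' x).1 ∈ Rv G (fo ω) x`, `(ω' x).2 ∈ Rv G (go ω) x` for all even `x` (every
edge joins an even and an odd vertex, `Par`; `Rv` depends on the odd vertices only).
`sum_cl_avg`: `ω' ∈ cl ω ↔ ω ∈ cl ω'` for proper `ω, ω'`, and then `cl ω = cl ω'`; exchange the sums:
`∑_{ω'} h ω' ∑_{ω ∈ cl ω'} 1 / |cl ω'| = ∑_{ω'} h ω'`.   `sum_cl_le`, `card_cl_le` follow from it (`h` = 1 on `R`).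
-/

set_option autoImplicit false

open Finset Filter

namespace Pool.Agent.LC3

open Pool.Agent.LO Pool.Agent.LIN Pool.Agent.THR Pool.Agent.COR Pool.Agent.LC

section
variable {V : Type} [Fintype V] [DecidableEq V] {q : ℕ}

private theorem T05_mem (G : SimpleGraph V) (ev : V → Prop) (ω ω' : V → Fin q × Fin q) :
    ω' ∈ cl G ev ω ↔ PrP G ω' ∧ so ev ω' ω := by
  unfold cl
  simp only [Finset.mem_filter, Finset.mem_univ, true_and]

private theorem T05_Rv (G : SimpleGraph V) (F : V → Fin q) (v : V) (c : Fin q) :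
    c ∈ Rv G F v ↔ ∀ x, G.Adj v x → F x ≠ c := by
  unfold Rv
  simp only [Finset.mem_filter, Finset.mem_univ, true_and]

theorem cl_eq (G : SimpleGraph V) (ev : V → Prop) (hP : Par G ev) (ω : V → Fin q × Fin q) :
    cl G ev ω = Fintype.piFinset (Sx G ev ω) := by
  ext ω'
  rw [T05_mem, Fintype.mem_piFinset]
  constructor
  · rintro ⟨⟨h1, h2⟩, h3⟩ v
    unfold Sx
    by_cases hv : ev v
    · rw [if_pos hv, Finset.mem_product, T05_Rv, T05_Rv]
      refine ⟨fun x hx => ?_, fun x hx => ?_⟩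
      · have hxo : ¬ ev x := (hP v x hx).1 hv
        have e : fo ω x = fo ω' x := by
          unfold fo
          rw [h3 x hxo]
        rw [e]
        exact (h1 v x hx).symm
      · have hxo : ¬ ev x := (hP v x hx).1 hv
        have e : go ω x = go ω' x := by
          unfold go
          rw [h3 x hxo]
        rw [e]
        exact (h2 v x hx).symm
    · rw [if_neg hv, Finset.mem_singleton]
      exact h3 v hv
  · intro h
    have hodd : ∀ v, ¬ ev v → ω' v = ω v := by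
      intro v hv
      have h1 := h v
      unfold Sx at h1
      rw [if_neg hv, Finset.mem_singleton] at h1
      exact h1
    have heven : ∀ v, ev v → (∀ x, G.Adj v x → fo ω x ≠ fo ω' v) ∧
        ∀ x, G.Adj v x → go ω x ≠ go ω' v := by
      intro v hv
      have h1 := h v
      unfold Sx at h1
      rw [if_pos hv, Finset.mem_product, T05_Rv, T05_Rv] at h1
      exact h1
    refine ⟨⟨fun x y hxy => ?_, fun x y hxy => ?_⟩, hodd⟩
    · by_cases hx : ev x
      · have hy : ¬ ev y := (hP x y hxy).1 hx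
        have e : fo ω' y = fo ω y := by
          unfold fo
          rw [hodd y hy]
        rw [e]
        exact ((heven x hx).1 y hxy).symm
      · have hy : ev y := by
          by_contra hy
          exact hx ((hP x y hxy).2 hy)
        have e : fo ω' x = fo ω x := by
          unfold fo
          rw [hodd x hx]
        rw [e]
        exact (heven y hy).1 x hxy.symm
    · by_cases hx : ev x
      · have hy : ¬ ev y := (hP x y hxy).1 hx
        have e : go ω' y = go ω y := by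
          unfold go
          rw [hodd y hy]
        rw [e]
        exact ((heven x hx).2 y hxy).symm
      · have hy : ev y := by
          by_contra hy
          exact hx ((hP x y hxy).2 hy)
        have e : go ω' x = go ω x := by
          unfold go
          rw [hodd x hx]
        rw [e]
        exact (heven y hy).2 x hxy.symm

theorem mem_cl_self (G : SimpleGraph V) (ev : V → Prop) {ω : V → Fin q × Fin q} (h : PrP G ω) : ω ∈ cl G ev ω :=
  (T05_mem G ev ω ω).2 ⟨h, fun _ _ => rfl⟩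

private theorem T05_congr (G : SimpleGraph V) (ev : V → Prop) {ω ω' : V → Fin q × Fin q}
    (h : so ev ω' ω) : cl G ev ω' = cl G ev ω := by
  ext w
  rw [T05_mem, T05_mem]
  constructor
  · rintro ⟨h1, h2⟩
    exact ⟨h1, fun v hv => (h2 v hv).trans (h v hv)⟩
  · rintro ⟨h1, h2⟩
    exact ⟨h1, fun v hv => (h2 v hv).trans (h v hv).symm⟩

private theorem T05_pos (G : SimpleGraph V) (ev : V → Prop) {ω : V → Fin q × Fin q}
    (h : PrP G ω) : (0 : ℝ) < ((cl G ev ω).card : ℝ) := by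
  have h1 : 0 < (cl G ev ω).card := Finset.card_pos.2 ⟨ω, mem_cl_self G ev h⟩
  exact_mod_cast h1

theorem sum_cl_avg (G : SimpleGraph V) (ev : V → Prop) (Ω : Finset (V → Fin q × Fin q)) (hp : ∀ ω ∈ Ω, PrP G ω)
    (hc : ∀ ω ∈ Ω, cl G ev ω ⊆ Ω) (h : (V → Fin q × Fin q) → ℝ) :
    ∑ ω ∈ Ω, (∑ ω' ∈ cl G ev ω, h ω') / ((cl G ev ω).card : ℝ) = ∑ ω ∈ Ω, h ω := by
  have h1 : ∀ ω ∈ Ω, (∑ ω' ∈ cl G ev ω, h ω') / ((cl G ev ω).card : ℝ) =
      ∑ ω' ∈ cl G ev ω, h ω' / ((cl G ev ω').card : ℝ) := by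
    intro ω hω
    rw [Finset.sum_div]
    refine Finset.sum_congr rfl fun ω' hω' => ?_
    rw [T05_congr G ev ((T05_mem G ev ω ω').1 hω').2]
  rw [Finset.sum_congr rfl h1]
  rw [Finset.sum_comm' (t' := Ω) (s' := fun ω' => cl G ev ω')]
  · refine Finset.sum_congr rfl fun ω' hω' => ?_
    rw [Finset.sum_const, nsmul_eq_mul]
    have h2 := T05_pos G ev (hp ω' hω')
    field_simp
  · intro ω ω'
    constructor
    · rintro ⟨hω, hω'⟩
      refine ⟨?_, hc ω hω hω'⟩
      exact (T05_mem G ev ω' ω).2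
        ⟨hp ω hω, fun v hv => (((T05_mem G ev ω ω').1 hω').2 v hv).symm⟩
    · rintro ⟨hω, hω'⟩
      refine ⟨hc ω' hω' hω, ?_⟩
      exact (T05_mem G ev ω ω').2
        ⟨hp ω' hω', fun v hv => (((T05_mem G ev ω' ω).1 hω).2 v hv).symm⟩

theorem sum_cl_le (G : SimpleGraph V) (ev : V → Prop) (Ω : Finset (V → Fin q × Fin q)) (hp : ∀ ω ∈ Ω, PrP G ω)
    (hc : ∀ ω ∈ Ω, cl G ev ω ⊆ Ω) (h : (V → Fin q × Fin q) → ℝ) (K : ℝ)
    (hK : ∀ ω ∈ Ω, ∑ ω' ∈ cl G ev ω, h ω' ≤ K * ((cl G ev ω).card : ℝ)) :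
    ∑ ω ∈ Ω, h ω ≤ K * (Ω.card : ℝ) := by
  rw [← sum_cl_avg G ev Ω hp hc h]
  have h1 : ∀ ω ∈ Ω, (∑ ω' ∈ cl G ev ω, h ω') / ((cl G ev ω).card : ℝ) ≤ K := by
    intro ω hω
    rw [div_le_iff₀ (T05_pos G ev (hp ω hω))]
    exact hK ω hω
  refine (Finset.sum_le_sum h1).trans (le_of_eq ?_)
  rw [Finset.sum_const, nsmul_eq_mul, mul_comm]

open scoped Classical in
theorem card_cl_le (G : SimpleGraph V) (ev : V → Prop) (Ω : Finset (V → Fin q × Fin q)) (hp : ∀ ω ∈ Ω, PrP G ω)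
    (hc : ∀ ω ∈ Ω, cl G ev ω ⊆ Ω) (R : (V → Fin q × Fin q) → Prop) (M : ℝ)
    (hM : ∀ ω ∈ Ω, ((cl G ev ω).card : ℝ) ≤ M * (((cl G ev ω).filter R).card : ℝ)) :
    (Ω.card : ℝ) ≤ M * ((Ω.filter R).card : ℝ) := by
  have h1 : ∀ s : Finset (V → Fin q × Fin q),
      ∑ ω ∈ s, (if R ω then (1 : ℝ) else 0) = ((s.filter R).card : ℝ) := by
    intro s
    rw [Finset.sum_boole]
  rw [← h1 Ω, ← sum_cl_avg G ev Ω hp hc, Finset.mul_sum]
  have h2 : ∀ ω ∈ Ω, (1 : ℝ) ≤
      M * ((∑ ω' ∈ cl G ev ω, if R ω' then (1 : ℝ) else 0) / ((cl G ev ω).card : ℝ)) := by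
    intro ω hω
    rw [h1, mul_div_assoc', le_div_iff₀ (T05_pos G ev (hp ω hω)), one_mul]
    exact hM ω hω
  refine le_trans (le_of_eq ?_) (Finset.sum_le_sum h2)
  rw [Finset.sum_const, nsmul_eq_mul, mul_one]

end

end Pool.Agent.LC3
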