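import Pool.Agent.Lib_MP_2c424f_lc3.T03

/-!
# Part III, T06: recolouring one occurrence of `J` (port)

`port1`: the map `(ω, c) ↦ (sw1 i c ω, i)`, `i = (ω s).1 ∈ J'`, `c ∈ B` not the first colour of a vertex of `T`, into
`{ω' ∈ OM : E ω', (ω' s).1 ∈ B} × J'` is injective: `c = (sw1 i c ω s).1`, and `sw1 i c` is an involution.  `i, c ∈ A` (`J' ⊆ A`, `B ⊆ A`), so
`OM_sw1`.  For every `ω` at least `|B| - |T|` colours `c` are allowed.  (If `|B| < |T|` the left side is `≤ 0`.)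
`port2`: the same in the second colouring with `c ∉ A`; `i ∉ B`, `c ∉ B`, so `OM_sw2`.
-/

set_option autoImplicit false

open Finset Filter

namespace Pool.Agent.LC3

open Pool.Agent.LO Pool.Agent.LIN Pool.Agent.THR Pool.Agent.COR Pool.Agent.LC

private theorem T06_count {Ω κ : Type} (S S' : Finset Ω) (J' : Finset κ)
    (C : Ω → Finset κ) (col : Ω → κ) (F : κ → κ → Ω → Ω) (N : ℝ)
    (h1 : ∀ ω ∈ S, col ω ∈ J') (h2 : ∀ ω ∈ S, ∀ c ∈ C ω, F (col ω) c ω ∈ S')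
    (h3 : ∀ ω ∈ S, ∀ c ∈ C ω, col (F (col ω) c ω) = c) (h4 : ∀ a c ω, F a c (F a c ω) = ω)
    (h5 : ∀ ω ∈ S, N ≤ ((C ω).card : ℝ)) : (S.card : ℝ) * N ≤ J'.card * (S'.card : ℝ) := by
  classical
  have h6 : (S.sigma C).card ≤ (J' ×ˢ S').card := by
    refine Finset.card_le_card_of_injOn (fun p => (col p.1, F (col p.1) p.2 p.1)) ?_ ?_
    · intro p hp
      have hp' := Finset.mem_sigma.1 (Finset.mem_coe.1 hp)
      exact Finset.mem_coe.2 (Finset.mem_product.2 ⟨h1 _ hp'.1, h2 _ hp'.1 _ hp'.2⟩)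
    · rintro ⟨ω, c⟩ hp ⟨ω', c'⟩ hp' heq
      have h7 := Finset.mem_sigma.1 (Finset.mem_coe.1 hp)
      have h8 := Finset.mem_sigma.1 (Finset.mem_coe.1 hp')
      simp only [Prod.mk.injEq] at heq
      obtain ⟨e1, e2⟩ := heq
      have e3 : c = c' := by
        have a1 := h3 ω h7.1 c h7.2
        have a2 := h3 ω' h8.1 c' h8.2
        rw [← a1, ← a2, e2]
      subst e3
      have e4 : ω = ω' := by
        rw [e1] at e2
        have a3 := congrArg (F (col ω') c) e2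
        rw [h4, h4] at a3
        exact a3
      subst e4
      rfl
  rw [Finset.card_sigma, Finset.card_product] at h6
  have h9 : (S.card : ℝ) * N ≤ ((∑ ω ∈ S, (C ω).card : ℕ) : ℝ) := by
    push_cast
    rw [← nsmul_eq_mul]
    exact Finset.card_nsmul_le_sum _ _ _ h5
  refine h9.trans ?_
  exact_mod_cast h6

section
variable {V : Type} [Fintype V] [DecidableEq V] {d q j : ℕ}

private theorem T06_sw1 (a c : Fin q) (ω : V → Fin q × Fin q) : sw1 a c (sw1 a c ω) = ω := by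
  funext v
  unfold sw1
  simp

private theorem T06_sw2 (a c : Fin q) (ω : V → Fin q × Fin q) : sw2 a c (sw2 a c ω) = ω := by
  funext v
  unfold sw2
  simp

private theorem T06_card (W : Finset (Fin q)) (T : Finset V) (φ : V → Fin q) (P : Fin q → Prop) [DecidablePred P]
    (hP : ∀ c, P c ↔ ∀ t ∈ T, φ t ≠ c) :
    (W.card : ℝ) - T.card ≤ ((W.filter P).card : ℝ) := by
  classical
  have h1 : W ⊆ (W.filter P) ∪ T.image φ := by
    intro c hc
    by_cases h : P c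
    · exact Finset.mem_union_left _ (Finset.mem_filter.2 ⟨hc, h⟩)
    · rw [hP] at h
      push Not at h
      obtain ⟨t, ht, h2⟩ := h
      exact Finset.mem_union_right _ (Finset.mem_image.2 ⟨t, ht, h2⟩)
  have h2 : W.card ≤ (W.filter P).card + T.card :=
    (Finset.card_le_card h1).trans ((Finset.card_union_le _ _).trans
      (Nat.add_le_add_left Finset.card_image_le _))
  have h3 : (W.card : ℝ) ≤ ((W.filter P).card : ℝ) + T.card := by exact_mod_cast h2
  linarith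

open scoped Classical in
theorem port1 (D : Bal V d q j) (J' : Finset (Fin q)) (hJ : J' ⊆ D.A \ D.B) (E : (V → Fin q × Fin q) → Prop)
    (T : Finset V) (s : V) (hs : s ∈ T)
    (hE : ∀ ω, E ω → (ω s).1 ∈ J' → ∀ c ∈ D.B, (∀ t ∈ T, (ω t).1 ≠ c) → E (sw1 (ω s).1 c ω)) :
    (((OM D).filter fun ω => E ω ∧ (ω s).1 ∈ J').card : ℝ) * ((D.B.card : ℝ) - T.card) ≤
      J'.card * (((OM D).filter fun ω => E ω ∧ (ω s).1 ∈ D.B).card : ℝ) := by
  refine T06_count _ _ J' (fun ω => D.B.filter fun c => ∀ t ∈ T, (ω t).1 ≠ c) (fun ω => (ω s).1) sw1 _ ?_ ?_ ?_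
    T06_sw1 ?_
  · intro ω hω
    exact (Finset.mem_filter.1 hω).2.2
  · intro ω hω c hc
    obtain ⟨h1, h2, h3⟩ := Finset.mem_filter.1 hω
    obtain ⟨h4, h5⟩ := Finset.mem_filter.1 hc
    have h6 : (ω s).1 ∈ D.A := (Finset.mem_sdiff.1 (hJ h3)).1
    have h7 : c ∈ D.A := D.sub h4
    refine Finset.mem_filter.2 ⟨OM_sw1 D (iff_of_true h6 h7) h1, hE ω h2 h3 c h4 h5, ?_⟩
    unfold sw1
    simp only [Equiv.swap_apply_left]
    exact h4
  · intro ω _ c _
    simp [sw1]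
  · intro ω _
    exact T06_card D.B T (fun v => (ω v).1) _ fun c => Iff.rfl

open scoped Classical in
theorem port2 (D : Bal V d q j) (J' : Finset (Fin q)) (hJ : J' ⊆ D.A \ D.B) (E : (V → Fin q × Fin q) → Prop)
    (T : Finset V) (s : V) (hs : s ∈ T)
    (hE : ∀ ω, E ω → (ω s).2 ∈ J' → ∀ c, c ∉ D.A → (∀ t ∈ T, (ω t).2 ≠ c) → E (sw2 (ω s).2 c ω)) :
    (((OM D).filter fun ω => E ω ∧ (ω s).2 ∈ J').card : ℝ) * (((D.Aᶜ).card : ℝ) - T.card) ≤
      J'.card * (((OM D).filter fun ω => E ω ∧ (ω s).2 ∉ D.A).card : ℝ) := by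
  refine T06_count _ _ J' (fun ω => (D.Aᶜ).filter fun c => ∀ t ∈ T, (ω t).2 ≠ c) (fun ω => (ω s).2) sw2 _ ?_ ?_ ?_
    T06_sw2 ?_
  · intro ω hω
    exact (Finset.mem_filter.1 hω).2.2
  · intro ω hω c hc
    obtain ⟨h1, h2, h3⟩ := Finset.mem_filter.1 hω
    obtain ⟨h4, h5⟩ := Finset.mem_filter.1 hc
    have h4' : c ∉ D.A := Finset.mem_compl.1 h4
    have h6 : (ω s).2 ∉ D.B := (Finset.mem_sdiff.1 (hJ h3)).2
    have h7 : c ∉ D.B := fun h => h4' (D.sub h)
    refine Finset.mem_filter.2 ⟨OM_sw2 D (iff_of_false h6 h7) h1, hE ω h2 h3 c h4' h5, ?_⟩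
    unfold sw2
    simp only [Equiv.swap_apply_left]
    exact h4'
  · intro ω _ c _
    simp [sw2]
  · intro ω _
    exact T06_card (D.Aᶜ) T (fun v => (ω v).2) _ fun c => Iff.rfl

end

end Pool.Agent.LC3
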