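import Pool.Agent.Lib_MP_2c424f_lc3.T06
import Pool.Agent.Lib_MP_2c424f_lc3.T00

/-!
# Part III, T07: the two ports of a chain

`T = l.toFinset`, `|T| = |l|`.  Let `s`, `t` be the first and the last vertex of `l`.  `Ech D ω l` implies `gen D ω l ∧ s1 D (ω s) ∧ s2 D (ω t)`.
Stability: `gen D ω l` implies `gen D (sw1 i c ω) l` for `i ∈ A \ B`, `c ∈ B` not the first colour of a vertex of `l`: `X0_sw1`; in `gc` on `l` the
common colour is not in `A \ B`, so it is not `i`; it is the first colour of a vertex of `l`, so it is not `c`: fixed by the exchange.  The same for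
`sw2 i c`, `c ∉ A`.  `s1 D (ω s)` is stable under `sw1 i c`, `sw2 i c` with `i ∈ J2` (`J1`, `J2` disjoint, `c ∉ J1`; the colour in `J1` is
not `i` and not `c`).  Now `port1`, `port2`, first at `t` with `J' = J2`, `E ω = gen D ω l ∧ s1 D (ω s)`, then at `s` with `J' = J1`, `E ω = gen D ω l`
(`s2` is a disjunction: two cases; the same for `s1`; `|Aᶜ| = |B|`).
-/

set_option autoImplicit false

open Finset Filter

namespace Pool.Agent.LC3

open Pool.Agent.LO Pool.Agent.LIN Pool.Agent.THR Pool.Agent.COR Pool.Agent.LC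

section
variable {V : Type} [Fintype V] [DecidableEq V] {d q j : ℕ}

private theorem T07_gen1 (D : Bal V d q j) {l : List V} {ω : V → Fin q × Fin q} {i c : Fin q} (hi : i ∈ D.A \ D.B)
    (hc : c ∈ D.B) (hl : ∀ t ∈ l, (ω t).1 ≠ c) (h : gen D ω l) : gen D (sw1 i c ω) l := by
  obtain ⟨h1, h2⟩ := h
  have hiA : i ∈ D.A := (mem_sdiff.1 hi).1
  have hcA : c ∈ D.A := D.sub hc
  refine ⟨fun s hs => ?_, h2.imp_of_mem_imp ?_⟩
  · rw [X0_sw1 D (iff_of_true hiA hcA)]
    exact h1 s hs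
  · intro a b ha hb hab
    obtain ⟨h3, h4⟩ := hab
    refine ⟨h3, ?_⟩
    rcases h4 with ⟨h5, h6⟩ | ⟨h5, h6⟩
    · left
      have h7 : Equiv.swap i c (ω a).1 = (ω a).1 :=
        Equiv.swap_apply_of_ne_of_ne (fun h => h6 (by rw [h]; exact hi)) (hl a ha)
      change Equiv.swap i c (ω a).1 = (ω b).2 ∧ Equiv.swap i c (ω a).1 ∉ D.A \ D.B
      rw [h7]
      exact ⟨h5, h6⟩
    · right
      have h7 : Equiv.swap i c (ω b).1 = (ω b).1 :=
        Equiv.swap_apply_of_ne_of_ne (fun h => h6 (by rw [h5, h]; exact hi)) (hl b hb)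
      change (ω a).2 = Equiv.swap i c (ω b).1 ∧ (ω a).2 ∉ D.A \ D.B
      rw [h7]
      exact ⟨h5, h6⟩

private theorem T07_gen2 (D : Bal V d q j) {l : List V} {ω : V → Fin q × Fin q} {i c : Fin q} (hi : i ∈ D.A \ D.B)
    (hc : c ∉ D.A) (hl : ∀ t ∈ l, (ω t).2 ≠ c) (h : gen D ω l) : gen D (sw2 i c ω) l := by
  obtain ⟨h1, h2⟩ := h
  have hiB : i ∉ D.B := (mem_sdiff.1 hi).2
  have hcB : c ∉ D.B := fun h => hc (D.sub h)
  refine ⟨fun s hs => ?_, h2.imp_of_mem_imp ?_⟩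
  · rw [X0_sw2 D (iff_of_false hiB hcB)]
    exact h1 s hs
  · intro a b ha hb hab
    obtain ⟨h3, h4⟩ := hab
    refine ⟨h3, ?_⟩
    rcases h4 with ⟨h5, h6⟩ | ⟨h5, h6⟩
    · left
      have h7 : Equiv.swap i c (ω b).2 = (ω b).2 :=
        Equiv.swap_apply_of_ne_of_ne (fun h => h6 (by rw [h5, h]; exact hi)) (hl b hb)
      change (ω a).1 = Equiv.swap i c (ω b).2 ∧ (ω a).1 ∉ D.A \ D.B
      rw [h7]
      exact ⟨h5, h6⟩
    · right
      have h7 : Equiv.swap i c (ω a).2 = (ω a).2 :=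
        Equiv.swap_apply_of_ne_of_ne (fun h => h6 (by rw [h]; exact hi)) (hl a ha)
      change Equiv.swap i c (ω a).2 = (ω b).1 ∧ Equiv.swap i c (ω a).2 ∉ D.A \ D.B
      rw [h7]
      exact ⟨h5, h6⟩

private theorem T07_J (D : Bal V d q j) : D.J1 ⊆ D.A \ D.B ∧ D.J2 ⊆ D.A \ D.B := by
  rw [D.un]
  exact ⟨subset_union_left, subset_union_right⟩

private theorem T07_s1 (D : Bal V d q j) {s : V} {ω : V → Fin q × Fin q} {i c : Fin q} (hi : i ∈ D.J2)
    (h : s1 D (ω s)) : (c ∈ D.B → s1 D (sw1 i c ω s)) ∧ (c ∉ D.A → s1 D (sw2 i c ω s)) := by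
  have hJ := (T07_J D).1
  have hd : ∀ x, x ∈ D.J1 → x ≠ i := by
    intro x hx h1
    exact (Finset.disjoint_left.1 D.dis hx) (by rw [h1]; exact hi)
  constructor
  · intro hc
    rcases h with h1 | h1
    · left
      have h7 : Equiv.swap i c (ω s).1 = (ω s).1 :=
        Equiv.swap_apply_of_ne_of_ne (hd _ h1) (fun h => (mem_sdiff.1 (hJ h1)).2 (by rw [h]; exact hc))
      change Equiv.swap i c (ω s).1 ∈ D.J1
      rw [h7]
      exact h1
    · right
      exact h1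
  · intro hc
    rcases h with h1 | h1
    · left
      exact h1
    · right
      have h7 : Equiv.swap i c (ω s).2 = (ω s).2 :=
        Equiv.swap_apply_of_ne_of_ne (hd _ h1) (fun h => hc (by rw [← h]; exact (mem_sdiff.1 (hJ h1)).1))
      change Equiv.swap i c (ω s).2 ∈ D.J1
      rw [h7]
      exact h1

/-- generic, and a colour of `J1` at `s` -/
private def T07_E (D : Bal V d q j) (l : List V) (s : V) (ω : V → Fin q × Fin q) : Prop := gen D ω l ∧ s1 D (ω s)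

open scoped Classical in
/-- both colourings at one port -/
private theorem T07_port (D : Bal V d q j) (J' : Finset (Fin q)) (hJ : J' ⊆ D.A \ D.B) (hj : J'.card = j)
    (E : (V → Fin q × Fin q) → Prop) (l : List V) (hl : l.Nodup) (hB : l.length ≤ D.B.card) (s : V) (hs : s ∈ l)
    (hE1 : ∀ ω, E ω → (ω s).1 ∈ J' → ∀ c ∈ D.B, (∀ t ∈ l, (ω t).1 ≠ c) → E (sw1 (ω s).1 c ω))
    (hE2 : ∀ ω, E ω → (ω s).2 ∈ J' → ∀ c, c ∉ D.A → (∀ t ∈ l, (ω t).2 ≠ c) → E (sw2 (ω s).2 c ω)) :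
    (((OM D).filter fun ω => E ω ∧ ((ω s).1 ∈ J' ∨ (ω s).2 ∈ J')).card : ℝ) * ((D.B.card : ℝ) - l.length) ≤
      2 * (j : ℝ) * (((OM D).filter fun ω => E ω).card : ℝ) := by
  have hT : l.toFinset.card = l.length := List.toFinset_card_of_nodup hl
  have hm : ∀ t, t ∈ l.toFinset ↔ t ∈ l := fun t => List.mem_toFinset
  have h1 := port1 D J' hJ E l.toFinset s ((hm s).2 hs)
    (fun ω h2 h3 c hc h4 => hE1 ω h2 h3 c hc fun t ht => h4 t ((hm t).2 ht))
  have h2 := port2 D J' hJ E l.toFinset s ((hm s).2 hs)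
    (fun ω h2 h3 c hc h4 => hE2 ω h2 h3 c hc fun t ht => h4 t ((hm t).2 ht))
  rw [hT, hj] at h1 h2
  rw [card_Ac] at h2
  have hx : (0 : ℝ) ≤ (D.B.card : ℝ) - l.length := by
    have : (l.length : ℝ) ≤ D.B.card := by exact_mod_cast hB
    linarith
  have hj0 : (0 : ℝ) ≤ j := Nat.cast_nonneg j
  have h3 : (((OM D).filter fun ω => E ω ∧ (ω s).1 ∈ D.B).card : ℝ) ≤ (((OM D).filter fun ω => E ω).card : ℝ) := by
    refine Nat.cast_le.2 (Finset.card_le_card ?_)
    intro ω hω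
    simp only [Finset.mem_filter] at hω ⊢
    exact ⟨hω.1, hω.2.1⟩
  have h4 : (((OM D).filter fun ω => E ω ∧ (ω s).2 ∉ D.A).card : ℝ) ≤ (((OM D).filter fun ω => E ω).card : ℝ) := by
    refine Nat.cast_le.2 (Finset.card_le_card ?_)
    intro ω hω
    simp only [Finset.mem_filter] at hω ⊢
    exact ⟨hω.1, hω.2.1⟩
  have h5 : (((OM D).filter fun ω => E ω ∧ ((ω s).1 ∈ J' ∨ (ω s).2 ∈ J')).card : ℝ) ≤
      (((OM D).filter fun ω => E ω ∧ (ω s).1 ∈ J').card : ℝ) + (((OM D).filter fun ω => E ω ∧ (ω s).2 ∈ J').card : ℝ) := by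
    have h6 : ((OM D).filter fun ω => E ω ∧ ((ω s).1 ∈ J' ∨ (ω s).2 ∈ J')) ⊆
        ((OM D).filter fun ω => E ω ∧ (ω s).1 ∈ J') ∪ ((OM D).filter fun ω => E ω ∧ (ω s).2 ∈ J') := by
      intro ω hω
      simp only [Finset.mem_filter, Finset.mem_union] at hω ⊢
      tauto
    have h7 := (Finset.card_le_card h6).trans (Finset.card_union_le _ _)
    exact_mod_cast h7
  have h6 := mul_le_mul_of_nonneg_right h5 hx
  have h7 := mul_le_mul_of_nonneg_left h3 hj0
  have h8 := mul_le_mul_of_nonneg_left h4 hj0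
  rw [add_mul] at h6
  linarith

open scoped Classical in
theorem chain_count (D : Bal V d q j) (l : List V) (hl : l.Nodup) (hl2 : 2 ≤ l.length) (hB : l.length ≤ D.B.card) :
    (((OM D).filter fun ω => Ech D ω l).card : ℝ) * ((D.B.card : ℝ) - l.length) ^ 2 ≤
      4 * (j : ℝ) ^ 2 * (((OM D).filter fun ω => gen D ω l).card : ℝ) := by
  have hne : l ≠ [] := by
    rintro rfl
    simp at hl2
  have hx : (0 : ℝ) ≤ (D.B.card : ℝ) - l.length := by
    have : (l.length : ℝ) ≤ D.B.card := by exact_mod_cast hB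
    linarith
  have hj0 : (0 : ℝ) ≤ j := Nat.cast_nonneg j
  obtain ⟨hJ1, hJ2⟩ := T07_J D
  have h1 := T07_port D D.J2 hJ2 D.c2 (fun ω => T07_E D l (l.head hne) ω) l hl hB (l.getLast hne)
    (List.getLast_mem hne)
    (fun ω h2 h3 c hc h4 => ⟨T07_gen1 D (hJ2 h3) hc h4 h2.1, (T07_s1 D h3 h2.2).1 hc⟩)
    (fun ω h2 h3 c hc h4 => ⟨T07_gen2 D (hJ2 h3) hc h4 h2.1, (T07_s1 D h3 h2.2).2 hc⟩)
  have h2 := T07_port D D.J1 hJ1 D.c1 (fun ω => gen D ω l) l hl hB (l.head hne) (List.head_mem hne)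
    (fun ω h2 h3 c hc h4 => T07_gen1 D (hJ1 h3) hc h4 h2)
    (fun ω h2 h3 c hc h4 => T07_gen2 D (hJ1 h3) hc h4 h2)
  have h3 : (((OM D).filter fun ω => Ech D ω l).card : ℝ) ≤
      (((OM D).filter fun ω => T07_E D l (l.head hne) ω ∧
        ((ω (l.getLast hne)).1 ∈ D.J2 ∨ (ω (l.getLast hne)).2 ∈ D.J2)).card : ℝ) := by
    refine Nat.cast_le.2 (Finset.card_le_card ?_)
    intro ω hω
    simp only [Finset.mem_filter] at hω ⊢
    obtain ⟨h4, h5, h6, ⟨s, hs, h7⟩, ⟨t, ht, h8⟩⟩ := hω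
    refine ⟨h4, ⟨⟨fun u hu h9 => h5 u hu ?_, h6⟩, ?_⟩, ?_⟩
    · exact Finset.mem_union_left _ h9
    · have h10 : s = l.head hne := by
        rw [List.head?_eq_some_head hne, Option.mem_def, Option.some_inj] at hs
        exact hs.symm
      rw [← h10]
      exact h7
    · have h10 : t = l.getLast hne := by
        rw [List.getLast?_eq_some_getLast hne, Option.mem_def, Option.some_inj] at ht
        exact ht.symm
      rw [← h10]
      exact h8
  have h4 : (((OM D).filter fun ω => T07_E D l (l.head hne) ω).card : ℝ) ≤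
      (((OM D).filter fun ω => gen D ω l ∧ ((ω (l.head hne)).1 ∈ D.J1 ∨ (ω (l.head hne)).2 ∈ D.J1)).card : ℝ) := by
    refine Nat.cast_le.2 (Finset.card_le_card ?_)
    intro ω hω
    simp only [Finset.mem_filter] at hω ⊢
    exact ⟨hω.1, hω.2.1, hω.2.2⟩
  have h5 := mul_le_mul_of_nonneg_right h3 hx
  have h6 := mul_le_mul_of_nonneg_right h4 hx
  have h7 := mul_le_mul_of_nonneg_right (h5.trans h1) hx
  have h8 := mul_le_mul_of_nonneg_left (h6.trans h2) (by positivity : (0 : ℝ) ≤ 2 * j)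
  calc _ = (((OM D).filter fun ω => Ech D ω l).card : ℝ) * ((D.B.card : ℝ) - l.length) * ((D.B.card : ℝ) - l.length) := by
        ring
    _ ≤ _ := h7
    _ = 2 * j * ((((OM D).filter fun ω => T07_E D l (l.head hne) ω).card : ℝ) * ((D.B.card : ℝ) - l.length)) := by
        ring
    _ ≤ _ := h8
    _ = _ := by ring

end

end Pool.Agent.LC3
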