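import Pool.Agent.Lib_MP_2c424f_lc3.T06
import Pool.Agent.Lib_MP_2c424f_lc3.T00

/-!
# Part III, T08: ports at one vertex

`T = {x}` in `port1`, `port2`.  `s1 a ∧ s2 a` means `a.1 ∈ J1, a.2 ∈ J2` or `a.1 ∈ J2, a.2 ∈ J1` (`J1`, `J2` disjoint).
`even_count`: `#(.1 ∈ J1, .2 ∈ J2, x ∉ X0) (|B| - 1) ≤ j #(.2 ∈ J2, x ∉ X0)` (`port1`), `#(.2 ∈ J2, x ∉ X0) (|B| - 1) ≤ j #(.2 ∉ A, x ∉ X0)` (`port2`), and
`.2 ∉ A` implies `.2 ∉ B`; the other case is the same with `J1`, `J2` exchanged (`X0_sw1`, `X0_sw2`).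
`odd_count`: first `port2`, then `port1`, `B ⊆ A`.   `J_count`: `port1`.
-/

set_option autoImplicit false

open Finset Filter

namespace Pool.Agent.LC3

open Pool.Agent.LO Pool.Agent.LIN Pool.Agent.THR Pool.Agent.COR Pool.Agent.LC

section
variable {V : Type} [Fintype V] [DecidableEq V] {d q j : ℕ}

omit [DecidableEq V] in
private theorem t08_J (D : Bal V d q j) : D.J1 ⊆ D.A \ D.B ∧ D.J2 ⊆ D.A \ D.B := by
  rw [D.un]
  exact ⟨subset_union_left, subset_union_right⟩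

private theorem t08_B (D : Bal V d q j) : (0 : ℝ) ≤ (D.B.card : ℝ) - 1 := by
  have h1 := (card_B D).2
  have h2 : (50 : ℝ) * j ≤ q := by exact_mod_cast D.jq
  have h3 : (1 : ℝ) ≤ j := by exact_mod_cast D.j1
  linarith

open scoped Classical in
/-- the number of pairs in `OM` with a property -/
private noncomputable def nf (D : Bal V d q j) (P : (V → Fin q × Fin q) → Prop) : ℝ :=
  (((OM D).filter P).card : ℝ)

private theorem nf_def (D : Bal V d q j) (P : (V → Fin q × Fin q) → Prop) (h : DecidablePred P) :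
    ((@Finset.filter _ P h (OM D)).card : ℝ) = nf D P := by
  unfold nf
  congr!

private theorem nf_mono (D : Bal V d q j) {P P' : (V → Fin q × Fin q) → Prop}
    (h : ∀ ω, P ω → P' ω) : nf D P ≤ nf D P' := by
  classical
  have h1 : (OM D).filter P ⊆ (OM D).filter P' := by
    intro ω hω
    rw [mem_filter] at hω ⊢
    exact ⟨hω.1, h ω hω.2⟩
  have h2 : (((OM D).filter P).card : ℝ) ≤ (((OM D).filter P').card : ℝ) := by
    exact_mod_cast card_le_card h1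
  rwa [nf_def, nf_def] at h2

private theorem nf_port1 (D : Bal V d q j) (J' : Finset (Fin q)) (hJ : J' ⊆ D.A \ D.B)
    (E : (V → Fin q × Fin q) → Prop) (s : V)
    (hE : ∀ ω, E ω → (ω s).1 ∈ J' → ∀ c ∈ D.B, E (sw1 (ω s).1 c ω)) :
    nf D (fun ω => E ω ∧ (ω s).1 ∈ J') * ((D.B.card : ℝ) - 1) ≤ J'.card * nf D E := by
  have p1 := port1 D J' hJ E {s} s (mem_singleton_self s) (fun ω h1 h2 c hc _ => hE ω h1 h2 c hc)
  rw [card_singleton, Nat.cast_one, nf_def, nf_def] at p1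
  exact p1.trans (mul_le_mul_of_nonneg_left (nf_mono D fun ω h => h.1) (Nat.cast_nonneg _))

private theorem nf_port1' (D : Bal V d q j) (J' : Finset (Fin q)) (hJ : J' ⊆ D.A \ D.B) (s : V) :
    nf D (fun ω => (ω s).1 ∈ J') * ((D.B.card : ℝ) - 1) ≤
      J'.card * nf D (fun ω => (ω s).1 ∈ D.A) := by
  have p1 := port1 D J' hJ (fun _ => True) {s} s (mem_singleton_self s)
    (fun ω h1 h2 c hc _ => trivial)
  rw [card_singleton, Nat.cast_one, nf_def, nf_def] at p1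
  exact (mul_le_mul_of_nonneg_right (nf_mono D fun ω h => ⟨trivial, h⟩) (t08_B D)).trans
    (p1.trans (mul_le_mul_of_nonneg_left (nf_mono D fun ω h => D.sub h.2) (Nat.cast_nonneg _)))

private theorem nf_port2 (D : Bal V d q j) (J' : Finset (Fin q)) (hJ : J' ⊆ D.A \ D.B)
    (E : (V → Fin q × Fin q) → Prop) (s : V)
    (hE : ∀ ω, E ω → (ω s).2 ∈ J' → ∀ c, c ∉ D.A → E (sw2 (ω s).2 c ω)) :
    nf D (fun ω => E ω ∧ (ω s).2 ∈ J') * ((D.B.card : ℝ) - 1) ≤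
      J'.card * nf D (fun ω => E ω ∧ (ω s).2 ∉ D.A) := by
  have p1 := port2 D J' hJ E {s} s (mem_singleton_self s) (fun ω h1 h2 c hc _ => hE ω h1 h2 c hc)
  rw [card_singleton, Nat.cast_one, nf_def, nf_def, card_Ac D] at p1
  exact p1

/-- the two cases -/
private theorem t08_split (D : Bal V d q j) (P : (V → Fin q × Fin q) → Prop) (x : V) :
    nf D (fun ω => P ω ∧ s1 D (ω x) ∧ s2 D (ω x)) ≤
      nf D (fun ω => (P ω ∧ (ω x).2 ∈ D.J2) ∧ (ω x).1 ∈ D.J1) +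
      nf D (fun ω => (P ω ∧ (ω x).2 ∈ D.J1) ∧ (ω x).1 ∈ D.J2) := by
  classical
  have hdis : ∀ c, c ∈ D.J1 → c ∈ D.J2 → False := fun c h1 h2 =>
    (Finset.disjoint_left.1 D.dis h1) h2
  have h1 : ((OM D).filter fun ω => P ω ∧ s1 D (ω x) ∧ s2 D (ω x)) ⊆
      ((OM D).filter fun ω => (P ω ∧ (ω x).2 ∈ D.J2) ∧ (ω x).1 ∈ D.J1) ∪
      ((OM D).filter fun ω => (P ω ∧ (ω x).2 ∈ D.J1) ∧ (ω x).1 ∈ D.J2) := by
    intro ω hω
    rw [mem_union, mem_filter, mem_filter]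
    rw [mem_filter] at hω
    obtain ⟨h1, h2, h3, h4⟩ := hω
    rcases h3 with h3 | h3 <;> rcases h4 with h4 | h4
    · exact (hdis _ h3 h4).elim
    · exact Or.inl ⟨h1, ⟨h2, h4⟩, h3⟩
    · exact Or.inr ⟨h1, ⟨h2, h3⟩, h4⟩
    · exact (hdis _ h3 h4).elim
  have h2 : ((((OM D).filter fun ω => P ω ∧ s1 D (ω x) ∧ s2 D (ω x)).card : ℕ) : ℝ) ≤
      (((OM D).filter fun ω => (P ω ∧ (ω x).2 ∈ D.J2) ∧ (ω x).1 ∈ D.J1).card : ℝ) +
      (((OM D).filter fun ω => (P ω ∧ (ω x).2 ∈ D.J1) ∧ (ω x).1 ∈ D.J2).card : ℝ) := by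
    exact_mod_cast (card_le_card h1).trans (card_union_le _ _)
  rwa [nf_def, nf_def, nf_def] at h2

private theorem t08_chain {N1 N2 N3 b j : ℝ} (hb : 0 ≤ b) (hj : 0 ≤ j) (h1 : N1 * b ≤ j * N2)
    (h2 : N2 * b ≤ j * N3) : N1 * b ^ 2 ≤ j ^ 2 * N3 :=
  calc N1 * b ^ 2 = (N1 * b) * b := by ring
    _ ≤ (j * N2) * b := mul_le_mul_of_nonneg_right h1 hb
    _ = j * (N2 * b) := by ring
    _ ≤ j * (j * N3) := mul_le_mul_of_nonneg_left h2 hj
    _ = j ^ 2 * N3 := by ring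

private theorem t08_even (D : Bal V d q j) (x : V) (J' J'' : Finset (Fin q)) (h1 : J' ⊆ D.A \ D.B)
    (h2 : J'' ⊆ D.A \ D.B) (c1 : J'.card = j) (c2 : J''.card = j) :
    nf D (fun ω => (x ∉ X0 D ω ∧ (ω x).2 ∈ J'') ∧ (ω x).1 ∈ J') * ((D.B.card : ℝ) - 1) ^ 2 ≤
      (j : ℝ) ^ 2 * nf D (fun ω => x ∉ X0 D ω ∧ (ω x).2 ∉ D.B) := by
  have hj : (0 : ℝ) ≤ j := Nat.cast_nonneg j
  have p1 := nf_port1 D J' h1 (fun ω => x ∉ X0 D ω ∧ (ω x).2 ∈ J'') x (by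
    intro ω hE hs c hc
    have h3 := Finset.mem_sdiff.1 (h1 hs)
    refine ⟨?_, hE.2⟩
    rw [X0_sw1 D (iff_of_true h3.1 (D.sub hc))]
    exact hE.1)
  have p2 := nf_port2 D J'' h2 (fun ω => x ∉ X0 D ω) x (by
    intro ω hE hs c hc
    have h3 := Finset.mem_sdiff.1 (h2 hs)
    rw [X0_sw2 D (iff_of_false h3.2 (fun h => hc (D.sub h)))]
    exact hE)
  rw [c1] at p1
  rw [c2] at p2
  exact t08_chain (t08_B D) hj p1 (p2.trans (mul_le_mul_of_nonneg_left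
    (nf_mono D fun ω h => ⟨h.1, fun h' => h.2 (D.sub h')⟩) hj))

private theorem t08_odd (D : Bal V d q j) (y : V) (J' J'' : Finset (Fin q)) (h1 : J' ⊆ D.A \ D.B)
    (h2 : J'' ⊆ D.A \ D.B) (c1 : J'.card = j) (c2 : J''.card = j) :
    nf D (fun ω => (True ∧ (ω y).2 ∈ J'') ∧ (ω y).1 ∈ J') * ((D.B.card : ℝ) - 1) ^ 2 ≤
      (j : ℝ) ^ 2 * nf D (fun ω => (ω y).1 ∈ D.A) := by
  have hj : (0 : ℝ) ≤ j := Nat.cast_nonneg j
  have p1 := nf_port1' D J' h1 y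
  rw [c1] at p1
  have p2 := nf_port2 D J'' h2 (fun ω => (ω y).1 ∈ J') y (fun ω hE hs c hc => hE)
  rw [c2] at p2
  refine t08_chain (t08_B D) hj ?_ p1
  exact (mul_le_mul_of_nonneg_right (nf_mono D fun ω h => ⟨h.2, h.1.2⟩) (t08_B D)).trans
    (p2.trans (mul_le_mul_of_nonneg_left (nf_mono D fun ω h => h.1) hj))

open scoped Classical in
theorem even_count (D : Bal V d q j) (x : V) :
    (((OM D).filter fun ω => x ∉ X0 D ω ∧ s1 D (ω x) ∧ s2 D (ω x)).card : ℝ) * ((D.B.card : ℝ) - 1) ^ 2 ≤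
      2 * (j : ℝ) ^ 2 * (((OM D).filter fun ω => x ∉ X0 D ω ∧ (ω x).2 ∉ D.B).card : ℝ) := by
  rw [nf_def, nf_def]
  have h0 := t08_split D (fun ω => x ∉ X0 D ω) x
  have h1 := t08_even D x D.J1 D.J2 (t08_J D).1 (t08_J D).2 D.c1 D.c2
  have h2 := t08_even D x D.J2 D.J1 (t08_J D).2 (t08_J D).1 D.c2 D.c1
  have h3 := mul_le_mul_of_nonneg_right h0 (sq_nonneg ((D.B.card : ℝ) - 1))
  linarith

open scoped Classical in
theorem odd_count (D : Bal V d q j) (y : V) :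
    (((OM D).filter fun ω => s1 D (ω y) ∧ s2 D (ω y)).card : ℝ) * ((D.B.card : ℝ) - 1) ^ 2 ≤
      2 * (j : ℝ) ^ 2 * (((OM D).filter fun ω => (ω y).1 ∈ D.A).card : ℝ) := by
  rw [nf_def, nf_def]
  have h0 := t08_split D (fun _ => True) y
  have m0 := nf_mono D (P := fun ω => s1 D (ω y) ∧ s2 D (ω y))
    (P' := fun ω => True ∧ s1 D (ω y) ∧ s2 D (ω y)) (fun ω h => ⟨trivial, h⟩)
  have h1 := t08_odd D y D.J1 D.J2 (t08_J D).1 (t08_J D).2 D.c1 D.c2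
  have h2 := t08_odd D y D.J2 D.J1 (t08_J D).2 (t08_J D).1 D.c2 D.c1
  have h3 := mul_le_mul_of_nonneg_right (m0.trans h0) (sq_nonneg ((D.B.card : ℝ) - 1))
  linarith

open scoped Classical in
theorem J_count (D : Bal V d q j) (J' : Finset (Fin q)) (hJ : J' ⊆ D.A \ D.B) (y : V) :
    (((OM D).filter fun ω => (ω y).1 ∈ J').card : ℝ) * ((D.B.card : ℝ) - 1) ≤
      J'.card * (((OM D).filter fun ω => (ω y).1 ∈ D.A).card : ℝ) := by
  rw [nf_def, nf_def]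
  exact nf_port1' D J' hJ y

end

end Pool.Agent.LC3
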