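import Pool.Agent.Lib_MP_2c424f_lc3.T00
import Pool.Agent.Lib_MP_2c424f_lc5.V10c

/-!
# Part III, T09: (A2)

`x` even, `(u, v)` uniform in `Rv G f x × Rv G g x`, `H(u, v) = #{y ~ x : (u = g y, u ∉ J) or (v = f y, v ∉ J)}`, `J = A \ B`.
`H ≤ 1[u ∉ J] nv G g x u + 1[v ∉ J] nv G f x v`, so `H^2 ≤ 2 (…)^2 + 2 (…)^2`.  Sum over `(u, v)`:
`2 |Rv g| ∑_{u ∈ Rv f, u ∉ J} (nv g u)^2 + 2 |Rv f| ∑_{v ∈ Rv g, v ∉ J} (nv f v)^2`, and `1 ≤ 3 |Rv f| / q` etc. (E1).
First sum: `u ∈ B`: (E4) for `(g, B)`: `≤ e^{-a/2} q`;  `u ∉ A`, `u ∈ Rv f`: at most `e^{-a} q` colours ((E2) for `(f, A)`, type B), Cauchy-Schwarz and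
(E3) for `g`: `≤ (e^{-a} q)^{1/2} (1000 a^4 q)^{1/2} ≤ 32 a^2 e^{-a/2} q`.   Second sum: `v ∈ B ⊆ A`: (E4) for `(f, A)`;  `v ∉ A`, so `v ∉ B`, `v ∈ Rv g`: at most `e^{-a} q`
((E2) for `(g, B)`), (E3) for `f`.   Total: `(6/q) (2 e^{-a/2} q + 64 a^2 e^{-a/2} q) |Rv f| |Rv g| = (12 + 384 a^2) e^{-a/2} … ≤ 400 a^2 e^{-a/2} …`, `= 2 rh`.
-/

set_option autoImplicit false

open Finset Filter

namespace Pool.Agent.LC3

open Pool.Agent.LO Pool.Agent.LIN Pool.Agent.THR Pool.Agent.COR Pool.Agent.LC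

section
variable {V : Type} [Fintype V] [DecidableEq V] {d q : ℕ}

private theorem t09_sq_le {u v : ℝ} (h : u ^ 2 ≤ v ^ 2) (hv : 0 ≤ v) : u ≤ v :=
  (le_abs_self u).trans (abs_le_of_sq_le_sq h hv)

private theorem t09_exp (a : ℝ) : Real.exp (-a / 2) ^ 2 = Real.exp (-a) := by
  rw [← Real.exp_nat_mul]
  congr 1
  push_cast
  ring

omit [DecidableEq V] in
private theorem t09_small (ha : 0 < ra d q) (G : SimpleGraph V) (ev : V → Prop)
    (A₁ : Finset (Fin q)) (F₁ : V → Fin q) (x : V) (h1 : TyE d G ev A₁ F₁ x)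
    (S : Finset (Fin q)) (hS : (S.card : ℝ) ≤ Real.exp (-ra d q) * q) :
    ∑ c ∈ S, (nv G F₁ x c : ℝ) ^ 2 ≤ 32 * ra d q ^ 2 * Real.exp (-ra d q / 2) * q := by
  have hq : (0 : ℝ) ≤ q := Nat.cast_nonneg q
  have h3 := h1.e3
  have he := t09_exp (ra d q)
  set a : ℝ := ra d q with hadef
  set E : ℝ := Real.exp (-a / 2) with hE
  have hE0 : 0 < E := Real.exp_pos _
  refine t09_sq_le ?_ (by positivity)
  have h8 := sq_sum_le_card_mul_sum_sq (s := S) (f := fun c => (nv G F₁ x c : ℝ) ^ 2)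
  refine h8.trans ?_
  have h5 : ∑ c ∈ S, ((nv G F₁ x c : ℝ) ^ 2) ^ 2 ≤ 1000 * a ^ 4 * q := by
    refine le_trans ?_ h3
    refine (Finset.sum_le_sum_of_subset_of_nonneg (Finset.subset_univ S)
      fun c _ _ => by positivity).trans (le_of_eq ?_)
    exact Finset.sum_congr rfl fun c _ => by ring
  have h9 : (S.card : ℝ) * ∑ c ∈ S, ((nv G F₁ x c : ℝ) ^ 2) ^ 2 ≤
      (Real.exp (-a) * q) * (1000 * a ^ 4 * q) :=
    mul_le_mul hS h5 (Finset.sum_nonneg fun c _ => by positivity) (by positivity)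
  refine h9.trans ?_
  rw [← he]
  have h10 : (0 : ℝ) ≤ E ^ 2 * a ^ 4 * q ^ 2 := by positivity
  nlinarith

open scoped Classical in
omit [DecidableEq V] in
private theorem t09_part (ha : 0 < ra d q) (G : SimpleGraph V) (ev : V → Prop)
    (J A₁ A₂ : Finset (Fin q)) (hJ : ∀ c, c ∉ J → c ∈ A₁ ∨ c ∉ A₂) (F₁ F₂ : V → Fin q) (x : V)
    (hx : ev x) (h1 : TyE d G ev A₁ F₁ x) (h2 : TyE d G ev A₂ F₂ x) :
    ∑ c ∈ Rv G F₂ x, (if c ∉ J then (nv G F₁ x c : ℝ) ^ 2 else 0) ≤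
      (1 + 32 * ra d q ^ 2) * Real.exp (-ra d q / 2) * q := by
  set S : Finset (Fin q) := (Rv G F₂ x).filter fun c => ¬ tS ev A₂ x c with hSdef
  have hS : (S.card : ℝ) ≤ Real.exp (-ra d q) * q := h2.e2
  have hn := t09_small ha G ev A₁ F₁ x h1 S hS
  have h4 := h1.e4
  set S₁ : Finset (Fin q) := univ.filter fun c => tS ev A₁ x c with hS1
  have hle : ∑ c ∈ Rv G F₂ x, (if c ∉ J then (nv G F₁ x c : ℝ) ^ 2 else 0) ≤
      ∑ c ∈ S₁, (nv G F₁ x c : ℝ) ^ 2 + ∑ c ∈ S, (nv G F₁ x c : ℝ) ^ 2 := by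
    rw [← Finset.sum_filter]
    have hsub : ((Rv G F₂ x).filter fun c => c ∉ J) ⊆ S₁ ∪ S := by
      intro c hc
      rw [Finset.mem_filter] at hc
      rw [Finset.mem_union]
      by_cases h5 : c ∈ A₁
      · left
        rw [hS1, Finset.mem_filter]
        exact ⟨Finset.mem_univ _, ⟨fun _ => h5, fun _ => hx⟩⟩
      · right
        rw [hSdef, Finset.mem_filter]
        refine ⟨hc.1, fun h6 => ?_⟩
        rcases hJ c hc.2 with h7 | h7
        · exact h5 h7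
        · exact h7 (h6.1 hx)
    refine (Finset.sum_le_sum_of_subset_of_nonneg hsub fun c _ _ => by positivity).trans ?_
    rw [← Finset.sum_union_inter]
    have : 0 ≤ ∑ c ∈ S₁ ∩ S, (nv G F₁ x c : ℝ) ^ 2 :=
      Finset.sum_nonneg fun c _ => by positivity
    linarith
  refine hle.trans ((add_le_add h4 hn).trans (le_of_eq ?_))
  ring

open scoped Classical in
omit [DecidableEq V] in
private theorem t09_H (G : SimpleGraph V) (J : Finset (Fin q)) (f g : V → Fin q) (x : V)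
    (u v : Fin q) :
    (((nb G x).filter fun y => cj J f g y u v).card : ℝ) ≤
      (if u ∉ J then (nv G g x u : ℝ) else 0) + (if v ∉ J then (nv G f x v : ℝ) else 0) := by
  have h1 : ((nb G x).filter fun y => cj J f g y u v) ⊆
      (if u ∉ J then (univ.filter fun y => G.Adj x y ∧ g y = u) else ∅) ∪
      (if v ∉ J then (univ.filter fun y => G.Adj x y ∧ f y = v) else ∅) := by
    intro y hy
    rw [Finset.mem_filter] at hy
    obtain ⟨h2, h3⟩ := hy
    unfold nb at h2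
    rw [Finset.mem_filter] at h2
    rw [Finset.mem_union]
    unfold cj at h3
    rcases h3 with ⟨h4, h5⟩ | ⟨h4, h5⟩
    · left
      rw [if_pos h5, Finset.mem_filter]
      exact ⟨Finset.mem_univ _, h2.2, h4.symm⟩
    · right
      rw [if_pos h5, Finset.mem_filter]
      exact ⟨Finset.mem_univ _, h2.2, h4.symm⟩
  have h2 := (Finset.card_le_card h1).trans (Finset.card_union_le _ _)
  have h3 : (((nb G x).filter fun y => cj J f g y u v).card : ℝ) ≤
      (((if u ∉ J then (univ.filter fun y => G.Adj x y ∧ g y = u) else ∅ : Finset V).card : ℕ) : ℝ)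
      + (((if v ∉ J then (univ.filter fun y => G.Adj x y ∧ f y = v) else ∅ : Finset V).card : ℕ)
        : ℝ) := by
    exact_mod_cast h2
  refine h3.trans (add_le_add ?_ ?_)
  · by_cases hu : u ∈ J
    · simp [hu]
    · rw [if_pos hu, if_pos hu]
      exact le_rfl
  · by_cases hv : v ∈ J
    · simp [hv]
    · rw [if_pos hv, if_pos hv]
      exact le_rfl

open scoped Classical in
theorem hx_sq (hR : Rg d q) (hd : 1 ≤ d) (G : SimpleGraph V) (ev : V → Prop) (A B : Finset (Fin q)) (hB : B ⊆ A)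
    (f g : V → Fin q) (x : V) (hx : ev x) (hf : TyE d G ev A f x) (hg : TyE d G ev B g x) :
    ∑ a ∈ Rv G f x ×ˢ Rv G g x, (((nb G x).filter fun y => cj (A \ B) f g y a.1 a.2).card : ℝ) ^ 2 ≤
      2 * rh d q * (((Rv G f x).card : ℝ) * ((Rv G g x).card : ℝ)) := by
  have ha := (num_a hR hd).1
  have ha0 : 0 < ra d q := by linarith
  have p1 := t09_part ha0 G ev (A \ B) B A (by
    intro c hc
    rw [Finset.mem_sdiff] at hc
    tauto) g f x hx hg hf
  have p2 := t09_part ha0 G ev (A \ B) A B (by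
    intro c hc
    rw [Finset.mem_sdiff] at hc
    have := @hB c
    tauto) f g x hx hf hg
  have e1 := hf.e1
  have e2 := hg.e1
  set r := ((Rv G f x).card : ℝ) with hr
  set t := ((Rv G g x).card : ℝ) with ht
  set a := ra d q with hadef
  set E := Real.exp (-a / 2) with hE
  have hE0 : 0 < E := Real.exp_pos _
  have hq : (0 : ℝ) ≤ q := Nat.cast_nonneg q
  have hr0 : 0 ≤ r := Nat.cast_nonneg _
  have ht0 : 0 ≤ t := Nat.cast_nonneg _
  have hmain : ∑ a ∈ Rv G f x ×ˢ Rv G g x,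
      (((nb G x).filter fun y => cj (A \ B) f g y a.1 a.2).card : ℝ) ^ 2 ≤
      2 * (t * ((1 + 32 * a ^ 2) * E * q)) + 2 * (r * ((1 + 32 * a ^ 2) * E * q)) := by
    have h1 : ∑ b ∈ Rv G f x ×ˢ Rv G g x,
        (((nb G x).filter fun y => cj (A \ B) f g y b.1 b.2).card : ℝ) ^ 2 ≤
        ∑ b ∈ Rv G f x ×ˢ Rv G g x,
          (2 * (if b.1 ∉ A \ B then (nv G g x b.1 : ℝ) ^ 2 else 0) +
            2 * (if b.2 ∉ A \ B then (nv G f x b.2 : ℝ) ^ 2 else 0)) := by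
      apply Finset.sum_le_sum
      intro b _
      have h2 := t09_H G (A \ B) f g x b.1 b.2
      have h3 : (((nb G x).filter fun y => cj (A \ B) f g y b.1 b.2).card : ℝ) ^ 2 ≤
          ((if b.1 ∉ A \ B then (nv G g x b.1 : ℝ) else 0) +
            (if b.2 ∉ A \ B then (nv G f x b.2 : ℝ) else 0)) ^ 2 :=
        pow_le_pow_left₀ (Nat.cast_nonneg _) h2 2
      refine h3.trans ?_
      set X := (if b.1 ∉ A \ B then (nv G g x b.1 : ℝ) else 0) with hX
      set Y := (if b.2 ∉ A \ B then (nv G f x b.2 : ℝ) else 0) with hY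
      have h4 : (if b.1 ∉ A \ B then (nv G g x b.1 : ℝ) ^ 2 else 0) = X ^ 2 := by
        rw [hX]; split_ifs <;> simp
      have h5 : (if b.2 ∉ A \ B then (nv G f x b.2 : ℝ) ^ 2 else 0) = Y ^ 2 := by
        rw [hY]; split_ifs <;> simp
      rw [h4, h5]
      nlinarith [sq_nonneg (X - Y)]
    refine h1.trans ?_
    rw [Finset.sum_add_distrib, Finset.sum_product, Finset.sum_product]
    have h2 : ∑ u ∈ Rv G f x, ∑ _v ∈ Rv G g x,
        2 * (if u ∉ A \ B then (nv G g x u : ℝ) ^ 2 else 0) =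
        2 * (t * ∑ u ∈ Rv G f x, (if u ∉ A \ B then (nv G g x u : ℝ) ^ 2 else 0)) := by
      simp_rw [Finset.sum_const, nsmul_eq_mul]
      rw [Finset.mul_sum, Finset.mul_sum]
      exact Finset.sum_congr rfl fun u _ => by rw [ht]; ring
    have h3 : ∑ _u ∈ Rv G f x, ∑ v ∈ Rv G g x,
        2 * (if v ∉ A \ B then (nv G f x v : ℝ) ^ 2 else 0) =
        2 * (r * ∑ v ∈ Rv G g x, (if v ∉ A \ B then (nv G f x v : ℝ) ^ 2 else 0)) := by
      rw [Finset.sum_const, nsmul_eq_mul, ← Finset.mul_sum, hr]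
      ring
    dsimp only
    rw [h2, h3]
    have h4 := mul_le_mul_of_nonneg_left p1 ht0
    have h5 := mul_le_mul_of_nonneg_left p2 hr0
    linarith
  refine hmain.trans ?_
  have hrh : rh d q = 200 * a ^ 2 * E := rfl
  rw [hrh]
  have h6 : t * q ≤ 3 * (r * t) := by nlinarith
  have h7 : r * q ≤ 3 * (r * t) := by nlinarith
  have h8 : (0 : ℝ) ≤ (1 + 32 * a ^ 2) * E := by positivity
  have h9 := mul_le_mul_of_nonneg_left (add_le_add h6 h7) h8
  have h10 : (0 : ℝ) ≤ r * t := mul_nonneg hr0 ht0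
  have h11 : (0 : ℝ) ≤ (16 * a ^ 2 - 12) * E * (r * t) := by
    have : (0 : ℝ) ≤ 16 * a ^ 2 - 12 := by nlinarith
    positivity
  nlinarith

end

end Pool.Agent.LC3
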