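import Pool.Agent.Lib_MP_2c424f_lc3.T05
import Pool.Agent.Lib_MP_2c424f_lc3.T09
import Pool.Agent.Lib_MP_2c424f_lc5.V10

/-!
# Part III, T10: the kernels of the conflict walk

`S = Sx G ev ω₀` (non-empty: it contains the values of `ω₀`, `PrP`), `cf = cfB D ω₀`.
`PKer`: `p1`, `p2`: if the vertices are adjacent and outside `X0` these are the definitions of `P1B`, `P2B` (`pc`), otherwise the sets are empty.
`Ker` with `ρ = rh`, `b = 6 a`, `ρ' = 2 rh`: `o2`: for `y ∉ X0`: the sum is at most `∑_{y'} Mk G (A \ B) f g y y' ≤ rh` (`row_le`; `y ∉ X0` means `cert`); for `y ∈ X0` it is 0.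
`o1`: `P1B x y ≤ 1/|Rv f x| + 1/|Rv g x| ≤ 6/q` for `x ∉ X0` ((E1)), and `y` has `2 d` neighbours: `12 d / q = 6 a`.
`e1`, `e2`: for `x ∉ X0` (both `TyE`): `∑_y P1B x y ≤ (∑_a H(a)) / (|Rv f| |Rv g|)`, `∑_{y,y'} P2B x y y' ≤ (∑_a H(a)^2) / (|Rv f| |Rv g|)`, `H ≤ H^2` for natural numbers,
`hx_sq`.
-/

set_option autoImplicit false

open Finset Filter

namespace Pool.Agent.LC3

open Pool.Agent.LO Pool.Agent.LIN Pool.Agent.THR Pool.Agent.COR Pool.Agent.LC

section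
variable {V : Type} [Fintype V] [DecidableEq V] {d q j : ℕ}

private theorem T10_ev (D : Bal V d q j) (ω₀ : V → Fin q × Fin q) {x : V} (hx : D.ev x) (h : x ∉ X0 D ω₀) :
    TyE d D.G D.ev D.A (fo ω₀) x ∧ TyE d D.G D.ev D.B (go ω₀) x := by
  by_contra hc
  refine h ?_
  unfold X0
  simp only [Finset.mem_filter, Finset.mem_univ, true_and]
  exact Or.inl ⟨hx, hc⟩

private theorem T10_od (D : Bal V d q j) (ω₀ : V → Fin q × Fin q) {y : V} (hy : ¬ D.ev y) (h : y ∉ X0 D ω₀) :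
    cert d D.G D.ev D.A D.B (fo ω₀) (go ω₀) y := by
  by_contra hc
  refine h ?_
  unfold X0
  simp only [Finset.mem_filter, Finset.mem_univ, true_and]
  exact Or.inr ⟨hy, hc⟩

private theorem T10_n1 (D : Bal V d q j) (ω₀ : V → Fin q × Fin q) (x y : V) : 0 ≤ P1B D ω₀ x y := by
  unfold P1B
  split_ifs
  · positivity
  · exact le_rfl

private theorem T10_pc {Λ : Type} [Fintype Λ] (G : SimpleGraph Λ) (J : Finset (Fin q)) (f g : Λ → Fin q)
    (x y y' : Λ) : 0 ≤ pc G J f g x y y' := by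
  unfold pc
  positivity

private theorem T10_n2 (D : Bal V d q j) (ω₀ : V → Fin q × Fin q) (x y y' : V) : 0 ≤ P2B D ω₀ x y y' := by
  unfold P2B
  split_ifs
  · exact T10_pc _ _ _ _ _ _ _
  · exact le_rfl

private theorem T10_mem_nb (G : SimpleGraph V) (x y : V) : y ∈ nb G x ↔ G.Adj x y := by
  unfold nb
  simp only [Finset.mem_filter, Finset.mem_univ, true_and]

theorem pker (D : Bal V d q j) {ω₀ : V → Fin q × Fin q} (h : PrP D.G ω₀) :
    PKer (Sx D.G D.ev ω₀) D.ev (cfB D ω₀) (P1B D ω₀) (P2B D ω₀) := by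
  classical
  have hmem : ∀ v, D.ev v → (ω₀ v).1 ∈ Rv D.G (fo ω₀) v ∧ (ω₀ v).2 ∈ Rv D.G (go ω₀) v := by
    intro v _
    unfold Rv
    simp only [Finset.mem_filter, Finset.mem_univ, true_and]
    exact ⟨fun x hx => (h.1 v x hx).symm, fun x hx => (h.2 v x hx).symm⟩
  have hS : ∀ x, D.ev x → Sx D.G D.ev ω₀ x = Rv D.G (fo ω₀) x ×ˢ Rv D.G (go ω₀) x := by
    intro x hx
    unfold Sx
    rw [if_pos hx]
  have hcard : ∀ x, D.ev x → ((Sx D.G D.ev ω₀ x).card : ℝ) =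
      ((Rv D.G (fo ω₀) x).card : ℝ) * ((Rv D.G (go ω₀) x).card : ℝ) := by
    intro x hx
    rw [hS x hx, Finset.card_product]
    push_cast
    rfl
  have hpos : ∀ x, D.ev x → 0 < ((Rv D.G (fo ω₀) x).card : ℝ) * ((Rv D.G (go ω₀) x).card : ℝ) := by
    intro x hx
    have h1 : 0 < (Rv D.G (fo ω₀) x).card := Finset.card_pos.2 ⟨_, (hmem x hx).1⟩
    have h2 : 0 < (Rv D.G (go ω₀) x).card := Finset.card_pos.2 ⟨_, (hmem x hx).2⟩
    have h1' : (0 : ℝ) < ((Rv D.G (fo ω₀) x).card : ℝ) := by exact_mod_cast h1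
    have h2' : (0 : ℝ) < ((Rv D.G (go ω₀) x).card : ℝ) := by exact_mod_cast h2
    positivity
  refine ⟨?_, ?_, ?_⟩
  · intro v
    refine ⟨ω₀ v, ?_⟩
    by_cases hv : D.ev v
    · rw [hS v hv, Finset.mem_product]
      exact hmem v hv
    · unfold Sx
      rw [if_neg hv, Finset.mem_singleton]
  · intro x y hx hy
    by_cases hc : D.G.Adj x y ∧ x ∉ X0 D ω₀ ∧ y ∉ X0 D ω₀
    · have hP : P1B D ω₀ x y = _ := if_pos ⟨hx, hy, hc.1, hc.2.1, hc.2.2⟩
      rw [hP, hcard x hx, div_mul_cancel₀ _ (hpos x hx).ne', Nat.cast_le]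
      refine Finset.card_le_card fun a ha => ?_
      rw [Finset.mem_filter, hS x hx] at ha
      rw [Finset.mem_filter]
      exact ⟨ha.1, ha.2.2.2.2⟩
    · have h0 : ((Sx D.G D.ev ω₀ x).filter fun a => cfB D ω₀ x y a).card = 0 := by
        rw [Finset.card_eq_zero, Finset.filter_eq_empty_iff]
        intro a _ ha
        exact hc ⟨ha.1, ha.2.1, ha.2.2.1⟩
      rw [h0, Nat.cast_zero]
      exact mul_nonneg (T10_n1 D ω₀ x y) (Nat.cast_nonneg _)
  · intro x y y' hx hy hy' hne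
    by_cases hc : D.G.Adj x y ∧ D.G.Adj x y' ∧ x ∉ X0 D ω₀ ∧ y ∉ X0 D ω₀ ∧ y' ∉ X0 D ω₀
    · have hP : P2B D ω₀ x y y' = _ :=
        if_pos ⟨hx, hy, hy', hc.1, hc.2.1, hne, hc.2.2.1, hc.2.2.2.1, hc.2.2.2.2⟩
      rw [hP, hcard x hx]
      unfold pc
      rw [div_mul_cancel₀ _ (hpos x hx).ne', Nat.cast_le]
      refine Finset.card_le_card fun a ha => ?_
      rw [Finset.mem_filter, hS x hx] at ha
      rw [Finset.mem_filter]
      exact ⟨ha.1, ha.2.1.2.2.2, ha.2.2.2.2.2⟩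
    · have h0 : ((Sx D.G D.ev ω₀ x).filter fun a => cfB D ω₀ x y a ∧ cfB D ω₀ x y' a).card = 0 := by
        rw [Finset.card_eq_zero, Finset.filter_eq_empty_iff]
        intro a _ ha
        exact hc ⟨ha.1.1, ha.2.1, ha.1.2.1, ha.1.2.2.1, ha.2.2.2.1⟩
      rw [h0, Nat.cast_zero]
      exact mul_nonneg (T10_n2 D ω₀ x y y') (Nat.cast_nonneg _)

open scoped Classical in
/-- conflicts with one neighbour -/
private theorem T10_cj_card (G : SimpleGraph V) (J : Finset (Fin q)) (f g : V → Fin q) (x y : V) :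
    ((Rv G f x ×ˢ Rv G g x).filter fun a => cj J f g y a.1 a.2).card ≤
      (Rv G f x).card + (Rv G g x).card := by
  have h1 : ((Rv G f x ×ˢ Rv G g x).filter fun a => cj J f g y a.1 a.2) ⊆
      (Rv G f x ×ˢ {f y}) ∪ ({g y} ×ˢ Rv G g x) := by
    intro a ha
    rw [Finset.mem_filter, Finset.mem_product] at ha
    rw [Finset.mem_union, Finset.mem_product, Finset.mem_product, Finset.mem_singleton, Finset.mem_singleton]
    rcases ha.2 with h | h
    · exact Or.inr ⟨h.1, ha.1.2⟩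
    · exact Or.inl ⟨ha.1.1, h.1⟩
  refine (Finset.card_le_card h1).trans ((Finset.card_union_le _ _).trans ?_)
  rw [Finset.card_product, Finset.card_product, Finset.card_singleton, Finset.card_singleton, mul_one, one_mul]

open scoped Classical in
/-- the sum over the neighbours -/
private theorem T10_sum1 (G : SimpleGraph V) (J : Finset (Fin q)) (f g : V → Fin q) (x : V) :
    ∑ y ∈ nb G x, (((Rv G f x ×ˢ Rv G g x).filter fun a => cj J f g y a.1 a.2).card : ℝ) =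
      ∑ a ∈ Rv G f x ×ˢ Rv G g x, (((nb G x).filter fun y => cj J f g y a.1 a.2).card : ℝ) := by
  have h1 : ∀ y : V, (((Rv G f x ×ˢ Rv G g x).filter fun a => cj J f g y a.1 a.2).card : ℝ) =
      ∑ a ∈ Rv G f x ×ˢ Rv G g x, if cj J f g y a.1 a.2 then (1 : ℝ) else 0 := by
    intro y
    rw [Finset.sum_boole]
  have h2 : ∀ a : Fin q × Fin q, (((nb G x).filter fun y => cj J f g y a.1 a.2).card : ℝ) =
      ∑ y ∈ nb G x, if cj J f g y a.1 a.2 then (1 : ℝ) else 0 := by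
    intro a
    rw [Finset.sum_boole]
  rw [Finset.sum_congr rfl fun y _ => h1 y, Finset.sum_congr rfl fun a _ => h2 a, Finset.sum_comm]

open scoped Classical in
/-- the sum over the pairs of neighbours -/
private theorem T10_sum2 (G : SimpleGraph V) (J : Finset (Fin q)) (f g : V → Fin q) (x : V) :
    ∑ y ∈ nb G x, ∑ y' ∈ nb G x, pc G J f g x y y' =
      (∑ a ∈ Rv G f x ×ˢ Rv G g x, (((nb G x).filter fun y => cj J f g y a.1 a.2).card : ℝ) ^ 2) /
        (((Rv G f x).card : ℝ) * ((Rv G g x).card : ℝ)) := by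
  have h1 : ∀ y y' : V, pc G J f g x y y' =
      (∑ a ∈ Rv G f x ×ˢ Rv G g x, (if cj J f g y a.1 a.2 then (1 : ℝ) else 0) *
        (if cj J f g y' a.1 a.2 then (1 : ℝ) else 0)) /
        (((Rv G f x).card : ℝ) * ((Rv G g x).card : ℝ)) := by
    intro y y'
    unfold pc
    congr 1
    rw [← Finset.sum_boole]
    refine Finset.sum_congr rfl fun a _ => ?_
    by_cases ha : cj J f g y a.1 a.2
    · by_cases hb : cj J f g y' a.1 a.2
      · rw [if_pos ⟨ha, hb⟩, if_pos ha, if_pos hb, mul_one]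
      · rw [if_neg fun h => hb h.2, if_neg hb, mul_zero]
    · rw [if_neg fun h => ha h.1, if_neg ha, zero_mul]
  have h2 : ∀ a : Fin q × Fin q, (((nb G x).filter fun y => cj J f g y a.1 a.2).card : ℝ) ^ 2 =
      ∑ y ∈ nb G x, ∑ y' ∈ nb G x, (if cj J f g y a.1 a.2 then (1 : ℝ) else 0) *
        (if cj J f g y' a.1 a.2 then (1 : ℝ) else 0) := by
    intro a
    rw [← Finset.sum_mul_sum, Finset.sum_boole, sq]
  rw [Finset.sum_congr rfl fun y _ => Finset.sum_congr rfl fun y' _ => h1 y y',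
    Finset.sum_congr rfl fun a _ => h2 a]
  simp_rw [← Finset.sum_div]
  congr 1
  rw [Finset.sum_comm]
  have h3 : ∀ y ∈ nb G x, ∑ y' ∈ nb G x, ∑ a ∈ Rv G f x ×ˢ Rv G g x,
      (if cj J f g y' a.1 a.2 then (1 : ℝ) else 0) * (if cj J f g y a.1 a.2 then (1 : ℝ) else 0) =
      ∑ a ∈ Rv G f x ×ˢ Rv G g x, ∑ y' ∈ nb G x,
      (if cj J f g y' a.1 a.2 then (1 : ℝ) else 0) * (if cj J f g y a.1 a.2 then (1 : ℝ) else 0) :=
    fun y _ => Finset.sum_comm
  rw [Finset.sum_congr rfl h3, Finset.sum_comm]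
  refine Finset.sum_congr rfl fun a _ => ?_
  rw [Finset.sum_comm]

theorem ker (D : Bal V d q j) (ω₀ : V → Fin q × Fin q) :
    Ker D.ev (P1B D ω₀) (P2B D ω₀) (rh d q) (6 * ra d q) (2 * rh d q) := by
  classical
  have hd1 : 1 ≤ d := le_trans (by norm_num) D.dl
  obtain ⟨hq1, -, -⟩ := num_q D.rg hd1
  have hq0 : (0 : ℝ) < q := by exact_mod_cast hq1
  have hra0 : 0 ≤ ra d q := by
    unfold ra
    positivity
  have hrh0 : 0 ≤ rh d q := by
    unfold rh
    positivity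
  have hcpos : ∀ x, D.ev x → x ∉ X0 D ω₀ →
      (q : ℝ) / 3 ≤ ((Rv D.G (fo ω₀) x).card : ℝ) ∧ (q : ℝ) / 3 ≤ ((Rv D.G (go ω₀) x).card : ℝ) := by
    intro x hx hx0
    obtain ⟨h1, h2⟩ := T10_ev D ω₀ hx hx0
    exact ⟨h1.e1, h2.e1⟩
  have hsq : ∀ x, D.ev x → x ∉ X0 D ω₀ →
      (∑ a ∈ Rv D.G (fo ω₀) x ×ˢ Rv D.G (go ω₀) x,
        (((nb D.G x).filter fun y => cj (D.A \ D.B) (fo ω₀) (go ω₀) y a.1 a.2).card : ℝ) ^ 2) /
        (((Rv D.G (fo ω₀) x).card : ℝ) * ((Rv D.G (go ω₀) x).card : ℝ)) ≤ 2 * rh d q := by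
    intro x hx hx0
    obtain ⟨h1, h2⟩ := T10_ev D ω₀ hx hx0
    obtain ⟨c1, c2⟩ := hcpos x hx hx0
    have c1' : 0 < ((Rv D.G (fo ω₀) x).card : ℝ) := lt_of_lt_of_le (by positivity) c1
    have c2' : 0 < ((Rv D.G (go ω₀) x).card : ℝ) := lt_of_lt_of_le (by positivity) c2
    rw [div_le_iff₀ (mul_pos c1' c2')]
    exact hx_sq D.rg hd1 D.G D.ev D.A D.B D.sub (fo ω₀) (go ω₀) x hx h1 h2
  refine
  { n1 := T10_n1 D ω₀
    n2 := T10_n2 D ω₀
    z1 := fun x y hy => if_neg fun h => h.2.1 hy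
    z2 := fun x y y' hy => if_neg fun h => hy.elim h.2.1 h.2.2.1
    sy := ?_
    r0 := hrh0
    b0 := by positivity
    r0' := by positivity
    o2 := ?_
    o1 := ?_
    e1 := ?_
    e2 := ?_ }
  · intro x y y'
    have hpc : pc D.G (D.A \ D.B) (fo ω₀) (go ω₀) x y y' = pc D.G (D.A \ D.B) (fo ω₀) (go ω₀) x y' y := by
      unfold pc
      congr 3
      refine Finset.filter_congr fun a _ => and_comm
    by_cases hc : D.ev x ∧ ¬ D.ev y ∧ ¬ D.ev y' ∧ D.G.Adj x y ∧ D.G.Adj x y' ∧ y ≠ y' ∧ x ∉ X0 D ω₀ ∧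
        y ∉ X0 D ω₀ ∧ y' ∉ X0 D ω₀
    · obtain ⟨g1, g2, g3, g4, g5, g6, g7, g8, g9⟩ := hc
      have e1 : P2B D ω₀ x y y' = _ := if_pos ⟨g1, g2, g3, g4, g5, g6, g7, g8, g9⟩
      have e2 : P2B D ω₀ x y' y = _ := if_pos ⟨g1, g3, g2, g5, g4, g6.symm, g7, g9, g8⟩
      rw [e1, e2, hpc]
    · have e1 : P2B D ω₀ x y y' = 0 := if_neg hc
      have e2 : P2B D ω₀ x y' y = 0 := if_neg fun h => hc
        ⟨h.1, h.2.2.1, h.2.1, h.2.2.2.2.1, h.2.2.2.1, h.2.2.2.2.2.1.symm, h.2.2.2.2.2.2.1,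
          h.2.2.2.2.2.2.2.2, h.2.2.2.2.2.2.2.1⟩
      rw [e1, e2]
  · -- o2
    intro y hy
    by_cases hy0 : y ∈ X0 D ω₀
    · have h0 : ∀ x y', P2B D ω₀ x y y' = 0 := fun x y' => if_neg fun h => h.2.2.2.2.2.2.2.1 hy0
      simp only [h0, Finset.sum_const_zero]
      exact hrh0
    · have hrow := row_le D.rg hq1 D.G D.ev D.par D.A D.B D.sub (fo ω₀) (go ω₀) y hy (T10_od D ω₀ hy hy0)
      refine le_trans ?_ hrow
      rw [Finset.sum_comm]
      refine Finset.sum_le_sum fun y' _ => ?_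
      unfold Mk
      refine Finset.sum_le_sum fun x _ => ?_
      by_cases hc : D.ev x ∧ ¬ D.ev y ∧ ¬ D.ev y' ∧ D.G.Adj x y ∧ D.G.Adj x y' ∧ y ≠ y' ∧ x ∉ X0 D ω₀ ∧
          y ∉ X0 D ω₀ ∧ y' ∉ X0 D ω₀
      · have e1 : P2B D ω₀ x y y' = _ := if_pos hc
        rw [e1, if_pos ⟨hc.2.2.2.1.symm, hc.2.2.2.2.1, hc.2.2.2.2.2.1⟩]
      · have e1 : P2B D ω₀ x y y' = 0 := if_neg hc
        rw [e1]
        split_ifs
        · exact T10_pc _ _ _ _ _ _ _
        · exact le_rfl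
  · -- o1
    intro y hy
    have h1 : ∀ x, P1B D ω₀ x y ≤ if x ∈ nb D.G y then (6 : ℝ) / q else 0 := by
      intro x
      by_cases hc : D.ev x ∧ ¬ D.ev y ∧ D.G.Adj x y ∧ x ∉ X0 D ω₀ ∧ y ∉ X0 D ω₀
      · have e1 : P1B D ω₀ x y = _ := if_pos hc
        rw [e1, if_pos ((T10_mem_nb D.G y x).2 hc.2.2.1.symm)]
        obtain ⟨c1, c2⟩ := hcpos x hc.1 hc.2.2.2.1
        have c1' : 0 < ((Rv D.G (fo ω₀) x).card : ℝ) := lt_of_lt_of_le (by positivity) c1
        have c2' : 0 < ((Rv D.G (go ω₀) x).card : ℝ) := lt_of_lt_of_le (by positivity) c2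
        have h2 := T10_cj_card D.G (D.A \ D.B) (fo ω₀) (go ω₀) x y
        have h3 : ((((Rv D.G (fo ω₀) x ×ˢ Rv D.G (go ω₀) x).filter fun a =>
            cj (D.A \ D.B) (fo ω₀) (go ω₀) y a.1 a.2).card : ℕ) : ℝ) ≤
            ((Rv D.G (fo ω₀) x).card : ℝ) + ((Rv D.G (go ω₀) x).card : ℝ) := by exact_mod_cast h2
        rw [div_le_div_iff₀ (mul_pos c1' c2') hq0]
        nlinarith [mul_nonneg (sub_nonneg.2 c1) c2'.le, mul_nonneg (sub_nonneg.2 c2) c1'.le]
      · have e1 : P1B D ω₀ x y = 0 := if_neg hc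
        rw [e1]
        split_ifs
        · positivity
        · exact le_rfl
    refine (Finset.sum_le_sum fun x _ => h1 x).trans ?_
    rw [← Finset.sum_filter, Finset.sum_const, nsmul_eq_mul]
    have h2 : (Finset.univ.filter fun x => x ∈ nb D.G y) = nb D.G y := by
      ext x
      simp
    rw [h2, D.deg y]
    unfold ra
    push_cast
    apply le_of_eq
    field_simp
  · -- e1
    intro x hx
    by_cases hx0 : x ∈ X0 D ω₀
    · have h0 : ∀ y, P1B D ω₀ x y = 0 := fun y => if_neg fun h => h.2.2.2.1 hx0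
      simp only [h0, Finset.sum_const_zero]
      positivity
    · refine le_trans ?_ (hsq x hx hx0)
      have h1 : ∀ y, P1B D ω₀ x y ≤ if y ∈ nb D.G x then
          (((Rv D.G (fo ω₀) x ×ˢ Rv D.G (go ω₀) x).filter fun a =>
            cj (D.A \ D.B) (fo ω₀) (go ω₀) y a.1 a.2).card : ℝ) /
          (((Rv D.G (fo ω₀) x).card : ℝ) * ((Rv D.G (go ω₀) x).card : ℝ)) else 0 := by
        intro y
        by_cases hc : D.ev x ∧ ¬ D.ev y ∧ D.G.Adj x y ∧ x ∉ X0 D ω₀ ∧ y ∉ X0 D ω₀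
        · have e1 : P1B D ω₀ x y = _ := if_pos hc
          rw [e1, if_pos ((T10_mem_nb D.G x y).2 hc.2.2.1)]
        · have e1 : P1B D ω₀ x y = 0 := if_neg hc
          rw [e1]
          split_ifs
          · positivity
          · exact le_rfl
      refine (Finset.sum_le_sum fun y _ => h1 y).trans ?_
      rw [← Finset.sum_filter]
      have h2 : (Finset.univ.filter fun y => y ∈ nb D.G x) = nb D.G x := by
        ext y
        simp
      rw [h2, ← Finset.sum_div, T10_sum1]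
      refine div_le_div_of_nonneg_right ?_ (by positivity)
      refine Finset.sum_le_sum fun a _ => ?_
      have h3 : ((nb D.G x).filter fun y => cj (D.A \ D.B) (fo ω₀) (go ω₀) y a.1 a.2).card ≤
          ((nb D.G x).filter fun y => cj (D.A \ D.B) (fo ω₀) (go ω₀) y a.1 a.2).card ^ 2 := by
        generalize ((nb D.G x).filter fun y => cj (D.A \ D.B) (fo ω₀) (go ω₀) y a.1 a.2).card = m
        nlinarith [Nat.zero_le m, sq_nonneg m, Nat.le_mul_self m]
      exact_mod_cast h3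
  · -- e2
    intro x hx
    by_cases hx0 : x ∈ X0 D ω₀
    · have h0 : ∀ y y', P2B D ω₀ x y y' = 0 := fun y y' => if_neg fun h => h.2.2.2.2.2.2.1 hx0
      simp only [h0, Finset.sum_const_zero]
      positivity
    · refine le_trans ?_ (hsq x hx hx0)
      rw [← T10_sum2]
      have h1 : ∀ y y', P2B D ω₀ x y y' ≤ if y' ∈ nb D.G x then
          (if y ∈ nb D.G x then pc D.G (D.A \ D.B) (fo ω₀) (go ω₀) x y y' else 0) else 0 := by
        intro y y'
        by_cases hc : D.ev x ∧ ¬ D.ev y ∧ ¬ D.ev y' ∧ D.G.Adj x y ∧ D.G.Adj x y' ∧ y ≠ y' ∧ x ∉ X0 D ω₀ ∧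
            y ∉ X0 D ω₀ ∧ y' ∉ X0 D ω₀
        · have e1 : P2B D ω₀ x y y' = _ := if_pos hc
          rw [e1, if_pos ((T10_mem_nb D.G x y').2 hc.2.2.2.2.1), if_pos ((T10_mem_nb D.G x y).2 hc.2.2.2.1)]
        · have e1 : P2B D ω₀ x y y' = 0 := if_neg hc
          rw [e1]
          split_ifs
          · exact T10_pc _ _ _ _ _ _ _
          · exact le_rfl
          · exact le_rfl
      have h2 : (Finset.univ.filter fun y => y ∈ nb D.G x) = nb D.G x := by
        ext y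
        simp
      have h3 : ∀ y, ∑ y', P2B D ω₀ x y y' ≤ if y ∈ nb D.G x then
          ∑ y' ∈ nb D.G x, pc D.G (D.A \ D.B) (fo ω₀) (go ω₀) x y y' else 0 := by
        intro y
        refine (Finset.sum_le_sum fun y' _ => h1 y y').trans ?_
        rw [← Finset.sum_filter, h2]
        split_ifs
        · exact le_rfl
        · rw [Finset.sum_const_zero]
      refine (Finset.sum_le_sum fun y _ => h3 y).trans ?_
      rw [← Finset.sum_filter, h2]

end

end Pool.Agent.LC3
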