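import Pool.Agent.Lib_MP_2c424f_lc3.T10
import Pool.Agent.Lib_MP_2c424f_lc3.T00

/-!
# Part III, T11: rare values at a typical even vertex

`(E2)` for `(g, B)`: at most `e^{-a} q` colours of `Rv G g x` are not in `B` (`x` even: type B means `∉ B`), and `q ≤ 3 |Rv G g x|` ((E1)).
`rare_sum`: sum over the classes (`cl_eq`, `sum_cl_le`): in the class of `ω` with `x ∉ X0` the values at `x` are uniform in `Rv f x × Rv g x`
(`cnt_site` in `Perc.lean`, `cnt (Sx ..)` = number of elements of the class); `X0` is constant on a class.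
-/

set_option autoImplicit false

open Finset Filter

namespace Pool.Agent.LC3

open Pool.Agent.LO Pool.Agent.LIN Pool.Agent.THR Pool.Agent.COR Pool.Agent.LC

section
variable {V : Type} [Fintype V] [DecidableEq V] {d q j : ℕ}

open scoped Classical in
theorem site_rare (D : Bal V d q j) (ω : V → Fin q × Fin q) {x : V} (hx : D.ev x) (hX : x ∉ X0 D ω) :
    (((Rv D.G (fo ω) x ×ˢ Rv D.G (go ω) x).filter fun a => a.2 ∉ D.B).card : ℝ) ≤
      3 * Real.exp (-ra d q) * (((Rv D.G (fo ω) x ×ˢ Rv D.G (go ω) x).card : ℕ) : ℝ) := by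
  have hT : TyE d D.G D.ev D.A (fo ω) x ∧ TyE d D.G D.ev D.B (go ω) x := by
    by_contra hcon
    refine hX ?_
    unfold X0
    exact Finset.mem_filter.2 ⟨Finset.mem_univ _, Or.inl ⟨hx, hcon⟩⟩
  have e1 := hT.2.e1
  have e2 := hT.2.e2
  have hsub : ((Rv D.G (fo ω) x ×ˢ Rv D.G (go ω) x).filter fun a => a.2 ∉ D.B) ⊆
      Rv D.G (fo ω) x ×ˢ ((Rv D.G (go ω) x).filter fun c => ¬ tS D.ev D.B x c) := by
    intro a ha
    obtain ⟨ha1, ha2⟩ := Finset.mem_filter.1 ha
    obtain ⟨ha3, ha4⟩ := Finset.mem_product.1 ha1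
    refine Finset.mem_product.2 ⟨ha3, Finset.mem_filter.2 ⟨ha4, ?_⟩⟩
    intro ht
    exact ha2 (ht.1 hx)
  have hc := Finset.card_le_card hsub
  rw [Finset.card_product] at hc
  have hc' : (((Rv D.G (fo ω) x ×ˢ Rv D.G (go ω) x).filter fun a => a.2 ∉ D.B).card : ℝ) ≤
      ((Rv D.G (fo ω) x).card : ℝ) * (((Rv D.G (go ω) x).filter fun c => ¬ tS D.ev D.B x c).card : ℝ) := by
    exact_mod_cast hc
  refine hc'.trans ?_
  rw [Finset.card_product]
  push_cast
  have hq : (q : ℝ) ≤ 3 * ((Rv D.G (go ω) x).card : ℝ) := by linarith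
  have h0 : (0 : ℝ) ≤ ((Rv D.G (fo ω) x).card : ℝ) := Nat.cast_nonneg _
  have hE : (0 : ℝ) ≤ Real.exp (-ra d q) := (Real.exp_pos _).le
  calc ((Rv D.G (fo ω) x).card : ℝ) * (((Rv D.G (go ω) x).filter fun c => ¬ tS D.ev D.B x c).card : ℝ)
      ≤ ((Rv D.G (fo ω) x).card : ℝ) * (Real.exp (-ra d q) * (3 * ((Rv D.G (go ω) x).card : ℝ))) :=
        mul_le_mul_of_nonneg_left (e2.trans (mul_le_mul_of_nonneg_left hq hE)) h0
    _ = 3 * Real.exp (-ra d q) * (((Rv D.G (fo ω) x).card : ℝ) * ((Rv D.G (go ω) x).card : ℝ)) := by ring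

open scoped Classical in
theorem rare_sum (D : Bal V d q j) {x : V} (hx : D.ev x) :
    (((OM D).filter fun ω => x ∉ X0 D ω ∧ (ω x).2 ∉ D.B).card : ℝ) ≤ 3 * Real.exp (-ra d q) * ((OM D).card : ℝ) := by
  have hOM : ∀ ω ∈ OM D, PrP D.G ω := by
    intro ω hω
    unfold OM at hω
    exact (Finset.mem_filter.1 hω).2.1
  have hE : (0 : ℝ) ≤ 3 * Real.exp (-ra d q) := mul_nonneg (by norm_num) (Real.exp_pos _).le
  rw [← Finset.sum_boole]
  refine sum_cl_le D.G D.ev (OM D) hOM (fun ω hω => OM_cl D hω) _ _ ?_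
  intro ω hω
  rw [Finset.sum_boole]
  by_cases hX : x ∈ X0 D ω
  · have he : ((cl D.G D.ev ω).filter fun ω' => x ∉ X0 D ω' ∧ (ω' x).2 ∉ D.B) = ∅ := by
      refine Finset.filter_eq_empty_iff.2 ?_
      intro ω' hω' hcon
      refine hcon.1 ?_
      have hso : so D.ev ω' ω := by
        unfold cl at hω'
        exact (Finset.mem_filter.1 hω').2.2
      rw [X0_so D hso]
      exact hX
    rw [he, Finset.card_empty, Nat.cast_zero]
    exact mul_nonneg hE (Nat.cast_nonneg _)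
  · have hsub : ((cl D.G D.ev ω).filter fun ω' => x ∉ X0 D ω' ∧ (ω' x).2 ∉ D.B) ⊆
        (Fintype.piFinset (Sx D.G D.ev ω)).filter fun ω' => (ω' x).2 ∉ D.B := by
      rw [cl_eq D.G D.ev D.par ω]
      intro ω' hω'
      obtain ⟨h1, h2⟩ := Finset.mem_filter.1 hω'
      exact Finset.mem_filter.2 ⟨h1, h2.2⟩
    have hle : (((cl D.G D.ev ω).filter fun ω' => x ∉ X0 D ω' ∧ (ω' x).2 ∉ D.B).card : ℝ) ≤
        cnt (Sx D.G D.ev ω) (fun ω' => (ω' x).2 ∉ D.B) := by
      unfold cnt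
      exact_mod_cast (Finset.card_le_card hsub).trans (le_of_eq (by congr))
    refine hle.trans ?_
    have hsite := cnt_site (Sx D.G D.ev ω) x (fun a => a.2 ∉ D.B)
    have hcl : ((cl D.G D.ev ω).card : ℝ) = cnt (Sx D.G D.ev ω) (fun _ => True) := by
      unfold cnt
      rw [cl_eq D.G D.ev D.par ω]
      congr 2
      ext ω'
      simp only [Finset.mem_filter, and_true]
    have hSx : Sx D.G D.ev ω x = Rv D.G (fo ω) x ×ˢ Rv D.G (go ω) x := by
      unfold Sx
      rw [if_pos hx]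
    have hrare := site_rare D ω hx hX
    rw [← hSx] at hrare
    have hpos : (0 : ℝ) < ((Sx D.G D.ev ω x).card : ℝ) := by
      have h1 : ω ∈ Fintype.piFinset (Sx D.G D.ev ω) := by
        rw [← cl_eq D.G D.ev D.par ω]
        exact mem_cl_self D.G D.ev (hOM ω hω)
      have h2 := Fintype.mem_piFinset.1 h1 x
      exact_mod_cast Finset.card_pos.2 ⟨_, h2⟩
    rw [hcl]
    have h0 : 0 ≤ cnt (Sx D.G D.ev ω) (fun _ => True) := cnt_nonneg _ _
    refine le_of_mul_le_mul_right ?_ hpos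
    rw [hsite]
    have hcalc : ((((Sx D.G D.ev ω x).filter fun a => a.2 ∉ D.B).card : ℕ) : ℝ) * cnt (Sx D.G D.ev ω) (fun _ => True)
        ≤ 3 * Real.exp (-ra d q) * cnt (Sx D.G D.ev ω) (fun _ => True) * ((Sx D.G D.ev ω x).card : ℝ) := by
      calc ((((Sx D.G D.ev ω x).filter fun a => a.2 ∉ D.B).card : ℕ) : ℝ) * cnt (Sx D.G D.ev ω) (fun _ => True)
          ≤ (3 * Real.exp (-ra d q) * ((Sx D.G D.ev ω x).card : ℝ)) * cnt (Sx D.G D.ev ω) (fun _ => True) :=
            mul_le_mul_of_nonneg_right hrare h0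
        _ = 3 * Real.exp (-ra d q) * cnt (Sx D.G D.ev ω) (fun _ => True) * ((Sx D.G D.ev ω x).card : ℝ) := by ring
    refine le_trans (le_of_eq ?_) hcalc
    congr

end

end Pool.Agent.LC3
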