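import Pool.Agent.Lib_MP_2c424f_lc3.T10
import Pool.Agent.Lib_MP_2c424f_lc3.T11

/-!
# Part III, T12: the local lemma (III.C)

`paths_lll` (file `PercB.lean`) with `ev = D.ev`, `cf = cfB D ω₀`, `S = Sx G ev ω₀`, `P1B`, `P2B`, `ρ = rh`, `b = 6 a`, `ρ' = 2 rh` (`T10`), `Ev = Pth D`,
`E l ω = Ech D (mix ω) l`, `mix ω v = ω v` for even `v`, `ω₀ v` for odd `v`, `p0 = 3 e^{-a}`.
For `ω ∈ piFinset S` we have `mix ω = ω`, `so ω ω₀`, so `Del D ω = Del D ω₀` (`Del_so`).  `hdep`: `Del D (mix ω)` does not depend on `ω`; the rest of `Ech` uses the values at the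
vertices of `l` only.  `hE`: a generic conflict edge `s t` (one even, one odd: `Par`) outside `X0` is `cfl D.ev (cfB D ω₀) ω s t` (`cj` with `Φ = fo ω₀`, `Ψ = go ω₀`).
`hE1`: `s1 a ∧ s2 a` implies `a.2 ∉ B`: `site_rare` and `cnt_site`; if `x ∈ X0` the event is empty.   `hsm`, `hρ`: `num_e`, `num_a`.
The sum in the conclusion is `Wcl D ω₀` (exchange the sums; `evl`).
-/

set_option autoImplicit false

open Finset Filter

namespace Pool.Agent.LC3

open Pool.Agent.LO Pool.Agent.LIN Pool.Agent.THR Pool.Agent.COR Pool.Agent.LC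

section
variable {V : Type} [Fintype V] [DecidableEq V] {d q j : ℕ}

open scoped Classical in
/-- `ω` at the even vertices, `ω₀` at the odd ones -/
private noncomputable def mix (ev : V → Prop) (ω₀ ω : V → Fin q × Fin q) : V → Fin q × Fin q :=
  fun v => if ev v then ω v else ω₀ v

private theorem mix_so (ev : V → Prop) (ω₀ ω : V → Fin q × Fin q) : so ev (mix ev ω₀ ω) ω₀ := by
  intro v hv
  unfold mix
  rw [if_neg hv]

private theorem mix_mem (G : SimpleGraph V) (ev : V → Prop) (ω₀ ω : V → Fin q × Fin q)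
    (h : ∀ v, ω v ∈ Sx G ev ω₀ v) : mix ev ω₀ ω = ω := by
  funext v
  unfold mix
  split_ifs with hv
  · rfl
  · have h1 := h v
    unfold Sx at h1
    rw [if_neg hv, Finset.mem_singleton] at h1
    exact h1.symm

private theorem Ech_iff (D : Bal V d q j) {ω ω₀ : V → Fin q × Fin q} (h : so D.ev ω ω₀) (l : List V) :
    Ech D ω l ↔ (∀ s ∈ l, s ∉ Del D ω₀) ∧ l.IsChain (gc D ω) ∧ (∃ s ∈ l.head?, s1 D (ω s)) ∧
      ∃ s ∈ l.getLast?, s2 D (ω s) := by
  unfold Ech
  rw [Del_so D h]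

private theorem Ech_congr (D : Bal V d q j) (ω₀ : V → Fin q × Fin q) {ω ω' : V → Fin q × Fin q} (l : List V)
    (h : ∀ s ∈ l, mix D.ev ω₀ ω s = mix D.ev ω₀ ω' s) (hE : Ech D (mix D.ev ω₀ ω) l) :
    Ech D (mix D.ev ω₀ ω') l := by
  rw [Ech_iff D (mix_so _ _ _)] at hE ⊢
  obtain ⟨h1, h2, ⟨s, hs, h3⟩, ⟨t, ht, h4⟩⟩ := hE
  refine ⟨h1, ?_, ⟨s, hs, ?_⟩, ⟨t, ht, ?_⟩⟩
  · refine List.IsChain.imp_of_mem_imp (fun a b ha hb hab => ?_) h2
    unfold gc at hab ⊢
    rw [h a ha, h b hb] at hab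
    exact hab
  · rwa [← h s (List.mem_of_mem_head? hs)]
  · rwa [← h t (List.mem_of_mem_getLast? ht)]

private theorem s12_notB (D : Bal V d q j) {a : Fin q × Fin q} (h1 : s1 D a) (h2 : s2 D a) : a.2 ∉ D.B := by
  have hJ : ∀ c, c ∈ D.J1 ∪ D.J2 → c ∉ D.B := by
    intro c hc
    rw [← D.un, Finset.mem_sdiff] at hc
    exact hc.2
  have hd : ∀ c, c ∈ D.J1 → c ∉ D.J2 := fun c hc hc' => Finset.disjoint_left.1 D.dis hc hc'
  rcases h1 with h1 | h1
  · rcases h2 with h2 | h2
    · exact absurd h2 (hd _ h1)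
    · exact hJ _ (Finset.mem_union_right _ h2)
  · exact hJ _ (Finset.mem_union_left _ h1)

private theorem gc_cfl (D : Bal V d q j) {ω ω₀ : V → Fin q × Fin q} (h : so D.ev ω ω₀) {s t : V}
    (hs : s ∉ X0 D ω₀) (ht : t ∉ X0 D ω₀) (hg : gc D ω s t) : cfl D.ev (cfB D ω₀) ω s t := by
  obtain ⟨hadj, hg⟩ := hg
  have hp := D.par s t hadj
  by_cases hev : D.ev s
  · have hto : ¬ D.ev t := hp.1 hev
    refine Or.inl ⟨hev, hto, hadj, hs, ht, ?_⟩
    have h1 : ω t = ω₀ t := h t hto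
    rw [h1] at hg
    rcases hg with hg | hg
    · exact Or.inl ⟨hg.1, hg.2⟩
    · exact Or.inr ⟨hg.1, hg.2⟩
  · have hte : D.ev t := by
      by_contra h'
      exact hev (hp.2 h')
    refine Or.inr ⟨hev, hte, hadj.symm, ht, hs, ?_⟩
    have h1 : ω s = ω₀ s := h s hev
    rw [h1] at hg
    rcases hg with hg | hg
    · exact Or.inr ⟨hg.1.symm, by rw [← hg.1]; exact hg.2⟩
    · exact Or.inl ⟨hg.1.symm, by rw [← hg.1]; exact hg.2⟩

private theorem card_ext {α : Type*} {A B : Finset α} (h : ∀ a, a ∈ A ↔ a ∈ B) : A.card = B.card := by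
  rw [Finset.ext h]

open scoped Classical in
private theorem cnt_card {ι α : Type*} [Fintype ι] [DecidableEq ι] [DecidableEq α] {S : ι → Finset α} {E : (ι → α) → Prop}
    {T : Finset (ι → α)} (h : ∀ ω, ω ∈ Fintype.piFinset S ∧ E ω ↔ ω ∈ T) : cnt S E = (T.card : ℝ) := by
  unfold cnt
  refine congrArg (Nat.cast : ℕ → ℝ) (card_ext fun ω => ?_)
  rw [Finset.mem_filter]
  exact h ω

open scoped Classical in
theorem NL_ge (D : Bal V d q j) {ω₀ : V → Fin q × Fin q} (h : PrP D.G ω₀) :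
    Real.exp (-(2 * Wcl D ω₀)) * ((cl D.G D.ev ω₀).card : ℝ) ≤ (((cl D.G D.ev ω₀).filter fun ω => NL D ω).card : ℝ) := by
  have hd : 1 ≤ d := le_trans (by norm_num) D.dl
  obtain ⟨he1, he2, he3⟩ := num_e D.rg hd
  obtain ⟨ha1, ha2⟩ := num_a D.rg hd
  have hK := ker D ω₀
  have hS := pker D h
  have hcl := cl_eq D.G D.ev D.par ω₀
  set S := Sx D.G D.ev ω₀ with hSdef
  have hrh0 : 0 ≤ rh d q := hK.r0
  have hmain := paths_lll hS hK (by nlinarith) (Pth D)
    (fun l hl => (Finset.mem_filter.1 hl).2.1) (fun l hl => (Finset.mem_filter.1 hl).2.2)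
    (fun l ω => Ech D (mix D.ev ω₀ ω) l)
    (by
      intro l _ ω ω' hω
      have h1 : ∀ s ∈ l, mix D.ev ω₀ ω s = mix D.ev ω₀ ω' s := by
        intro s hs
        unfold mix
        split_ifs with hev
        · exact hω s (Finset.mem_filter.2 ⟨List.mem_toFinset.2 hs, hev⟩)
        · rfl
      exact ⟨Ech_congr D ω₀ l h1, Ech_congr D ω₀ l fun s hs => (h1 s hs).symm⟩)
    (by
      intro l _ _ ω hω hE
      have h1 : mix D.ev ω₀ ω = ω := mix_mem D.G D.ev ω₀ ω hω
      have h2 : so D.ev ω ω₀ := by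
        rw [← h1]
        exact mix_so _ _ _
      change Ech D (mix D.ev ω₀ ω) l at hE
      rw [h1, Ech_iff D h2] at hE
      have h3 : ∀ s ∈ l, s ∉ X0 D ω₀ := by
        intro s hs hX
        refine hE.1 s hs ?_
        unfold Del
        exact Finset.mem_union_left _ hX
      exact List.IsChain.imp_of_mem_imp (fun a b ha hb hab => gc_cfl D h2 (h3 a ha) (h3 b hb) hab) hE.2.1)
    (3 * Real.exp (-ra d q)) (by positivity)
    (by
      intro x hx _
      by_cases hX : x ∈ X0 D ω₀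
      · have h1 : cnt S (fun ω => Ech D (mix D.ev ω₀ ω) [x]) ≤ cnt S (fun _ => False) := by
          refine cnt_mono fun ω _ hE => ?_
          rw [Ech_iff D (mix_so _ _ _)] at hE
          refine hE.1 x (List.mem_singleton_self x) ?_
          unfold Del
          exact Finset.mem_union_left _ hX
        have h2 : cnt S (fun _ : V → Fin q × Fin q => False) = 0 := by
          unfold cnt
          simp
        rw [h2] at h1
        exact h1.trans (mul_nonneg (by positivity) (cnt_nonneg _ _))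
      · have h1 : cnt S (fun ω => Ech D (mix D.ev ω₀ ω) [x]) ≤ cnt S (fun ω => (fun a : Fin q × Fin q => a.2 ∉ D.B) (ω x)) := by
          refine cnt_mono fun ω _ hE => ?_
          rw [Ech_iff D (mix_so _ _ _)] at hE
          obtain ⟨-, -, ⟨s, hs, e3⟩, ⟨t, ht, e4⟩⟩ := hE
          simp only [List.head?_cons, Option.mem_def, Option.some.injEq] at hs
          simp only [List.getLast?_singleton, Option.mem_def, Option.some.injEq] at ht
          subst hs
          subst ht
          have h3 : mix D.ev ω₀ ω x = ω x := by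
            unfold mix
            rw [if_pos hx]
          rw [h3] at e3 e4
          exact s12_notB D e3 e4
        refine h1.trans ?_
        have h4 := cnt_site S x (fun a : Fin q × Fin q => a.2 ∉ D.B)
        have h5 : S x = Rv D.G (fo ω₀) x ×ˢ Rv D.G (go ω₀) x := by
          rw [hSdef]
          unfold Sx
          rw [if_pos hx]
        have h6 := site_rare D ω₀ hx hX
        rw [← h5] at h6
        have h7 : (0 : ℝ) < ((S x).card : ℕ) := by exact_mod_cast (hS.ne x).card_pos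
        refine le_of_mul_le_mul_right ?_ h7
        refine h4.le.trans ?_
        refine (mul_le_mul_of_nonneg_right ?_ (cnt_nonneg _ _)).trans_eq
          (show (3 * Real.exp (-ra d q) * (((S x).card : ℕ) : ℝ)) * cnt S (fun _ => True) = _ by ring)
        refine le_trans (le_of_eq ?_) h6
        refine congrArg (Nat.cast : ℕ → ℝ) (card_ext fun a => ?_)
        simp only [Finset.mem_filter])
    (by
      have h1 : 0 ≤ ra d q := by linarith
      have h2 : 2 * (1 + 4 * (6 * ra d q)) ≤ 10 ^ 5 := by linarith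
      have h3 : 0 ≤ 2 * (1 + 4 * (6 * ra d q)) := by positivity
      have h4 : (2 * (1 + 4 * (6 * ra d q))) ^ 2 ≤ 10 ^ 10 := by
        calc (2 * (1 + 4 * (6 * ra d q))) ^ 2 ≤ (10 ^ 5) ^ 2 := pow_le_pow_left₀ h3 h2 2
          _ = 10 ^ 10 := by norm_num
      have h5 : 4 * (2 * rh d q) ≤ 8 / 10 ^ 60 := by linarith
      have h6 : 0 ≤ 4 * (2 * rh d q) := by positivity
      have h7 : 4 * (2 * rh d q) * (2 * (1 + 4 * (6 * ra d q))) ≤ 8 / 10 ^ 60 * 10 ^ 5 :=
        mul_le_mul h5 h2 h3 (by norm_num)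
      have h8 : 4 * (2 * rh d q) * (2 * (1 + 4 * (6 * ra d q))) ^ 2 ≤ 8 / 10 ^ 60 * 10 ^ 10 :=
        mul_le_mul h5 h4 (by positivity) (by norm_num)
      have h9 : 4 * (3 * Real.exp (-ra d q)) ≤ 12 / 10 ^ 100 := by linarith
      refine le_trans (add_le_add h9 (add_le_add (mul_le_mul_of_nonneg_left h7 (by norm_num : (0 : ℝ) ≤ 2)) h8)) ?_
      norm_num)
  -- translation
  have hT : cnt S (fun _ => True) = ((cl D.G D.ev ω₀).card : ℝ) := by
    refine cnt_card fun ω => ?_
    rw [hcl]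
    simp
  have hmix : ∀ ω ∈ cl D.G D.ev ω₀, mix D.ev ω₀ ω = ω := by
    intro ω hω
    rw [hcl] at hω
    exact mix_mem D.G D.ev ω₀ ω (Fintype.mem_piFinset.1 hω)
  have hN : cnt S (fun ω => ∀ l ∈ Pth D, ¬ Ech D (mix D.ev ω₀ ω) l) =
      (((cl D.G D.ev ω₀).filter fun ω => NL D ω).card : ℝ) := by
    refine cnt_card fun ω => ?_
    rw [← hcl, Finset.mem_filter]
    refine and_congr_right fun hω => ?_
    rw [hmix ω hω]
    rfl
  have hEl : ∀ l, cnt S (fun ω => Ech D (mix D.ev ω₀ ω) l) =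
      (((cl D.G D.ev ω₀).filter fun ω => Ech D ω l).card : ℝ) := by
    intro l
    refine cnt_card fun ω => ?_
    rw [← hcl, Finset.mem_filter]
    refine and_congr_right fun hω => ?_
    rw [hmix ω hω]
  have hW : ∑ l ∈ Pth D, 4 ^ (l.filter fun s => D.ev s).length *
      (cnt S (fun ω => Ech D (mix D.ev ω₀ ω) l) / cnt S fun _ => True) = Wcl D ω₀ := by
    unfold Wcl wch
    rw [Finset.sum_comm, Finset.sum_div]
    refine Finset.sum_congr rfl fun l _ => ?_
    rw [hEl, hT, ← Finset.sum_filter, Finset.sum_const, nsmul_eq_mul]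
    unfold evl
    ring
  rw [hW, hN, hT] at hmain
  exact hmain

end

end Pool.Agent.LC3
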