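import Pool.Agent.Lib_MP_2c424f_lc3.T10
import Pool.Agent.Lib_MP_2c424f_lc3.T00

/-!
# Part III, T13: expected number of generic paths

`paths_sum` (file `PercB.lean`) with `c = 4` and `T10`, `S = Sx G ev ω₀`; for `ω ∈ cl G ev ω₀` (`cl_eq`) and `gen D ω l` all consecutive pairs of `l` are
`cfl D.ev (cfB D ω₀) ω`-related (as in `T12`; `X0_so`).  `(2 (4 · 2 ρ) + 4 ρ + 4 · 2 ρ · (4 · 6 a)) ≤ 10^{-50}`, `4 ρ ≤ 10^{-50}` (`num_e`, `num_a`).
-/

set_option autoImplicit false

open Finset Filter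

namespace Pool.Agent.LC3

open Pool.Agent.LO Pool.Agent.LIN Pool.Agent.THR Pool.Agent.COR Pool.Agent.LC

section
variable {V : Type} [Fintype V] [DecidableEq V] {d q j : ℕ}

private theorem T13_chain (D : Bal V d q j) {ω₀ ω : V → Fin q × Fin q} (hso : so D.ev ω ω₀) :
    ∀ l : List V, (∀ s ∈ l, s ∉ X0 D ω) → l.IsChain (gc D ω) → l.IsChain (cfl D.ev (cfB D ω₀) ω) := by
  have hX : X0 D ω = X0 D ω₀ := X0_so D hso
  intro l
  induction l with
  | nil => intro _ _; exact List.isChain_nil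
  | cons s l ih =>
    cases l with
    | nil => intro _ _; exact List.isChain_singleton _
    | cons t l =>
      intro h1 h2
      rw [List.isChain_cons_cons] at h2 ⊢
      refine ⟨?_, ih (fun x hx => h1 x (List.mem_cons_of_mem _ hx)) h2.2⟩
      have hs : s ∉ X0 D ω₀ := by rw [← hX]; exact h1 s (by simp)
      have ht : t ∉ X0 D ω₀ := by rw [← hX]; exact h1 t (by simp)
      obtain ⟨hadj, hc⟩ := h2.1
      by_cases hev : D.ev s
      · have hnt : ¬ D.ev t := (D.par s t hadj).1 hev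
        have e : ω t = ω₀ t := hso t hnt
        refine Or.inl ⟨hev, hnt, hadj, hs, ht, ?_⟩
        rcases hc with ⟨h3, h4⟩ | ⟨h3, h4⟩
        · exact Or.inl ⟨by rw [h3, e]; rfl, h4⟩
        · exact Or.inr ⟨by rw [h3, e]; rfl, h4⟩
      · have het : D.ev t := by
          by_contra hnt
          exact hev ((D.par s t hadj).2 hnt)
        have e : ω s = ω₀ s := hso s hev
        refine Or.inr ⟨hev, het, hadj.symm, ht, hs, ?_⟩
        rcases hc with ⟨h3, h4⟩ | ⟨h3, h4⟩
        · exact Or.inr ⟨by rw [← h3, e]; rfl, by rw [← h3]; exact h4⟩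
        · exact Or.inl ⟨by rw [← h3, e]; rfl, by rw [← h3]; exact h4⟩

open scoped Classical in
theorem gen_sum (D : Bal V d q j) {ω₀ : V → Fin q × Fin q} (h : PrP D.G ω₀) (n : ℕ) :
    ∑ ω ∈ cl D.G D.ev ω₀, ∑ l ∈ (Pth D).filter (fun l => l.length = n + 2), (if gen D ω l then (4 : ℝ) ^ evl D l else 0) ≤
      (Fintype.card V : ℝ) * ((1 / 10 ^ 50) * (1 / 10 ^ 50) ^ (n / 2)) * ((cl D.G D.ev ω₀).card : ℝ) := by
  have hd : 1 ≤ d := le_trans (by norm_num) D.dl
  have hS := pker D h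
  have hK := ker D ω₀
  have ha := num_a D.rg hd
  have he := (num_e D.rg hd).2.2
  have hr0 : 0 ≤ rh d q := hK.r0
  have hcl := cl_eq D.G D.ev D.par ω₀
  have htop := cnt_true_pos hS.ne
  have hcc : cnt (Sx D.G D.ev ω₀) (fun _ => True) = ((cl D.G D.ev ω₀).card : ℝ) := by
    rw [hcl]
    simp [cnt]
  set A := (Pth D).filter (fun l => l.length = n + 2) with hA
  have hAm : ∀ l ∈ A, l.Nodup ∧ l.length = n + 2 := by
    intro l hl
    rw [hA, Finset.mem_filter] at hl
    refine ⟨?_, hl.2⟩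
    have h1 := hl.1
    rw [Pth, Finset.mem_filter] at h1
    exact h1.2.1
  have hmain := paths_sum hS hK 4 (by norm_num) n A hAm
  rw [Finset.sum_comm]
  have h1 : ∀ l ∈ A, ∑ ω ∈ cl D.G D.ev ω₀, (if gen D ω l then (4 : ℝ) ^ evl D l else 0) ≤
      (4 : ℝ) ^ (l.filter fun s => D.ev s).length *
        (cnt (Sx D.G D.ev ω₀) (fun ω => l.IsChain (cfl D.ev (cfB D ω₀) ω)) /
          cnt (Sx D.G D.ev ω₀) fun _ => True) * ((cl D.G D.ev ω₀).card : ℝ) := by
    intro l hl
    rw [← Finset.sum_filter, Finset.sum_const, nsmul_eq_mul, mul_assoc, ← hcc, div_mul_cancel₀ _ htop.ne',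
      mul_comm]
    refine mul_le_mul_of_nonneg_left ?_ (by positivity)
    rw [cnt, ← hcl]
    refine Nat.cast_le.2 (Finset.card_le_card ?_)
    intro ω hω
    rw [Finset.mem_filter] at hω
    have h2 := hω.1
    rw [cl, Finset.mem_filter] at h2
    have h3 := T13_chain D h2.2.2 l hω.2.1 hω.2.2
    simp only [Finset.mem_filter]
    exact ⟨hω.1, h3⟩
  refine (Finset.sum_le_sum h1).trans ?_
  rw [← Finset.sum_mul]
  refine mul_le_mul_of_nonneg_right (hmain.trans ?_) (Nat.cast_nonneg _)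
  refine mul_le_mul_of_nonneg_left ?_ (Nat.cast_nonneg _)
  have h3 : 2 * (4 * (2 * rh d q)) + 4 * rh d q + 4 * (2 * rh d q) * (4 * (6 * ra d q)) ≤ 1 / 10 ^ 50 := by
    have h4 : rh d q * ra d q ≤ rh d q * 2000 := mul_le_mul_of_nonneg_left ha.2 hr0
    have h5 : 2 * (4 * (2 * rh d q)) + 4 * rh d q + 4 * (2 * rh d q) * (4 * (6 * ra d q)) ≤
        400000 * rh d q := by nlinarith
    refine h5.trans ((mul_le_mul_of_nonneg_left he (by norm_num)).trans ?_)
    norm_num
  have h6 : 4 * rh d q ≤ 1 / 10 ^ 50 := by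
    refine (mul_le_mul_of_nonneg_left he (by norm_num)).trans ?_
    norm_num
  exact mul_le_mul h3 (pow_le_pow_left₀ (by positivity) h6 _) (by positivity) (by positivity)

end

end Pool.Agent.LC3
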