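import Pool.Agent.Lib_MP_2c424f_lc3.T00

/-!
# Part III, T14: the first colouring rarely has a colour of `A` at an odd vertex; `X0` is small

`ω ∈ OM`: `TTo` for `(f, A)` and `(g, B)`.
`nA_le`: `2 d #{y odd : f y ∈ A} = ∑_{x even} #{y ~ x : f y ∈ A}` (double counting; `deg`, `par`).  If `TyE` holds at `x`: `#{y ~ x : f y ∈ A} = ∑_{c ∈ A} nv ≤ ∑_{c ∈ A} nv^2 ≤ e^{-a/2} q` (E4);
otherwise it is at most `2 d`, for at most `N / d^6` vertices.  So `#{…} ≤ N e^{-a/2} q / (4 d) + N / d^6 ≤ N / 10^50` (`d ≥ 10^10`, `num_e`, `q ≤ d`).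
`X0_card`: an element of `X0` is an even `v` with `¬ TyE` for `(f, A)` or `(g, B)`, or an odd `v` with `¬ TyO` for one of them, or an odd neighbour of an even vertex of the first kind
(degrees are `2 d`): at most `(2 + 4 d) N / d^6 ≤ 6 N / d^5`.
-/

set_option autoImplicit false

open Finset Filter

namespace Pool.Agent.LC3

open Pool.Agent.LO Pool.Agent.LIN Pool.Agent.THR Pool.Agent.COR Pool.Agent.LC

section
variable {V : Type} [Fintype V] [DecidableEq V] {d q j : ℕ}

omit [DecidableEq V] in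
open scoped Classical in
private theorem mem_nb14 (X : SimpleGraph V) (v x : V) : x ∈ nb X v ↔ X.Adj v x := by
  unfold nb
  simp

open scoped Classical in
private theorem om14 (D : Bal V d q j) {ω : V → Fin q × Fin q} (hω : ω ∈ OM D) :
    TTo d D.G D.ev D.A (fo ω) ∧ TTo d D.G D.ev D.B (go ω) := by
  unfold OM at hω
  rw [mem_filter] at hω
  exact ⟨hω.2.2.1, hω.2.2.2⟩

omit [DecidableEq V] in
open scoped Classical in
/-- neighbours of an even vertex with a colour of `A` -/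
private theorem fib14 (D : Bal V d q j) (F : V → Fin q) (x : V) :
    ((univ.filter fun y => D.G.Adj x y ∧ F y ∈ D.A).card : ℝ) = ∑ c ∈ D.A, (nv D.G F x c : ℝ) := by
  have h := Finset.card_eq_sum_card_fiberwise (s := univ.filter fun y => D.G.Adj x y ∧ F y ∈ D.A) (t := D.A)
    (f := F) (by
      intro y hy
      have hy' : y ∈ (univ.filter fun y => D.G.Adj x y ∧ F y ∈ D.A) := hy
      rw [mem_filter] at hy'
      exact hy'.2.2)
  rw [h]
  push_cast
  refine Finset.sum_congr rfl fun c hc => ?_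
  unfold nv
  congr 2
  ext y
  simp only [mem_filter, mem_univ, true_and]
  constructor
  · rintro ⟨⟨h1, _⟩, h3⟩
    exact ⟨h1, h3⟩
  · rintro ⟨h1, h3⟩
    exact ⟨⟨h1, by rw [h3]; exact hc⟩, h3⟩

omit [DecidableEq V] in
open scoped Classical in
private theorem loc14 (D : Bal V d q j) (F : V → Fin q) {x : V} (hx : D.ev x) :
    ((univ.filter fun y => D.G.Adj x y ∧ F y ∈ D.A).card : ℝ) ≤
      Real.exp (-ra d q / 2) * q + if TyE d D.G D.ev D.A F x then 0 else (2 * d : ℝ) := by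
  have he : (0 : ℝ) ≤ Real.exp (-ra d q / 2) * q := by positivity
  split_ifs with hT
  · rw [fib14 D F x, add_zero]
    calc ∑ c ∈ D.A, (nv D.G F x c : ℝ) ≤ ∑ c ∈ D.A, (nv D.G F x c : ℝ) ^ 2 := by
          refine Finset.sum_le_sum fun c _ => ?_
          exact_mod_cast Nat.le_self_pow (by norm_num) _
      _ ≤ ∑ c ∈ univ.filter (fun c => tS D.ev D.A x c), (nv D.G F x c : ℝ) ^ 2 := by
          refine Finset.sum_le_sum_of_subset_of_nonneg ?_ fun _ _ _ => by positivity
          intro c hc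
          rw [mem_filter]
          exact ⟨mem_univ _, ⟨fun _ => hc, fun _ => hx⟩⟩
      _ ≤ Real.exp (-ra d q / 2) * q := hT.e4
  · have h1 : (univ.filter fun y => D.G.Adj x y ∧ F y ∈ D.A).card ≤ (nb D.G x).card := by
      refine Finset.card_le_card fun y hy => ?_
      rw [mem_filter] at hy
      rw [mem_nb14]
      exact hy.2.1
    rw [D.deg x] at h1
    have h2 : ((univ.filter fun y => D.G.Adj x y ∧ F y ∈ D.A).card : ℝ) ≤ ((2 * d : ℕ) : ℝ) := by exact_mod_cast h1
    push_cast at h2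
    linarith

omit [DecidableEq V] in
open scoped Classical in
/-- double counting -/
private theorem dbl14 (D : Bal V d q j) (F : V → Fin q) :
    (2 * d : ℝ) * ((univ.filter fun v => ¬ D.ev v ∧ F v ∈ D.A).card : ℝ) ≤
      ∑ x ∈ univ.filter (fun x => D.ev x), ((univ.filter fun y => D.G.Adj x y ∧ F y ∈ D.A).card : ℝ) := by
  have h1 : (2 * d : ℝ) * ((univ.filter fun v => ¬ D.ev v ∧ F v ∈ D.A).card : ℝ) =
      ∑ y ∈ univ.filter (fun v => ¬ D.ev v ∧ F v ∈ D.A), ((nb D.G y).card : ℝ) := by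
    rw [Finset.sum_congr rfl fun y _ => by rw [D.deg y], Finset.sum_const, nsmul_eq_mul]
    push_cast
    ring
  have h2 : ∀ y ∈ univ.filter (fun v => ¬ D.ev v ∧ F v ∈ D.A), ((nb D.G y).card : ℝ) =
      ∑ x ∈ univ.filter (fun x => D.ev x), if D.G.Adj x y then (1 : ℝ) else 0 := by
    intro y hy
    rw [mem_filter] at hy
    rw [Finset.sum_boole]
    congr 2
    ext x
    rw [mem_nb14, mem_filter, mem_filter]
    constructor
    · intro h
      exact ⟨⟨mem_univ _, ((D.par x y h.symm).2 hy.2.1)⟩, h.symm⟩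
    · intro h
      exact h.2.symm
  rw [h1, Finset.sum_congr rfl h2, Finset.sum_comm]
  refine Finset.sum_le_sum fun x _ => ?_
  rw [Finset.sum_boole]
  have : ((univ.filter (fun v => ¬ D.ev v ∧ F v ∈ D.A)).filter fun y => D.G.Adj x y).card ≤
      (univ.filter fun y => D.G.Adj x y ∧ F y ∈ D.A).card := by
    refine Finset.card_le_card fun y hy => ?_
    rw [mem_filter, mem_filter] at hy
    rw [mem_filter]
    exact ⟨mem_univ _, hy.2, hy.1.2.2⟩
  exact_mod_cast this

theorem nA_le (D : Bal V d q j) {ω : V → Fin q × Fin q} (hω : ω ∈ OM D) :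
    nJ D D.A ω ≤ (Fintype.card V : ℝ) / 10 ^ 50 := by
  classical
  have hT := (om14 D hω).1
  have hd0 : 1 ≤ d := le_trans (by norm_num) D.dl
  obtain ⟨hq1, hq2, _⟩ := num_q D.rg hd0
  obtain ⟨_, he, _⟩ := num_e D.rg hd0
  have hdR : (10 : ℝ) ^ 10 ≤ d := by exact_mod_cast D.dl
  have hd : (0 : ℝ) < d := lt_of_lt_of_le (by norm_num) hdR
  have hqd : (q : ℝ) ≤ d := by
    have : q ≤ d := by omega
    exact_mod_cast this
  have hN : (0 : ℝ) ≤ (Fintype.card V : ℝ) := Nat.cast_nonneg _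
  -- number of the bad even vertices
  have hbad : (((univ.filter (fun x => D.ev x)).filter fun x => ¬ TyE d D.G D.ev D.A (fo ω) x).card : ℝ) ≤
      (Fintype.card V : ℝ) / (d : ℝ) ^ 6 := by
    unfold TTo at hT
    refine le_trans ?_ hT
    have : ((univ.filter (fun x => D.ev x)).filter fun x => ¬ TyE d D.G D.ev D.A (fo ω) x).card ≤
        (univ.filter fun v => (D.ev v ∧ ¬ TyE d D.G D.ev D.A (fo ω) v) ∨
          (¬ D.ev v ∧ ¬ TyO d D.G D.ev D.A (fo ω) v)).card := by
      refine Finset.card_le_card fun y hy => ?_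
      rw [mem_filter, mem_filter] at hy
      rw [mem_filter]
      exact ⟨mem_univ _, Or.inl ⟨hy.1.2, hy.2⟩⟩
    exact_mod_cast this
  have hev : ((univ.filter fun x => D.ev x).card : ℝ) ≤ (Fintype.card V : ℝ) := by
    have := Finset.card_le_univ (univ.filter fun x => D.ev x)
    exact_mod_cast this
  have hdb := dbl14 D (fo ω)
  have hs : ∑ x ∈ univ.filter (fun x => D.ev x), ((univ.filter fun y => D.G.Adj x y ∧ fo ω y ∈ D.A).card : ℝ) ≤
      (Fintype.card V : ℝ) * (1 / 10 ^ 100 * d) + (Fintype.card V : ℝ) / (d : ℝ) ^ 6 * (2 * d) := by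
    calc ∑ x ∈ univ.filter (fun x => D.ev x), ((univ.filter fun y => D.G.Adj x y ∧ fo ω y ∈ D.A).card : ℝ)
        ≤ ∑ x ∈ univ.filter (fun x => D.ev x), (Real.exp (-ra d q / 2) * q +
            if TyE d D.G D.ev D.A (fo ω) x then 0 else (2 * d : ℝ)) := by
          refine Finset.sum_le_sum fun x hx => ?_
          rw [mem_filter] at hx
          exact loc14 D (fo ω) hx.2
      _ = ((univ.filter fun x => D.ev x).card : ℝ) * (Real.exp (-ra d q / 2) * q) +
          (((univ.filter (fun x => D.ev x)).filter fun x => ¬ TyE d D.G D.ev D.A (fo ω) x).card : ℝ) * (2 * d) := by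
          rw [Finset.sum_add_distrib, Finset.sum_const, nsmul_eq_mul, Finset.sum_ite, Finset.sum_const_zero,
            zero_add, Finset.sum_const, nsmul_eq_mul]
      _ ≤ (Fintype.card V : ℝ) * (1 / 10 ^ 100 * d) + (Fintype.card V : ℝ) / (d : ℝ) ^ 6 * (2 * d) := by
          refine add_le_add ?_ ?_
          · refine mul_le_mul hev (mul_le_mul he hqd (Nat.cast_nonneg _) (by positivity)) (by positivity) hN
          · exact mul_le_mul_of_nonneg_right hbad (by positivity)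
  have h6 : (Fintype.card V : ℝ) / (d : ℝ) ^ 6 ≤ (Fintype.card V : ℝ) / 10 ^ 60 := by
    refine div_le_div_of_nonneg_left hN (by positivity) ?_
    calc (10 : ℝ) ^ 60 = (10 ^ 10) ^ 6 := by norm_num
      _ ≤ (d : ℝ) ^ 6 := by gcongr
  have hfin : (2 * d : ℝ) * nJ D D.A ω ≤ (2 * d : ℝ) * ((Fintype.card V : ℝ) / 10 ^ 50) := by
    have h1 : (2 * d : ℝ) * nJ D D.A ω ≤
        (Fintype.card V : ℝ) * (1 / 10 ^ 100 * d) + (Fintype.card V : ℝ) / (d : ℝ) ^ 6 * (2 * d) := by
      have h2 := le_trans hdb hs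
      unfold nJ
      unfold fo at h2
      convert h2 using 2
    refine le_trans h1 ?_
    have h3 : (Fintype.card V : ℝ) / (d : ℝ) ^ 6 * (2 * d) ≤ (Fintype.card V : ℝ) / 10 ^ 60 * (2 * d) :=
      mul_le_mul_of_nonneg_right h6 (by positivity)
    have h4 : 0 ≤ (Fintype.card V : ℝ) * d := by positivity
    have h5 : (Fintype.card V : ℝ) * (1 / 10 ^ 100 * d) + (Fintype.card V : ℝ) / 10 ^ 60 * (2 * d) =
        ((Fintype.card V : ℝ) * d) * (1 / 10 ^ 100 + 2 / 10 ^ 60) := by ring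
    have h7 : (2 * d : ℝ) * ((Fintype.card V : ℝ) / 10 ^ 50) = ((Fintype.card V : ℝ) * d) * (2 / 10 ^ 50) := by ring
    rw [h7]
    calc (Fintype.card V : ℝ) * (1 / 10 ^ 100 * d) + (Fintype.card V : ℝ) / (d : ℝ) ^ 6 * (2 * d)
        ≤ (Fintype.card V : ℝ) * (1 / 10 ^ 100 * d) + (Fintype.card V : ℝ) / 10 ^ 60 * (2 * d) := by linarith
      _ = ((Fintype.card V : ℝ) * d) * (1 / 10 ^ 100 + 2 / 10 ^ 60) := h5
      _ ≤ ((Fintype.card V : ℝ) * d) * (2 / 10 ^ 50) := mul_le_mul_of_nonneg_left (by norm_num) h4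
  exact le_of_mul_le_mul_left hfin (by positivity)

theorem X0_card (D : Bal V d q j) {ω : V → Fin q × Fin q} (hω : ω ∈ OM D) :
    ((X0 D ω).card : ℝ) ≤ 6 * (Fintype.card V : ℝ) / (d : ℝ) ^ 5 := by
  classical
  obtain ⟨hA, hB⟩ := om14 D hω
  have hdR : (10 : ℝ) ^ 10 ≤ d := by exact_mod_cast D.dl
  have hd : (0 : ℝ) < d := lt_of_lt_of_le (by norm_num) hdR
  have hN : (0 : ℝ) ≤ (Fintype.card V : ℝ) := Nat.cast_nonneg _
  obtain ⟨BA, hBA⟩ : ∃ S : Finset V, S = univ.filter fun v => (D.ev v ∧ ¬ TyE d D.G D.ev D.A (fo ω) v) ∨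
      (¬ D.ev v ∧ ¬ TyO d D.G D.ev D.A (fo ω) v) := ⟨_, rfl⟩
  obtain ⟨BB, hBB⟩ : ∃ S : Finset V, S = univ.filter fun v => (D.ev v ∧ ¬ TyE d D.G D.ev D.B (go ω) v) ∨
      (¬ D.ev v ∧ ¬ TyO d D.G D.ev D.B (go ω) v) := ⟨_, rfl⟩
  have mA : ∀ v, v ∈ BA ↔ (D.ev v ∧ ¬ TyE d D.G D.ev D.A (fo ω) v) ∨
      (¬ D.ev v ∧ ¬ TyO d D.G D.ev D.A (fo ω) v) := by
    intro v
    rw [hBA, mem_filter]
    exact ⟨fun h => h.2, fun h => ⟨mem_univ _, h⟩⟩
  have mB : ∀ v, v ∈ BB ↔ (D.ev v ∧ ¬ TyE d D.G D.ev D.B (go ω) v) ∨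
      (¬ D.ev v ∧ ¬ TyO d D.G D.ev D.B (go ω) v) := by
    intro v
    rw [hBB, mem_filter]
    exact ⟨fun h => h.2, fun h => ⟨mem_univ _, h⟩⟩
  have cA : (BA.card : ℝ) ≤ (Fintype.card V : ℝ) / (d : ℝ) ^ 6 := by
    unfold TTo at hA
    rw [hBA]
    convert hA using 2
  have cB : (BB.card : ℝ) ≤ (Fintype.card V : ℝ) / (d : ℝ) ^ 6 := by
    unfold TTo at hB
    rw [hBB]
    convert hB using 2
  have hsub : X0 D ω ⊆ (BA ∪ BB) ∪ (BA ∪ BB).biUnion fun x => nb D.G x := by
    intro v hv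
    unfold X0 at hv
    rw [mem_filter] at hv
    rw [mem_union]
    rcases hv.2 with ⟨hev, hT⟩ | ⟨hev, hc⟩
    · left
      rw [mem_union, mA, mB]
      by_cases h1 : TyE d D.G D.ev D.A (fo ω) v
      · right; left
        exact ⟨hev, fun h2 => hT ⟨h1, h2⟩⟩
      · left; left
        exact ⟨hev, h1⟩
    · by_cases h1 : TyO d D.G D.ev D.A (fo ω) v
      · by_cases h2 : TyO d D.G D.ev D.B (go ω) v
        · right
          by_contra hno
          refine hc ⟨⟨h1, h2, (D.deg v).le⟩, fun x hx => ?_⟩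
          rw [mem_nb14] at hx
          have hex : D.ev x := by
            by_contra hx'
            exact hev ((D.par v x hx).2 hx')
          have hxn : v ∈ nb D.G x := by
            rw [mem_nb14]
            exact hx.symm
          refine ⟨?_, ?_, (D.deg x).le⟩
          · by_contra h3
            exact hno (mem_biUnion.2 ⟨x, mem_union_left _ ((mA x).2 (Or.inl ⟨hex, h3⟩)), hxn⟩)
          · by_contra h3
            exact hno (mem_biUnion.2 ⟨x, mem_union_right _ ((mB x).2 (Or.inl ⟨hex, h3⟩)), hxn⟩)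
        · left
          rw [mem_union, mA, mB]
          right; right
          exact ⟨hev, h2⟩
      · left
        rw [mem_union, mA, mB]
        left; right
        exact ⟨hev, h1⟩
  have hc1 : (X0 D ω).card ≤ (BA ∪ BB).card + (BA ∪ BB).card * (2 * d) := by
    refine le_trans (Finset.card_le_card hsub) (le_trans (Finset.card_union_le _ _) ?_)
    refine Nat.add_le_add_left ?_ _
    refine Finset.card_biUnion_le_card_mul _ _ _ fun x _ => ?_
    exact (D.deg x).le
  have hc2 : (BA ∪ BB).card ≤ BA.card + BB.card := Finset.card_union_le _ _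
  have hc3 : ((X0 D ω).card : ℝ) ≤ ((BA.card : ℝ) + BB.card) * (1 + 2 * d) := by
    have h1 : ((X0 D ω).card : ℝ) ≤ ((BA ∪ BB).card : ℝ) + ((BA ∪ BB).card : ℝ) * (2 * d) := by exact_mod_cast hc1
    have h2 : ((BA ∪ BB).card : ℝ) ≤ (BA.card : ℝ) + BB.card := by exact_mod_cast hc2
    calc ((X0 D ω).card : ℝ) ≤ ((BA ∪ BB).card : ℝ) * (1 + 2 * d) := by linarith
      _ ≤ ((BA.card : ℝ) + BB.card) * (1 + 2 * d) := mul_le_mul_of_nonneg_right h2 (by positivity)
  have hd1 : (1 : ℝ) ≤ d := le_trans (by norm_num) hdR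
  calc ((X0 D ω).card : ℝ) ≤ ((BA.card : ℝ) + BB.card) * (1 + 2 * d) := hc3
    _ ≤ ((Fintype.card V : ℝ) / (d : ℝ) ^ 6 + (Fintype.card V : ℝ) / (d : ℝ) ^ 6) * (1 + 2 * d) :=
        mul_le_mul_of_nonneg_right (add_le_add cA cB) (by positivity)
    _ ≤ ((Fintype.card V : ℝ) / (d : ℝ) ^ 6 + (Fintype.card V : ℝ) / (d : ℝ) ^ 6) * (3 * d) :=
        mul_le_mul_of_nonneg_left (by linarith) (by positivity)
    _ = 6 * (Fintype.card V : ℝ) / (d : ℝ) ^ 5 := by
        field_simp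
        ring

end

end Pool.Agent.LC3
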