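import Pool.Agent.Lib_MP_2c424f_lc3.T07
import Pool.Agent.Lib_MP_2c424f_lc3.T13

/-!
# Part III, T15: expected number of chains with a given length

Exchange the sums.  `Ech D ω l` implies `gen D ω l` (`X0 ⊆ Del`), so the second bound follows from `gen_sum` and `sum_cl_le` (`Ω = OM D`, `OM_cl`).
First bound: `chain_count` for every `l`, `|l| = n + 2 ≤ q/20`, `|B| ≥ 0.48 q`: `4 j^2 / (|B| - |l|)^2 ≤ 25 (j/q)^2`.
-/

set_option autoImplicit false

open Finset Filter

namespace Pool.Agent.LC3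

open Pool.Agent.LO Pool.Agent.LIN Pool.Agent.THR Pool.Agent.COR Pool.Agent.LC

section
variable {V : Type} [Fintype V] [DecidableEq V] {d q j : ℕ}

private theorem T15_gen (D : Bal V d q j) {ω : V → Fin q × Fin q} {l : List V} (h : Ech D ω l) : gen D ω l := by
  refine ⟨fun s hs hx => h.1 s hs ?_, h.2.1⟩
  unfold Del
  exact Finset.mem_union_left _ hx

open scoped Classical in
private theorem T15_OM (D : Bal V d q j) (ω : V → Fin q × Fin q) (hω : ω ∈ OM D) : PrP D.G ω := by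
  unfold OM at hω
  exact (Finset.mem_filter.1 hω).2.1

open scoped Classical in
private theorem T15_gsum (D : Bal V d q j) (n : ℕ) :
    ∑ ω ∈ OM D, ∑ l ∈ (Pth D).filter (fun l => l.length = n + 2), (if gen D ω l then (4 : ℝ) ^ evl D l else 0) ≤
      (Fintype.card V : ℝ) * ((1 / 10 ^ 50) * (1 / 10 ^ 50) ^ (n / 2)) * ((OM D).card : ℝ) :=
  sum_cl_le D.G D.ev (OM D) (T15_OM D) (fun _ hω => OM_cl D hω)
    (fun ω => ∑ l ∈ (Pth D).filter (fun l => l.length = n + 2), (if gen D ω l then (4 : ℝ) ^ evl D l else 0))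
    ((Fintype.card V : ℝ) * ((1 / 10 ^ 50) * (1 / 10 ^ 50) ^ (n / 2)))
    (fun ω hω => gen_sum D (T15_OM D ω hω) n)

open scoped Classical in
private theorem T15_count (D : Bal V d q j) (P : (V → Fin q × Fin q) → Prop) (c : ℝ) :
    ∑ ω ∈ OM D, (if P ω then c else 0) = c * (((OM D).filter P).card : ℝ) := by
  rw [← Finset.sum_filter, Finset.sum_const, nsmul_eq_mul, mul_comm]

private theorem T15_num {x b n j q : ℝ} (hx : 0 ≤ x) (hn : 0 ≤ n) (hq : 0 < q) (hb : 43 / 100 * q ≤ b)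
    (h : x * b ^ 2 ≤ 4 * j ^ 2 * n) : x ≤ 25 * (j / q) ^ 2 * n := by
  have h1 : (43 / 100 * q) ^ 2 ≤ b ^ 2 := pow_le_pow_left₀ (by positivity) hb 2
  have h2 : x * (43 / 100 * q) ^ 2 ≤ 4 * j ^ 2 * n := (mul_le_mul_of_nonneg_left h1 hx).trans h
  have h3 : (25 : ℝ) * (j / q) ^ 2 * n = 25 * (j ^ 2 * n) / q ^ 2 := by
    rw [div_pow]
    ring
  rw [h3, le_div_iff₀ (by positivity)]
  have h4 : 0 ≤ j ^ 2 * n := by positivity
  nlinarith [h2, h4]

open scoped Classical in
private theorem T15_one (D : Bal V d q j) (n : ℕ) (hn : 20 * (n + 2) ≤ q) (l : List V)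
    (hl : l.Nodup) (hle : l.length = n + 2) :
    (((OM D).filter fun ω => Ech D ω l).card : ℝ) ≤
      25 * ((j : ℝ) / q) ^ 2 * (((OM D).filter fun ω => gen D ω l).card : ℝ) := by
  have hB := (card_B D).2
  have hn' : (20 : ℝ) * ((n : ℝ) + 2) ≤ q := by exact_mod_cast hn
  have hq : (0 : ℝ) < q := by
    have h0 : (0 : ℝ) ≤ n := Nat.cast_nonneg n
    linarith
  have hlr : (l.length : ℝ) = (n : ℝ) + 2 := by
    rw [hle]
    push_cast
    ring
  have h1 : (43 : ℝ) / 100 * q ≤ (D.B.card : ℝ) - l.length := by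
    rw [hlr]
    linarith
  have h2 : l.length ≤ D.B.card := by
    have h3 : (l.length : ℝ) ≤ (D.B.card : ℝ) := by linarith
    exact_mod_cast h3
  exact T15_num (Nat.cast_nonneg _) (Nat.cast_nonneg _) hq h1 (chain_count D l hl (by omega) h2)

open scoped Classical in
theorem ech_long (D : Bal V d q j) (n : ℕ) :
    ∑ ω ∈ OM D, ∑ l ∈ (Pth D).filter (fun l => l.length = n + 2), (if Ech D ω l then (4 : ℝ) ^ evl D l else 0) ≤
      (Fintype.card V : ℝ) * ((1 / 10 ^ 50) * (1 / 10 ^ 50) ^ (n / 2)) * ((OM D).card : ℝ) := by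
  refine (Finset.sum_le_sum fun ω _ => Finset.sum_le_sum fun l _ => ?_).trans (T15_gsum D n)
  by_cases h : Ech D ω l
  · rw [if_pos h, if_pos (T15_gen D h)]
  · rw [if_neg h]
    split_ifs
    · positivity
    · exact le_refl 0

open scoped Classical in
theorem ech_short (D : Bal V d q j) (n : ℕ) (hn : 20 * (n + 2) ≤ q) :
    ∑ ω ∈ OM D, ∑ l ∈ (Pth D).filter (fun l => l.length = n + 2), (if Ech D ω l then (4 : ℝ) ^ evl D l else 0) ≤
      25 * ((j : ℝ) / q) ^ 2 * ((Fintype.card V : ℝ) * ((1 / 10 ^ 50) * (1 / 10 ^ 50) ^ (n / 2)) * ((OM D).card : ℝ)) := by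
  refine le_trans ?_ (mul_le_mul_of_nonneg_left (T15_gsum D n) (by positivity))
  rw [Finset.sum_comm, Finset.sum_comm (s := OM D), Finset.mul_sum]
  refine Finset.sum_le_sum fun l hl => ?_
  rw [T15_count, T15_count]
  have hl1 := Finset.mem_filter.1 hl
  have hnd : l.Nodup := by
    have h1 := hl1.1
    unfold Pth at h1
    exact (Finset.mem_filter.1 h1).2.1
  have h2 := mul_le_mul_of_nonneg_left (T15_one D n hn l hnd hl1.2)
    (by positivity : (0 : ℝ) ≤ (4 : ℝ) ^ evl D l)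
  refine h2.trans (le_of_eq ?_)
  ring

end

end Pool.Agent.LC3
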