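import Pool.Agent.Lib_MP_2c424f_lc3.T08
import Pool.Agent.Lib_MP_2c424f_lc3.T11
import Pool.Agent.Lib_MP_2c424f_lc3.T15

/-!
# Part III, T16: expected number of all chains

`wch` = sum over the lengths `1` and `n + 2`, `n + 2 ≤ |V|` (the empty list is not in `Pth`).
Length 1: `l = [x]`, `x` even, `Ech` implies `x ∉ X0`, `s1`, `s2`; weight 4; `even_count`, `rare_sum`, `|B| - 1 ≥ 0.47 q`, `|V|/2` (at most `|V|`) vertices, `e^{-a} ≤ 10^{-100}`.
Lengths `n + 2 ≤ q/20`: `ech_short`, `∑_n 10^{-50} (10^{-50})^{⌊n/2⌋} ≤ 3 · 10^{-50}`.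
Lengths `n + 2 > q/20`: `ech_long`; `∑_{n + 2 > q/20} (10^{-50})^{⌊n/2⌋} ≤ 3 (10^{-50})^{q/50} ≤ 1/q^2 ≤ (j/q)^2` (`q ≥ 10^7`, because `d ≥ 10^10`, `num_q`).
-/

set_option autoImplicit false

open Finset Filter

namespace Pool.Agent.LC3

open Pool.Agent.LO Pool.Agent.LIN Pool.Agent.THR Pool.Agent.COR Pool.Agent.LC

private theorem geo_le {r : ℝ} (h0 : 0 ≤ r) (h1 : r ≤ 1 / 10) (k : ℕ) :
    ∑ m ∈ range k, r ^ m + 10 / 9 * r ^ k ≤ 10 / 9 := by
  induction k with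
  | zero => simp
  | succ k ih =>
    rw [Finset.sum_range_succ, pow_succ]
    have h2 : 0 ≤ r ^ k := pow_nonneg h0 _
    nlinarith

private theorem geo_half {r : ℝ} (h0 : 0 ≤ r) (h1 : r ≤ 1 / 10) (N : ℕ) :
    ∑ n ∈ range N, r ^ (n / 2) ≤ 3 := by
  have h2 : ∀ k : ℕ, ∑ n ∈ range (2 * k), r ^ (n / 2) = 2 * ∑ m ∈ range k, r ^ m := by
    intro k
    induction k with
    | zero => simp
    | succ k ih =>
      rw [show 2 * (k + 1) = 2 * k + 1 + 1 from rfl, Finset.sum_range_succ, Finset.sum_range_succ, ih,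
        Finset.sum_range_succ, show 2 * k / 2 = k by omega, show (2 * k + 1) / 2 = k by omega]
      ring
  have h3 : ∑ n ∈ range N, r ^ (n / 2) ≤ ∑ n ∈ range (2 * N), r ^ (n / 2) :=
    Finset.sum_le_sum_of_subset_of_nonneg (Finset.range_mono (by omega)) fun _ _ _ => pow_nonneg h0 _
  have h4 := geo_le h0 h1 N
  have h5 : 0 ≤ r ^ N := pow_nonneg h0 _
  rw [h2] at h3
  linarith

private theorem long_num {q n : ℕ} (h : q < 20 * (n + 2)) (hq : 1000 ≤ q) :
    (q : ℝ) ^ 2 * (1 / 10 ^ 50) ^ (n / 2) ≤ (1 / 10 ^ 25) ^ (n / 2) := by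
  set m := n / 2 with hm
  have h1 : q ≤ 100 * m := by omega
  have h2 : 1 ≤ m := by omega
  have h3 : (m : ℝ) ≤ 10 ^ m := by
    have : m < 10 ^ m := Nat.lt_pow_self (by norm_num)
    exact_mod_cast this.le
  have h4 : (q : ℝ) ≤ 100 * m := by exact_mod_cast h1
  have h5 : (q : ℝ) ^ 2 ≤ (10 ^ 25) ^ m := by
    have h6 : (0 : ℝ) ≤ q := Nat.cast_nonneg _
    have h7 : (q : ℝ) ^ 2 ≤ (100 * 10 ^ m) ^ 2 := by
      refine pow_le_pow_left₀ h6 (h4.trans ?_) 2
      exact mul_le_mul_of_nonneg_left h3 (by norm_num)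
    refine h7.trans ?_
    have h8 : ((100 : ℝ) * 10 ^ m) ^ 2 = 10 ^ 4 * 100 ^ m := by
      rw [mul_pow, ← pow_mul, mul_comm m 2, pow_mul]
      norm_num
    rw [h8]
    have h9 : (10 : ℝ) ^ 4 ≤ (10 ^ 4) ^ m := le_self_pow₀ (by norm_num) (by omega)
    calc (10 : ℝ) ^ 4 * 100 ^ m ≤ (10 ^ 4) ^ m * 100 ^ m :=
          mul_le_mul_of_nonneg_right h9 (by positivity)
      _ = (10 ^ 4 * 100) ^ m := (mul_pow _ _ _).symm
      _ ≤ (10 ^ 25) ^ m := pow_le_pow_left₀ (by norm_num) (by norm_num) m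
  have h10 : ((1 : ℝ) / 10 ^ 50) ^ m = (1 / 10 ^ 25) ^ m * (1 / 10 ^ 25) ^ m := by
    rw [← mul_pow]
    norm_num
  rw [h10]
  have h11 : (0 : ℝ) ≤ (1 / 10 ^ 25) ^ m := by positivity
  calc (q : ℝ) ^ 2 * ((1 / 10 ^ 25) ^ m * (1 / 10 ^ 25) ^ m)
      ≤ (10 ^ 25) ^ m * ((1 / 10 ^ 25) ^ m * (1 / 10 ^ 25) ^ m) :=
        mul_le_mul_of_nonneg_right h5 (mul_nonneg h11 h11)
    _ = ((10 ^ 25) ^ m * (1 / 10 ^ 25) ^ m) * (1 / 10 ^ 25) ^ m := by ring
    _ = (1 / 10 ^ 25) ^ m := by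
        rw [← mul_pow]
        norm_num

section
variable {V : Type} [Fintype V] [DecidableEq V] {d q j : ℕ}

private theorem bal_num (D : Bal V d q j) : 10 ^ 7 ≤ q ∧ (47 : ℝ) / 100 * q ≤ (D.B.card : ℝ) - 1 ∧
    Real.exp (-ra d q) ≤ 1 / 10 ^ 100 := by
  have hd : 1 ≤ d := le_trans (by norm_num) D.dl
  obtain ⟨h1, h2, h3⟩ := num_q D.rg hd
  have h4 : 10 ^ 7 ≤ q := by
    have := D.dl
    omega
  have h5 := (card_B D).2
  have h6 : (10 : ℝ) ^ 7 ≤ q := by exact_mod_cast h4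
  refine ⟨h4, ?_, (num_e D.rg hd).1⟩
  nlinarith

open scoped Classical in
private theorem len_one (D : Bal V d q j) :
    ∑ ω ∈ OM D, ∑ l ∈ (Pth D).filter (fun l => l.length = 1), (if Ech D ω l then (4 : ℝ) ^ evl D l else 0) ≤
      jN D / 10 ^ 60 * ((OM D).card : ℝ) := by
  have h1 : ∀ ω ∈ OM D, ∑ l ∈ (Pth D).filter (fun l => l.length = 1),
      (if Ech D ω l then (4 : ℝ) ^ evl D l else 0) ≤
      ∑ x ∈ univ.filter (fun x => D.ev x), (if x ∉ X0 D ω ∧ s1 D (ω x) ∧ s2 D (ω x) then (4 : ℝ) else 0) := by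
    intro ω _
    have hsub : (Pth D).filter (fun l => l.length = 1) ⊆
        (univ.filter (fun x => D.ev x)).image (fun x => [x]) := by
      intro l hl
      rw [Finset.mem_filter] at hl
      obtain ⟨x, rfl⟩ := List.length_eq_one_iff.1 hl.2
      have h2 := (Finset.mem_filter.1 hl.1).2.2
      obtain ⟨s, hs, hs'⟩ := h2
      rw [List.mem_singleton] at hs
      subst hs
      exact Finset.mem_image.2 ⟨s, Finset.mem_filter.2 ⟨Finset.mem_univ _, hs'⟩, rfl⟩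
    refine (Finset.sum_le_sum_of_subset_of_nonneg hsub fun l _ _ => ?_).trans ?_
    · split_ifs
      · positivity
      · exact le_rfl
    · rw [Finset.sum_image (fun x _ y _ h => by simpa using h)]
      refine Finset.sum_le_sum fun x hx => ?_
      have hev : D.ev x := (Finset.mem_filter.1 hx).2
      by_cases hE : Ech D ω [x]
      · rw [if_pos hE, if_pos]
        · have : evl D [x] = 1 := by
            unfold evl
            simp [hev]
          rw [this]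
          norm_num
        · obtain ⟨e1, -, ⟨s, hs, e3⟩, ⟨t, ht, e4⟩⟩ := hE
          have h5 := e1 x (List.mem_singleton_self x)
          simp only [List.head?_cons, Option.mem_def, Option.some.injEq] at hs
          simp only [List.getLast?_singleton, Option.mem_def, Option.some.injEq] at ht
          subst hs
          subst ht
          refine ⟨fun h => h5 ?_, e3, e4⟩
          unfold Del
          exact Finset.mem_union_left _ h
      · rw [if_neg hE]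
        split_ifs
        · norm_num
        · exact le_rfl
  refine (Finset.sum_le_sum h1).trans ?_
  rw [Finset.sum_comm]
  obtain ⟨hq, hB, he⟩ := bal_num D
  have hq' : (10 : ℝ) ^ 7 ≤ q := by exact_mod_cast hq
  have hq0 : (0 : ℝ) < q := by linarith
  have h2 : ∀ x ∈ univ.filter (fun x => D.ev x),
      ∑ ω ∈ OM D, (if x ∉ X0 D ω ∧ s1 D (ω x) ∧ s2 D (ω x) then (4 : ℝ) else 0) ≤
      ((j : ℝ) / q) ^ 2 / 10 ^ 60 * ((OM D).card : ℝ) := by
    intro x hx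
    have hev : D.ev x := (Finset.mem_filter.1 hx).2
    rw [← Finset.sum_filter, Finset.sum_const, nsmul_eq_mul]
    have h3 := even_count D x
    have h4 := rare_sum D hev
    set c : ℝ := (((OM D).filter fun ω => x ∉ X0 D ω ∧ s1 D (ω x) ∧ s2 D (ω x)).card : ℝ) with hc
    set r : ℝ := (((OM D).filter fun ω => x ∉ X0 D ω ∧ (ω x).2 ∉ D.B).card : ℝ) with hr
    set M : ℝ := ((OM D).card : ℝ) with hM
    have hc0 : 0 ≤ c := Nat.cast_nonneg _
    have hM0 : 0 ≤ M := Nat.cast_nonneg _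
    have h5 : r ≤ 3 / 10 ^ 100 * M := by
      refine h4.trans ?_
      refine mul_le_mul_of_nonneg_right ?_ hM0
      calc 3 * Real.exp (-ra d q) ≤ 3 * (1 / 10 ^ 100) := mul_le_mul_of_nonneg_left he (by norm_num)
        _ = 3 / 10 ^ 100 := by ring
    have h6 : c * (47 / 100 * q) ^ 2 ≤ c * ((D.B.card : ℝ) - 1) ^ 2 :=
      mul_le_mul_of_nonneg_left (pow_le_pow_left₀ (by positivity) hB 2) hc0
    have h7 : 2 * (j : ℝ) ^ 2 * r ≤ 2 * (j : ℝ) ^ 2 * (3 / 10 ^ 100 * M) :=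
      mul_le_mul_of_nonneg_left h5 (by positivity)
    have h8 : c * (47 / 100 * q) ^ 2 ≤ 2 * (j : ℝ) ^ 2 * (3 / 10 ^ 100 * M) := h6.trans (h3.trans h7)
    have h9 : ((j : ℝ) / q) ^ 2 / 10 ^ 60 * M = (j : ℝ) ^ 2 * M / 10 ^ 60 / q ^ 2 := by
      field_simp
    rw [h9, le_div_iff₀ (by positivity)]
    have h10 : c * (q : ℝ) ^ 2 * (2209 / 10000) ≤ 6 / 10 ^ 100 * ((j : ℝ) ^ 2 * M) := by
      calc c * (q : ℝ) ^ 2 * (2209 / 10000) = c * (47 / 100 * q) ^ 2 := by ring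
        _ ≤ 2 * (j : ℝ) ^ 2 * (3 / 10 ^ 100 * M) := h8
        _ = 6 / 10 ^ 100 * ((j : ℝ) ^ 2 * M) := by ring
    have h11 : 0 ≤ (j : ℝ) ^ 2 * M := mul_nonneg (by positivity) hM0
    have h12 : c * 4 * (q : ℝ) ^ 2 = (40000 / 2209) * (c * (q : ℝ) ^ 2 * (2209 / 10000)) := by ring
    rw [h12]
    calc (40000 / 2209) * (c * (q : ℝ) ^ 2 * (2209 / 10000))
        ≤ (40000 / 2209) * (6 / 10 ^ 100 * ((j : ℝ) ^ 2 * M)) :=
          mul_le_mul_of_nonneg_left h10 (by norm_num)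
      _ = (40000 / 2209 * (6 / 10 ^ 100)) * ((j : ℝ) ^ 2 * M) := by ring
      _ ≤ (1 / 10 ^ 60) * ((j : ℝ) ^ 2 * M) := mul_le_mul_of_nonneg_right (by norm_num) h11
      _ = (j : ℝ) ^ 2 * M / 10 ^ 60 := by ring
  refine (Finset.sum_le_sum h2).trans ?_
  rw [Finset.sum_const, nsmul_eq_mul]
  have h3 : (((univ.filter (fun x => D.ev x)).card : ℕ) : ℝ) ≤ Fintype.card V := by
    exact_mod_cast Finset.card_le_univ _
  have h4 : 0 ≤ ((j : ℝ) / q) ^ 2 / 10 ^ 60 * ((OM D).card : ℝ) := by positivity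
  calc _ ≤ (Fintype.card V : ℝ) * (((j : ℝ) / q) ^ 2 / 10 ^ 60 * ((OM D).card : ℝ)) :=
        mul_le_mul_of_nonneg_right h3 h4
    _ = _ := by
        unfold jN
        ring

open scoped Classical in
private theorem len_two (D : Bal V d q j) (n : ℕ) :
    ∑ ω ∈ OM D, ∑ l ∈ (Pth D).filter (fun l => l.length = n + 2), (if Ech D ω l then (4 : ℝ) ^ evl D l else 0) ≤
      (25 / 10 ^ 50 * jN D * ((OM D).card : ℝ)) * (1 / 10 ^ 25) ^ (n / 2) := by
  obtain ⟨hq, -, -⟩ := bal_num D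
  have hq' : (10 : ℝ) ^ 7 ≤ q := by exact_mod_cast hq
  have hq0 : (0 : ℝ) < q := by linarith
  have hM0 : (0 : ℝ) ≤ ((OM D).card : ℝ) := Nat.cast_nonneg _
  have hV0 : (0 : ℝ) ≤ Fintype.card V := Nat.cast_nonneg _
  by_cases h : 20 * (n + 2) ≤ q
  · refine (ech_short D n h).trans ?_
    have h1 : ((1 : ℝ) / 10 ^ 50) ^ (n / 2) ≤ (1 / 10 ^ 25) ^ (n / 2) :=
      pow_le_pow_left₀ (by norm_num) (by norm_num) _
    calc 25 * ((j : ℝ) / q) ^ 2 * ((Fintype.card V : ℝ) * ((1 / 10 ^ 50) * (1 / 10 ^ 50) ^ (n / 2)) *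
          ((OM D).card : ℝ)) = (25 / 10 ^ 50 * jN D * ((OM D).card : ℝ)) * (1 / 10 ^ 50) ^ (n / 2) := by
          unfold jN
          ring
      _ ≤ _ := mul_le_mul_of_nonneg_left h1 (by unfold jN; positivity)
  · refine (ech_long D n).trans ?_
    have h1 := long_num (n := n) (not_le.1 h) (le_trans (by norm_num) hq)
    have hj : (1 : ℝ) ≤ (j : ℝ) ^ 2 := by
      have : (1 : ℝ) ≤ j := by exact_mod_cast D.j1
      nlinarith
    have h2 : ((1 : ℝ) / 10 ^ 50) ^ (n / 2) ≤ ((j : ℝ) / q) ^ 2 * (1 / 10 ^ 25) ^ (n / 2) := by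
      rw [div_pow (j : ℝ), div_mul_eq_mul_div, le_div_iff₀ (by positivity)]
      calc ((1 : ℝ) / 10 ^ 50) ^ (n / 2) * (q : ℝ) ^ 2 = (q : ℝ) ^ 2 * (1 / 10 ^ 50) ^ (n / 2) := by ring
        _ ≤ (1 / 10 ^ 25) ^ (n / 2) := h1
        _ = 1 * (1 / 10 ^ 25) ^ (n / 2) := (one_mul _).symm
        _ ≤ (j : ℝ) ^ 2 * (1 / 10 ^ 25) ^ (n / 2) := mul_le_mul_of_nonneg_right hj (by positivity)
    calc (Fintype.card V : ℝ) * ((1 / 10 ^ 50) * (1 / 10 ^ 50) ^ (n / 2)) * ((OM D).card : ℝ)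
        = ((Fintype.card V : ℝ) * ((OM D).card : ℝ) / 10 ^ 50) * (1 / 10 ^ 50) ^ (n / 2) := by ring
      _ ≤ ((Fintype.card V : ℝ) * ((OM D).card : ℝ) / 10 ^ 50) * (((j : ℝ) / q) ^ 2 * (1 / 10 ^ 25) ^ (n / 2)) :=
          mul_le_mul_of_nonneg_left h2 (by positivity)
      _ = (1 / 10 ^ 50 * jN D * ((OM D).card : ℝ)) * (1 / 10 ^ 25) ^ (n / 2) := by
          unfold jN
          ring
      _ ≤ _ := by
          refine mul_le_mul_of_nonneg_right ?_ (by positivity)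
          refine mul_le_mul_of_nonneg_right ?_ hM0
          refine mul_le_mul_of_nonneg_right (by norm_num) ?_
          unfold jN
          positivity

theorem wch_sum (D : Bal V d q j) : ∑ ω ∈ OM D, wch D ω ≤ jN D / 10 ^ 40 * ((OM D).card : ℝ) := by
  classical
  have hjN : 0 ≤ jN D := by
    unfold jN
    positivity
  have hM0 : (0 : ℝ) ≤ ((OM D).card : ℝ) := Nat.cast_nonneg _
  have h1 : ∀ ω, wch D ω = ∑ m ∈ range (Fintype.card V + 2), ∑ l ∈ (Pth D).filter (fun l => l.length = m),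
      (if Ech D ω l then (4 : ℝ) ^ evl D l else 0) := by
    intro ω
    unfold wch
    rw [Finset.sum_fiberwise_of_maps_to]
    · intro l hl
      have h2 := (mem_LT _ _).1 (Finset.mem_filter.1 hl).1
      rw [Finset.mem_range]
      omega
  have h2 : ∑ ω ∈ OM D, wch D ω = ∑ m ∈ range (Fintype.card V + 2), ∑ ω ∈ OM D,
      ∑ l ∈ (Pth D).filter (fun l => l.length = m), (if Ech D ω l then (4 : ℝ) ^ evl D l else 0) := by
    rw [Finset.sum_comm]
    exact Finset.sum_congr rfl fun ω _ => h1 ω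
  rw [h2, Finset.sum_range_succ', Finset.sum_range_succ']
  have h3 : ∑ ω ∈ OM D, ∑ l ∈ (Pth D).filter (fun l => l.length = 0),
      (if Ech D ω l then (4 : ℝ) ^ evl D l else 0) = 0 := by
    refine Finset.sum_eq_zero fun ω _ => ?_
    have : (Pth D).filter (fun l => l.length = 0) = ∅ := by
      rw [Finset.filter_eq_empty_iff]
      intro l hl h
      have h4 := List.length_eq_zero_iff.1 h
      subst h4
      obtain ⟨s, hs, -⟩ := (Finset.mem_filter.1 hl).2.2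
      simp at hs
    rw [this, Finset.sum_empty]
  rw [h3, add_zero]
  have h4 := len_one D
  have h5 : ∑ n ∈ range (Fintype.card V), ∑ ω ∈ OM D,
      ∑ l ∈ (Pth D).filter (fun l => l.length = n + 1 + 1), (if Ech D ω l then (4 : ℝ) ^ evl D l else 0) ≤
      (25 / 10 ^ 50 * jN D * ((OM D).card : ℝ)) * 3 := by
    refine (Finset.sum_le_sum fun n _ => len_two D n).trans ?_
    rw [← Finset.mul_sum]
    refine mul_le_mul_of_nonneg_left (geo_half (by norm_num) (by norm_num) _) ?_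
    positivity
  have h6 : ∑ ω ∈ OM D, ∑ l ∈ (Pth D).filter (fun l => l.length = 0 + 1),
      (if Ech D ω l then (4 : ℝ) ^ evl D l else 0) ≤ jN D / 10 ^ 60 * ((OM D).card : ℝ) := h4
  refine (add_le_add h5 h6).trans ?_
  have h7 : 0 ≤ jN D * ((OM D).card : ℝ) := mul_nonneg hjN hM0
  calc 25 / 10 ^ 50 * jN D * ((OM D).card : ℝ) * 3 + jN D / 10 ^ 60 * ((OM D).card : ℝ)
      = (75 / 10 ^ 50 + 1 / 10 ^ 60) * (jN D * ((OM D).card : ℝ)) := by ring
    _ ≤ (1 / 10 ^ 40) * (jN D * ((OM D).card : ℝ)) := mul_le_mul_of_nonneg_right (by norm_num) h7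
    _ = jN D / 10 ^ 40 * ((OM D).card : ℝ) := by ring

end

end Pool.Agent.LC3
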