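import Pool.Agent.Lib_MP_2c424f_lc3.T14
import Pool.Agent.Lib_MP_2c424f_lc3.T16

/-!
# Part III, T17: typical odd vertices (Markov)

Four times Markov in `OM D`: each condition of `QQ` fails for at most `|OM| / 8` pairs.
`∑_{OM} Wcl = ∑_{OM} wch` (`sum_cl_avg`, `OM_cl`), `wch_sum`.
`∑_{OM} |X00| = ∑_{y odd} #{OM : s1, s2 at y} ≤ 2 j^2 / (|B| - 1)^2 ∑_{OM} nJ A ≤ 10 (j/q)^2 N / 10^50 |OM|` (`odd_count`, `nA_le`).
`∑_{OM} nJ J_i ≤ j / (|B| - 1) ∑_{OM} nJ A ≤ 3 (j/q) N / 10^50 |OM|` (`J_count`).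
-/

set_option autoImplicit false

open Finset Filter

namespace Pool.Agent.LC3

open Pool.Agent.LO Pool.Agent.LIN Pool.Agent.THR Pool.Agent.COR Pool.Agent.LC

open scoped Classical in
private theorem T17_markov {α : Type} (Ω : Finset α) (f : α → ℝ) (hf : ∀ ω ∈ Ω, 0 ≤ f ω) (t K : ℝ) (ht : 0 ≤ t)
    (hK : 0 ≤ K) (h : ∑ ω ∈ Ω, f ω ≤ t * K) : ((Ω.filter fun ω => t < f ω).card : ℝ) ≤ K := by
  have h1 : t * ((Ω.filter fun ω => t < f ω).card : ℝ) ≤ ∑ ω ∈ Ω.filter (fun ω => t < f ω), f ω := by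
    have h2 : ∑ _ω ∈ Ω.filter (fun ω => t < f ω), t ≤ ∑ ω ∈ Ω.filter (fun ω => t < f ω), f ω :=
      Finset.sum_le_sum fun ω hω => (Finset.mem_filter.1 hω).2.le
    rw [Finset.sum_const, nsmul_eq_mul] at h2
    linarith
  have h3 : ∑ ω ∈ Ω.filter (fun ω => t < f ω), f ω ≤ ∑ ω ∈ Ω, f ω :=
    Finset.sum_le_sum_of_subset_of_nonneg (Finset.filter_subset _ _) fun ω hω _ => hf ω hω
  rcases ht.lt_or_eq with ht0 | ht0
  · have h4 : t * ((Ω.filter fun ω => t < f ω).card : ℝ) ≤ t * K := h1.trans (h3.trans h)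
    exact le_of_mul_le_mul_left h4 ht0
  · have h5 : ∑ ω ∈ Ω, f ω = 0 := by
      apply le_antisymm
      · rw [← ht0, zero_mul] at h
        exact h
      · exact Finset.sum_nonneg hf
    have h6 := (Finset.sum_eq_zero_iff_of_nonneg hf).1 h5
    have h7 : (Ω.filter fun ω => t < f ω) = ∅ := by
      rw [Finset.filter_eq_empty_iff]
      intro ω hω hlt
      rw [h6 ω hω, ← ht0] at hlt
      exact lt_irrefl _ hlt
    rw [h7, Finset.card_empty, Nat.cast_zero]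
    exact hK

private theorem T17_swap {α V : Type} (Ω : Finset α) (W : Finset V) (P : V → α → Prop)
    [∀ ω, DecidablePred fun v => P v ω] [∀ v, DecidablePred fun ω => P v ω] :
    ∑ ω ∈ Ω, ((W.filter fun v => P v ω).card : ℝ) = ∑ v ∈ W, ((Ω.filter fun ω => P v ω).card : ℝ) := by
  classical
  have h1 : ∀ ω, ((W.filter fun v => P v ω).card : ℝ) = ∑ v ∈ W, if P v ω then (1 : ℝ) else 0 := by
    intro ω
    rw [Finset.sum_ite, Finset.sum_const, Finset.sum_const_zero, add_zero, nsmul_eq_mul, mul_one]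
  have h2 : ∀ v, ((Ω.filter fun ω => P v ω).card : ℝ) = ∑ ω ∈ Ω, if P v ω then (1 : ℝ) else 0 := by
    intro v
    rw [Finset.sum_ite, Finset.sum_const, Finset.sum_const_zero, add_zero, nsmul_eq_mul, mul_one]
  rw [Finset.sum_congr rfl fun ω _ => h1 ω, Finset.sum_congr rfl fun v _ => h2 v, Finset.sum_comm]

section
variable {V : Type} [Fintype V] [DecidableEq V] {d q j : ℕ}

open scoped Classical in
private theorem T17_nJ (D : Bal V d q j) (J' : Finset (Fin q)) :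
    ∑ ω ∈ OM D, nJ D J' ω
      = ∑ v ∈ univ.filter (fun v => ¬ D.ev v), (((OM D).filter fun ω => (ω v).1 ∈ J').card : ℝ) := by
  refine Eq.trans ?_ (T17_swap (OM D) (univ.filter fun v => ¬ D.ev v) fun v ω => (ω v).1 ∈ J')
  refine Finset.sum_congr rfl fun ω _ => ?_
  unfold nJ
  have e : (univ.filter fun v => ¬ D.ev v ∧ (ω v).1 ∈ J')
      = (univ.filter fun v => ¬ D.ev v).filter fun v => (ω v).1 ∈ J' := by
    ext v
    simp only [Finset.mem_filter, Finset.mem_univ, true_and]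
  rw [← e]

open scoped Classical in
private theorem T17_X00 (D : Bal V d q j) :
    ∑ ω ∈ OM D, ((X00 D ω).card : ℝ)
      = ∑ v ∈ univ.filter (fun v => ¬ D.ev v), (((OM D).filter fun ω => s1 D (ω v) ∧ s2 D (ω v)).card : ℝ) := by
  refine Eq.trans ?_ (T17_swap (OM D) (univ.filter fun v => ¬ D.ev v) fun v ω => s1 D (ω v) ∧ s2 D (ω v))
  refine Finset.sum_congr rfl fun ω _ => ?_
  unfold X00
  have e : (univ.filter fun v => ¬ D.ev v ∧ s1 D (ω v) ∧ s2 D (ω v))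
      = (univ.filter fun v => ¬ D.ev v).filter fun v => s1 D (ω v) ∧ s2 D (ω v) := by
    ext v
    simp only [Finset.mem_filter, Finset.mem_univ, true_and]
  rw [← e]

private theorem T17_nA (D : Bal V d q j) :
    ∑ ω ∈ OM D, nJ D D.A ω ≤ (Fintype.card V : ℝ) / 10 ^ 50 * ((OM D).card : ℝ) := by
  refine (Finset.sum_le_sum fun ω hω => nA_le D hω).trans (le_of_eq ?_)
  rw [Finset.sum_const, nsmul_eq_mul, mul_comm]

private theorem T17_q (D : Bal V d q j) : (10 : ℝ) ^ 7 ≤ (q : ℝ) := by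
  have hd1 : 1 ≤ d := le_trans (by norm_num) D.dl
  obtain ⟨_, _, h3⟩ := num_q D.rg hd1
  have h4 := D.dl
  have h5 : 10 ^ 7 ≤ q := by omega
  exact_mod_cast h5

private theorem T17_B (D : Bal V d q j) : (47 : ℝ) / 100 * q ≤ (D.B.card : ℝ) - 1 := by
  have h1 := T17_q D
  have h2 := (card_B D).2
  have h3 : (1 : ℝ) ≤ 1 / 100 * q := by
    have : (1 : ℝ) / 100 * 10 ^ 7 ≤ 1 / 100 * q := by linarith
    refine le_trans ?_ this
    norm_num
  linarith

open scoped Classical in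
private theorem T17_J (D : Bal V d q j) (J' : Finset (Fin q)) (hJ : J' ⊆ D.A \ D.B) (hc : J'.card = j) :
    ∑ ω ∈ OM D, nJ D J' ω ≤ 3 * ((j : ℝ) / q * Fintype.card V) / 10 ^ 50 * ((OM D).card : ℝ) := by
  have hq := T17_q D
  have hq0 : (0 : ℝ) < q := lt_of_lt_of_le (by positivity) hq
  have hB := T17_B D
  have hb0 : (0 : ℝ) < (D.B.card : ℝ) - 1 := lt_of_lt_of_le (by positivity) hB
  have h1 : (∑ ω ∈ OM D, nJ D J' ω) * ((D.B.card : ℝ) - 1) ≤ j * ∑ ω ∈ OM D, nJ D D.A ω := by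
    rw [T17_nJ, T17_nJ, Finset.sum_mul, Finset.mul_sum]
    refine Finset.sum_le_sum fun y _ => ?_
    have := J_count D J' hJ y
    rw [hc] at this
    exact this
  have h2 : (j : ℝ) * ∑ ω ∈ OM D, nJ D D.A ω ≤ j * ((Fintype.card V : ℝ) / 10 ^ 50 * ((OM D).card : ℝ)) :=
    mul_le_mul_of_nonneg_left (T17_nA D) (Nat.cast_nonneg _)
  have hR : 0 ≤ 3 * ((j : ℝ) / q * Fintype.card V) / 10 ^ 50 * ((OM D).card : ℝ) := by positivity
  have h3 : (j : ℝ) * ((Fintype.card V : ℝ) / 10 ^ 50 * ((OM D).card : ℝ)) ≤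
      3 * ((j : ℝ) / q * Fintype.card V) / 10 ^ 50 * ((OM D).card : ℝ) * ((D.B.card : ℝ) - 1) := by
    have h4 : 3 * ((j : ℝ) / q * Fintype.card V) / 10 ^ 50 * ((OM D).card : ℝ) * (47 / 100 * q)
        ≤ 3 * ((j : ℝ) / q * Fintype.card V) / 10 ^ 50 * ((OM D).card : ℝ) * ((D.B.card : ℝ) - 1) :=
      mul_le_mul_of_nonneg_left hB hR
    refine le_trans ?_ h4
    have h5 : 3 * ((j : ℝ) / q * Fintype.card V) / 10 ^ 50 * ((OM D).card : ℝ) * (47 / 100 * q)
        = 141 / 100 * (j * ((Fintype.card V : ℝ) / 10 ^ 50 * ((OM D).card : ℝ))) := by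
      field_simp
      ring
    rw [h5]
    have h6 : 0 ≤ (j : ℝ) * ((Fintype.card V : ℝ) / 10 ^ 50 * ((OM D).card : ℝ)) := by positivity
    linarith
  exact le_of_mul_le_mul_right (h1.trans (h2.trans h3)) hb0

open scoped Classical in
private theorem T17_X (D : Bal V d q j) :
    ∑ ω ∈ OM D, ((X00 D ω).card : ℝ) ≤ 10 * jN D / 10 ^ 50 * ((OM D).card : ℝ) := by
  have hq := T17_q D
  have hq0 : (0 : ℝ) < q := lt_of_lt_of_le (by positivity) hq
  have hB := T17_B D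
  have hb0 : (0 : ℝ) < (D.B.card : ℝ) - 1 := lt_of_lt_of_le (by positivity) hB
  have h1 : (∑ ω ∈ OM D, ((X00 D ω).card : ℝ)) * ((D.B.card : ℝ) - 1) ^ 2
      ≤ 2 * (j : ℝ) ^ 2 * ∑ ω ∈ OM D, nJ D D.A ω := by
    rw [T17_nJ, T17_X00, Finset.sum_mul, Finset.mul_sum]
    exact Finset.sum_le_sum fun y _ => odd_count D y
  have h2 : 2 * (j : ℝ) ^ 2 * ∑ ω ∈ OM D, nJ D D.A ω
      ≤ 2 * (j : ℝ) ^ 2 * ((Fintype.card V : ℝ) / 10 ^ 50 * ((OM D).card : ℝ)) :=
    mul_le_mul_of_nonneg_left (T17_nA D) (by positivity)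
  have hjN : 0 ≤ jN D := by
    unfold jN
    positivity
  have hR : 0 ≤ 10 * jN D / 10 ^ 50 * ((OM D).card : ℝ) := by positivity
  have h3 : 2 * (j : ℝ) ^ 2 * ((Fintype.card V : ℝ) / 10 ^ 50 * ((OM D).card : ℝ)) ≤
      10 * jN D / 10 ^ 50 * ((OM D).card : ℝ) * ((D.B.card : ℝ) - 1) ^ 2 := by
    have hsq : (47 / 100 * (q : ℝ)) ^ 2 ≤ ((D.B.card : ℝ) - 1) ^ 2 := by
      apply pow_le_pow_left₀ (by positivity) hB
    have h4 : 10 * jN D / 10 ^ 50 * ((OM D).card : ℝ) * (47 / 100 * (q : ℝ)) ^ 2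
        ≤ 10 * jN D / 10 ^ 50 * ((OM D).card : ℝ) * ((D.B.card : ℝ) - 1) ^ 2 :=
      mul_le_mul_of_nonneg_left hsq hR
    refine le_trans ?_ h4
    have h5 : 10 * jN D / 10 ^ 50 * ((OM D).card : ℝ) * (47 / 100 * (q : ℝ)) ^ 2
        = 11045 / 10000 * (2 * (j : ℝ) ^ 2 * ((Fintype.card V : ℝ) / 10 ^ 50 * ((OM D).card : ℝ))) := by
      unfold jN
      field_simp
      ring
    rw [h5]
    have h6 : 0 ≤ 2 * (j : ℝ) ^ 2 * ((Fintype.card V : ℝ) / 10 ^ 50 * ((OM D).card : ℝ)) := by positivity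
    linarith
  exact le_of_mul_le_mul_right (h1.trans (h2.trans h3)) (by positivity)

private theorem T17_pr (D : Bal V d q j) {ω : V → Fin q × Fin q} (h : ω ∈ OM D) : PrP D.G ω := by
  classical
  unfold OM at h
  simp only [Finset.mem_filter] at h
  exact h.2.1

private theorem T17_wch0 (D : Bal V d q j) (ω : V → Fin q × Fin q) : 0 ≤ wch D ω := by
  unfold wch
  refine Finset.sum_nonneg fun l _ => ?_
  split_ifs
  · positivity
  · exact le_refl _

private theorem T17_Wcl0 (D : Bal V d q j) (ω : V → Fin q × Fin q) : 0 ≤ Wcl D ω := by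
  unfold Wcl
  exact div_nonneg (Finset.sum_nonneg fun _ _ => T17_wch0 D _) (Nat.cast_nonneg _)

open scoped Classical in
theorem QQ_half (D : Bal V d q j) : ((OM D).card : ℝ) ≤ 2 * (((OM D).filter fun ω => QQ D ω).card : ℝ) := by
  set M : ℝ := ((OM D).card : ℝ) with hM
  have hM0 : 0 ≤ M := Nat.cast_nonneg _
  have hjN : 0 ≤ jN D := by
    unfold jN
    positivity
  have hjq : 0 ≤ (j : ℝ) / q * Fintype.card V := by positivity
  have hJ1 : D.J1 ⊆ D.A \ D.B := by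
    rw [D.un]
    exact Finset.subset_union_left
  have hJ2 : D.J2 ⊆ D.A \ D.B := by
    rw [D.un]
    exact Finset.subset_union_right
  have b1 := T17_markov (OM D) (fun ω => Wcl D ω) (fun ω _ => T17_Wcl0 D ω) (jN D / 10 ^ 20) (M / 8) (by positivity)
    (by positivity) (by
      have h1 : ∑ ω ∈ OM D, Wcl D ω = ∑ ω ∈ OM D, wch D ω := by
        unfold Wcl
        exact sum_cl_avg D.G D.ev (OM D) (fun ω h => T17_pr D h) (fun ω h => OM_cl D h) (wch D)
      rw [h1]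
      refine (wch_sum D).trans ?_
      have h2 : jN D / 10 ^ 20 * (M / 8) - jN D / 10 ^ 40 * M = jN D * M * (1 / 10 ^ 20 / 8 - 1 / 10 ^ 40) := by ring
      have h3 : 0 ≤ jN D * M * (1 / 10 ^ 20 / 8 - 1 / 10 ^ 40) :=
        mul_nonneg (mul_nonneg hjN hM0) (by norm_num)
      rw [← hM]
      linarith)
  have b2 := T17_markov (OM D) (fun ω => ((X00 D ω).card : ℝ)) (fun ω _ => Nat.cast_nonneg _) (jN D / 10 ^ 20) (M / 8)
    (by positivity) (by positivity) (by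
      refine (T17_X D).trans ?_
      have h2 : jN D / 10 ^ 20 * (M / 8) - 10 * jN D / 10 ^ 50 * M
          = jN D * M * (1 / 10 ^ 20 / 8 - 10 / 10 ^ 50) := by ring
      have h3 : 0 ≤ jN D * M * (1 / 10 ^ 20 / 8 - 10 / 10 ^ 50) :=
        mul_nonneg (mul_nonneg hjN hM0) (by norm_num)
      rw [← hM]
      linarith)
  have hJ : ∀ J' : Finset (Fin q), J' ⊆ D.A \ D.B → J'.card = j →
      (((OM D).filter fun ω => (j : ℝ) / q * Fintype.card V / 10 ^ 20 < nJ D J' ω).card : ℝ) ≤ M / 8 := by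
    intro J' h1 h2
    refine T17_markov (OM D) (fun ω => nJ D J' ω) (fun ω _ => ?_) _ (M / 8) (by positivity) (by positivity) ?_
    · unfold nJ
      exact Nat.cast_nonneg _
    · refine (T17_J D J' h1 h2).trans ?_
      set t : ℝ := (j : ℝ) / q * Fintype.card V with ht
      have h2 : t / 10 ^ 20 * (M / 8) - 3 * t / 10 ^ 50 * M = t * M * (1 / 10 ^ 20 / 8 - 3 / 10 ^ 50) := by ring
      have h3 : 0 ≤ t * M * (1 / 10 ^ 20 / 8 - 3 / 10 ^ 50) :=
        mul_nonneg (mul_nonneg hjq hM0) (by norm_num)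
      rw [← hM]
      linarith
  have b3 := hJ D.J1 hJ1 D.c1
  have b4 := hJ D.J2 hJ2 D.c2
  have hcov : OM D ⊆ ((OM D).filter fun ω => QQ D ω) ∪
      (((OM D).filter fun ω => jN D / 10 ^ 20 < Wcl D ω) ∪
      (((OM D).filter fun ω => jN D / 10 ^ 20 < ((X00 D ω).card : ℝ)) ∪
      (((OM D).filter fun ω => (j : ℝ) / q * Fintype.card V / 10 ^ 20 < nJ D D.J1 ω) ∪
      ((OM D).filter fun ω => (j : ℝ) / q * Fintype.card V / 10 ^ 20 < nJ D D.J2 ω)))) := by
    intro ω hω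
    simp only [Finset.mem_union, Finset.mem_filter]
    by_cases h1 : Wcl D ω ≤ jN D / 10 ^ 20
    · by_cases h2 : ((X00 D ω).card : ℝ) ≤ jN D / 10 ^ 20
      · by_cases h3 : nJ D D.J1 ω ≤ (j : ℝ) / q * Fintype.card V / 10 ^ 20
        · by_cases h4 : nJ D D.J2 ω ≤ (j : ℝ) / q * Fintype.card V / 10 ^ 20
          · exact Or.inl ⟨hω, h1, h2, h3, h4⟩
          · exact Or.inr (Or.inr (Or.inr (Or.inr ⟨hω, not_le.1 h4⟩)))
        · exact Or.inr (Or.inr (Or.inr (Or.inl ⟨hω, not_le.1 h3⟩)))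
      · exact Or.inr (Or.inr (Or.inl ⟨hω, not_le.1 h2⟩))
    · exact Or.inr (Or.inl ⟨hω, not_le.1 h1⟩)
  have hle : (OM D).card ≤ ((OM D).filter fun ω => QQ D ω).card +
      (((OM D).filter fun ω => jN D / 10 ^ 20 < Wcl D ω).card +
      (((OM D).filter fun ω => jN D / 10 ^ 20 < ((X00 D ω).card : ℝ)).card +
      (((OM D).filter fun ω => (j : ℝ) / q * Fintype.card V / 10 ^ 20 < nJ D D.J1 ω).card +
      ((OM D).filter fun ω => (j : ℝ) / q * Fintype.card V / 10 ^ 20 < nJ D D.J2 ω).card))) := by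
    refine (Finset.card_le_card hcov).trans ?_
    refine (Finset.card_union_le _ _).trans (Nat.add_le_add_left ?_ _)
    refine (Finset.card_union_le _ _).trans (Nat.add_le_add_left ?_ _)
    refine (Finset.card_union_le _ _).trans (Nat.add_le_add_left ?_ _)
    exact Finset.card_union_le _ _
  have hle' : M ≤ (((OM D).filter fun ω => QQ D ω).card : ℝ) +
      ((((OM D).filter fun ω => jN D / 10 ^ 20 < Wcl D ω).card : ℝ) +
      ((((OM D).filter fun ω => jN D / 10 ^ 20 < ((X00 D ω).card : ℝ)).card : ℝ) +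
      ((((OM D).filter fun ω => (j : ℝ) / q * Fintype.card V / 10 ^ 20 < nJ D D.J1 ω).card : ℝ) +
      (((OM D).filter fun ω => (j : ℝ) / q * Fintype.card V / 10 ^ 20 < nJ D D.J2 ω).card : ℝ)))) := by
    rw [hM]
    exact_mod_cast hle
  linarith

end

end Pool.Agent.LC3
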