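import Pool.Agent.Lib_MP_2c424f_lc3.T12
import Pool.Agent.Lib_MP_2c424f_lc3.T17

/-!
# Part III, T18: pairs without chains

`card_cl_le` with `Ω = (OM D).filter QQ` (closed: `OM_cl`, `QQ_so`), `R = NL D`, `M = e^{2 jN/10^20}`: `NL_ge` and `Wcl ≤ jN / 10^20` on `Ω`.  Then `QQ_half`.
-/

set_option autoImplicit false

open Finset Filter

namespace Pool.Agent.LC3

open Pool.Agent.LO Pool.Agent.LIN Pool.Agent.THR Pool.Agent.COR Pool.Agent.LC

section
variable {V : Type} [Fintype V] [DecidableEq V] {d q j : ℕ}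

open scoped Classical in
theorem QQ_NL (D : Bal V d q j) :
    ((OM D).card : ℝ) ≤ 2 * Real.exp (2 * (jN D / 10 ^ 20)) * (((OM D).filter fun ω => QQ D ω ∧ NL D ω).card : ℝ) := by
  have hOMp : ∀ ω ∈ OM D, PrP D.G ω := by
    intro ω hω
    unfold OM at hω
    exact (Finset.mem_filter.1 hω).2.1
  have hp : ∀ ω ∈ (OM D).filter fun ω => QQ D ω, PrP D.G ω := fun ω hω => hOMp ω (Finset.mem_filter.1 hω).1
  have hc : ∀ ω ∈ (OM D).filter fun ω => QQ D ω, cl D.G D.ev ω ⊆ (OM D).filter fun ω => QQ D ω := by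
    intro ω hω ω' hω'
    obtain ⟨h1, h2⟩ := Finset.mem_filter.1 hω
    have hso : so D.ev ω' ω := by
      unfold cl at hω'
      exact (Finset.mem_filter.1 hω').2.2
    exact Finset.mem_filter.2 ⟨OM_cl D h1 hω', (QQ_so D hso).2 h2⟩
  have hmain := card_cl_le D.G D.ev ((OM D).filter fun ω => QQ D ω) hp hc (fun ω => NL D ω)
    (Real.exp (2 * (jN D / 10 ^ 20))) (by
      intro ω hω
      obtain ⟨h1, h2⟩ := Finset.mem_filter.1 hω
      have h3 := NL_ge D (hOMp ω h1)
      have h4 : Wcl D ω ≤ jN D / 10 ^ 20 := h2.1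
      have h5 : Real.exp (-(2 * (jN D / 10 ^ 20))) ≤ Real.exp (-(2 * Wcl D ω)) := by
        rw [Real.exp_le_exp]
        linarith
      have h6 : Real.exp (-(2 * (jN D / 10 ^ 20))) * ((cl D.G D.ev ω).card : ℝ) ≤
          (((cl D.G D.ev ω).filter fun ω => NL D ω).card : ℝ) :=
        (mul_le_mul_of_nonneg_right h5 (Nat.cast_nonneg _)).trans h3
      calc ((cl D.G D.ev ω).card : ℝ) = Real.exp (2 * (jN D / 10 ^ 20)) *
            (Real.exp (-(2 * (jN D / 10 ^ 20))) * ((cl D.G D.ev ω).card : ℝ)) := by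
            rw [← mul_assoc, ← Real.exp_add, add_neg_cancel, Real.exp_zero, one_mul]
        _ ≤ _ := mul_le_mul_of_nonneg_left h6 (Real.exp_pos _).le)
  rw [Finset.filter_filter] at hmain
  calc ((OM D).card : ℝ) ≤ _ := QQ_half D
    _ ≤ 2 * (Real.exp (2 * (jN D / 10 ^ 20)) * (((OM D).filter fun ω => QQ D ω ∧ NL D ω).card : ℝ)) :=
        mul_le_mul_of_nonneg_left hmain (by norm_num)
    _ = _ := by ring

end

end Pool.Agent.LC3
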