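import Pool.Agent.Lib_MP_2c424f_lc3.Defs3

/-!
# Part III, T19: a conflict path outside `Del` between `J1` and `J2` gives a chain

`H` = the graph on `V` with the edges `a b`, `gc D ω a b`, `a, b ∉ Del D ω` (`gc` is symmetric, irreflexive because of `Adj`).  `ReflTransGen` gives reachability in `H`, so a path (`Walk.toPath`); its support is a list
without repetitions, consecutive elements are `gc`-related, all elements are outside `Del` (`s₀ ∉ Del`).  Head `s₀`, last `s`.  If it has one element `s₀ = s` with `s1`, `s2`: `s` is even, since an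
odd one would be in `X00 ⊆ Del`.  If it has two elements, one of the first two is even (`Par`).  Length at most `|V|` (`Nodup`).  `mem_LT`.
-/

set_option autoImplicit false

open Finset Filter

namespace Pool.Agent.LC3

open Pool.Agent.LO Pool.Agent.LIN Pool.Agent.THR Pool.Agent.COR Pool.Agent.LC

section
variable {V : Type} [Fintype V] [DecidableEq V] {d q j : ℕ}

private theorem T19_symm (D : Bal V d q j) (ω : V → Fin q × Fin q) {a b : V} (h : gc D ω a b) :
    gc D ω b a := by
  obtain ⟨h0, h1⟩ := h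
  refine ⟨h0.symm, ?_⟩
  rcases h1 with ⟨e, hn⟩ | ⟨e, hn⟩
  · exact Or.inr ⟨e.symm, e ▸ hn⟩
  · exact Or.inl ⟨e.symm, e ▸ hn⟩

/-- the graph of the conflict edges outside `Del` -/
private def T19_H (D : Bal V d q j) (ω : V → Fin q × Fin q) : SimpleGraph V where
  Adj a b := gc D ω a b ∧ a ∉ Del D ω ∧ b ∉ Del D ω
  symm := ⟨fun _ _ h => ⟨T19_symm D ω h.1, h.2.2, h.2.1⟩⟩
  loopless := ⟨fun _ h => h.1.1.ne rfl⟩

private theorem T19_reach (D : Bal V d q j) (ω : V → Fin q × Fin q) (s₀ s : V) (h0 : s₀ ∉ Del D ω)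
    (hc : Relation.ReflTransGen (fun a b => gc D ω a b ∧ b ∉ Del D ω) s₀ s) :
    (T19_H D ω).Reachable s₀ s ∧ s ∉ Del D ω := by
  induction hc with
  | refl => exact ⟨SimpleGraph.Reachable.refl _, h0⟩
  | tail _ hbc ih =>
    refine ⟨ih.1.trans (SimpleGraph.Adj.reachable ?_), hbc.2⟩
    exact ⟨hbc.1, ih.2, hbc.2⟩

private theorem T19_supp (D : Bal V d q j) (ω : V → Fin q × Fin q) {a b : V} (p : (T19_H D ω).Walk a b)
    (h0 : a ∉ Del D ω) : ∀ s ∈ p.support, s ∉ Del D ω := by
  induction p with
  | nil =>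
    intro s hs
    rw [SimpleGraph.Walk.support_nil, List.mem_singleton] at hs
    rw [hs]
    exact h0
  | cons h p ih =>
    intro s hs
    rw [SimpleGraph.Walk.support_cons, List.mem_cons] at hs
    rcases hs with rfl | hs
    · exact h0
    · exact ih h.2.2 s hs

private theorem T19_chain (D : Bal V d q j) (ω : V → Fin q × Fin q) {a b : V} (p : (T19_H D ω).Walk a b) :
    p.support.IsChain (gc D ω) :=
  (p.isChain_adj_support).imp fun _ _ h => h.1

private theorem T19_head {H : SimpleGraph V} {a b : V} (p : H.Walk a b) : p.support.head? = some a := by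
  cases p <;> rfl

private theorem T19_last {H : SimpleGraph V} {a b : V} (p : H.Walk a b) : p.support.getLast? = some b := by
  rw [List.getLast?_eq_some_getLast (SimpleGraph.Walk.support_ne_nil p), SimpleGraph.Walk.getLast_support]

theorem chain_of_conn (D : Bal V d q j) (ω : V → Fin q × Fin q) (s₀ s : V) (h0 : s₀ ∉ Del D ω)
    (hc : Relation.ReflTransGen (fun a b => gc D ω a b ∧ b ∉ Del D ω) s₀ s) (h1 : s1 D (ω s₀)) (h2 : s2 D (ω s)) :
    ∃ l ∈ Pth D, Ech D ω l := by
  classical
  obtain ⟨hr, -⟩ := T19_reach D ω s₀ s h0 hc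
  obtain ⟨p0⟩ := hr
  obtain ⟨p, hp⟩ := p0.toPath
  refine ⟨p.support, ?_, T19_supp D ω p h0, T19_chain D ω p, ⟨s₀, ?_, h1⟩, ⟨s, ?_, h2⟩⟩
  · refine Finset.mem_filter.2 ⟨(mem_LT _ _).2 hp.support_nodup.length_le_card, hp.support_nodup, ?_⟩
    cases p with
    | nil =>
      refine ⟨s₀, by simp, ?_⟩
      by_contra hev
      refine h0 ?_
      exact Finset.mem_union_right _ (Finset.mem_filter.2 ⟨Finset.mem_univ _, hev, h1, h2⟩)
    | @cons _ b _ h p =>
      by_cases hev : D.ev s₀
      · exact ⟨s₀, by simp, hev⟩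
      · refine ⟨b, by simp, ?_⟩
        have h3 := D.par s₀ b h.1.1
        by_contra hb
        exact hev (h3.2 hb)
  · exact T19_head p
  · exact T19_last p

end

end Pool.Agent.LC3
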