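import Pool.Agent.Lib_MP_2c424f_lc3.T19

/-!
# Part III, T20: the swap (III.B)

Injective map from `src` to `tgt` for fixed `X`, `Y`.  For `ω` in `src` let `I = {s : ∃ s₀ ∉ Del, s1 (ω s₀), s₀ →* s}`, `→*` = `ReflTransGen (gc D ω a b ∧ b ∉ Del)`, `Del = X ∪ Y`.  `I ∩ Del = ∅`; by
`NL` and `chain_of_conn` no `s ∈ I` has `s2 (ω s)`; every `s ∉ Del` with `s1 (ω s)` is in `I`.  `ω' s = (ω s).swap` for `s ∈ I`, `ω' s = ω s` otherwise.
1. `ω'` is proper on `dlG G (X ∪ Y)`: edge `s t`, `s, t ∉ Del`.  Both in `I` or both not: `ω` is proper.  `s ∈ I`, `t ∉ I`: no generic conflict (else `t ∈ I`); a conflict with the common colour in `A \ B = J1 ∪ J2`: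
 in `J1` would give `s1 (ω t)`, `t ∈ I`; in `J2` would give `s2 (ω s)`, impossible.  So `(ω s).1 ≠ (ω t).2`, `(ω s).2 ≠ (ω t).1`, i.e. `ω'` is proper on the edge.
2. `y ∈ Y = X00`: `y ∉ I`, `ω' y = ω y`.
3. `x` even, `x ∉ X`: `x ∉ X00` (odd), so `x ∉ Del`, and `NL` for the list `[x]` gives `¬ (s1 ∧ s2)` at `x`, also for `ω' x` (symmetric).
4. `y` odd `∉ X ∪ Y` with `(ω' y).1 ∈ J2`: then `s2 (ω y)`, `y ∉ I`, `(ω y).1 ∈ J2`.   With `(ω' y).2 ∈ J1`: `s1 (ω y)`, `y ∈ I`, `(ω y).1 = (ω' y).2 ∈ J1`.  So the last two conditions.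
5. injective: let `ω₁, ω₂` have the same image `ω'`.  `s1 (ω s) ↔ s1 (ω' s)`.  `gc D ω a b ↔ gc D ω' a b` for `a, b ∉ Del`: both in `I`: the two equalities are exchanged; both outside: equal; `a ∈ I`, `b ∉ I`: not for `ω`
 (else `b ∈ I`), and not for `ω'` because `(ω' a).1 = (ω' b).2` means `(ω a).2 = (ω b).2`, impossible as `ω` is proper.  So `I` is determined by `ω'` (and `Del`), and `ω` by `ω'` and `I`.
-/

set_option autoImplicit false

open Finset Filter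

namespace Pool.Agent.LC3

open Pool.Agent.LO Pool.Agent.LIN Pool.Agent.THR Pool.Agent.COR Pool.Agent.LC

section
variable {V : Type} [Fintype V] [DecidableEq V] {d q j : ℕ}

/-- the vertices reached from `J1` outside the deleted set -/
private def T20_I (D : Bal V d q j) (E : Finset V) (ω : V → Fin q × Fin q) : Set V :=
  {s | ∃ s₀, s₀ ∉ E ∧ s1 D (ω s₀) ∧ Relation.ReflTransGen (fun a b => gc D ω a b ∧ b ∉ E) s₀ s}

open scoped Classical in
/-- the swap -/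
private noncomputable def T20_sw (D : Bal V d q j) (E : Finset V) (ω : V → Fin q × Fin q) : V → Fin q × Fin q :=
  fun s => if s ∈ T20_I D E ω then (ω s).swap else ω s

private theorem T20_sw_mem (D : Bal V d q j) (E : Finset V) (ω : V → Fin q × Fin q) {s : V}
    (h : s ∈ T20_I D E ω) : T20_sw D E ω s = (ω s).swap := if_pos h

private theorem T20_sw_not (D : Bal V d q j) (E : Finset V) (ω : V → Fin q × Fin q) {s : V}
    (h : s ∉ T20_I D E ω) : T20_sw D E ω s = ω s := if_neg h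

private theorem T20_gc_symm (D : Bal V d q j) (ω : V → Fin q × Fin q) {a b : V} (h : gc D ω a b) : gc D ω b a := by
  obtain ⟨h1, h2⟩ := h
  refine ⟨h1.symm, ?_⟩
  rcases h2 with ⟨h2, h3⟩ | ⟨h2, h3⟩
  · exact Or.inr ⟨h2.symm, h2 ▸ h3⟩
  · exact Or.inl ⟨h2.symm, h2 ▸ h3⟩

private theorem T20_I_not (D : Bal V d q j) (E : Finset V) (ω : V → Fin q × Fin q) {s : V}
    (h : s ∈ T20_I D E ω) : s ∉ E := by
  obtain ⟨s₀, h0, -, hc⟩ := h
  rcases Relation.ReflTransGen.cases_tail hc with h | ⟨b, -, hb⟩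
  · rw [h]; exact h0
  · exact hb.2

private theorem T20_I_s1 (D : Bal V d q j) (E : Finset V) (ω : V → Fin q × Fin q) {s : V}
    (h : s ∉ E) (h1 : s1 D (ω s)) : s ∈ T20_I D E ω := ⟨s, h, h1, Relation.ReflTransGen.refl⟩

private theorem T20_I_gc (D : Bal V d q j) (E : Finset V) (ω : V → Fin q × Fin q) {s t : V}
    (h : s ∈ T20_I D E ω) (h1 : gc D ω s t) (ht : t ∉ E) : t ∈ T20_I D E ω := by
  obtain ⟨s₀, h0, h2, hc⟩ := h
  exact ⟨s₀, h0, h2, hc.tail ⟨h1, ht⟩⟩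

private theorem T20_I_s2 (D : Bal V d q j) (X Y : Finset V) (ω : V → Fin q × Fin q) (hs : src D X Y ω) {s : V}
    (h : s ∈ T20_I D (X ∪ Y) ω) : ¬ s2 D (ω s) := by
  intro h2
  obtain ⟨-, hX, hY, hN, -, -⟩ := hs
  have hD : Del D ω = X ∪ Y := by rw [Del, hX, hY]
  obtain ⟨s₀, h0, h1, hc⟩ := h
  rw [← hD] at h0 hc
  obtain ⟨l, hl, hE⟩ := chain_of_conn D ω s₀ s h0 hc h1 h2
  exact hN l hl hE

/-- no conflict between a swapped and a not swapped vertex -/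
private theorem T20_cross (D : Bal V d q j) (X Y : Finset V) (ω : V → Fin q × Fin q) (hs : src D X Y ω) {s t : V}
    (ha : D.G.Adj s t) (ht : t ∉ X ∪ Y) (h : s ∈ T20_I D (X ∪ Y) ω) (h' : t ∉ T20_I D (X ∪ Y) ω) :
    (ω s).1 ≠ (ω t).2 ∧ (ω s).2 ≠ (ω t).1 := by
  have hJ : ∀ c, c ∈ D.A \ D.B → c ∈ D.J1 ∨ c ∈ D.J2 := by
    intro c hc
    rw [D.un] at hc
    exact Finset.mem_union.1 hc
  have hn2 := T20_I_s2 D X Y ω hs h
  constructor
  · intro he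
    by_cases hc : (ω s).1 ∈ D.A \ D.B
    · rcases hJ _ hc with h3 | h3
      · exact h' (T20_I_s1 D _ ω ht (Or.inr (he ▸ h3)))
      · exact hn2 (Or.inl h3)
    · exact h' (T20_I_gc D _ ω h ⟨ha, Or.inl ⟨he, hc⟩⟩ ht)
  · intro he
    by_cases hc : (ω s).2 ∈ D.A \ D.B
    · rcases hJ _ hc with h3 | h3
      · exact h' (T20_I_s1 D _ ω ht (Or.inl (he ▸ h3)))
      · exact hn2 (Or.inr h3)
    · exact h' (T20_I_gc D _ ω h ⟨ha, Or.inr ⟨he, hc⟩⟩ ht)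

private theorem T20_proper (D : Bal V d q j) (X Y : Finset V) (ω : V → Fin q × Fin q) (hs : src D X Y ω) :
    ∀ s t, D.G.Adj s t → s ∉ X ∪ Y → t ∉ X ∪ Y →
      (T20_sw D (X ∪ Y) ω s).1 ≠ (T20_sw D (X ∪ Y) ω t).1 ∧ (T20_sw D (X ∪ Y) ω s).2 ≠ (T20_sw D (X ∪ Y) ω t).2 := by
  intro s t ha h1 h2
  have hp1 : (ω s).1 ≠ (ω t).1 := hs.1.1 s t ha
  have hp2 : (ω s).2 ≠ (ω t).2 := hs.1.2 s t ha
  by_cases hsI : s ∈ T20_I D (X ∪ Y) ω <;> by_cases htI : t ∈ T20_I D (X ∪ Y) ω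
  · rw [T20_sw_mem D _ ω hsI, T20_sw_mem D _ ω htI]
    exact ⟨hp2, hp1⟩
  · rw [T20_sw_mem D _ ω hsI, T20_sw_not D _ ω htI]
    obtain ⟨h3, h4⟩ := T20_cross D X Y ω hs ha h2 hsI htI
    exact ⟨h4, h3⟩
  · rw [T20_sw_not D _ ω hsI, T20_sw_mem D _ ω htI]
    obtain ⟨h3, h4⟩ := T20_cross D X Y ω hs ha.symm h1 htI hsI
    exact ⟨h4.symm, h3.symm⟩
  · rw [T20_sw_not D _ ω hsI, T20_sw_not D _ ω htI]
    exact ⟨hp1, hp2⟩

private theorem T20_s1_swap (D : Bal V d q j) (E : Finset V) (ω : V → Fin q × Fin q) (s : V) :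
    s1 D (T20_sw D E ω s) ↔ s1 D (ω s) := by
  by_cases h : s ∈ T20_I D E ω
  · rw [T20_sw_mem D _ ω h]
    exact or_comm
  · rw [T20_sw_not D _ ω h]

private theorem T20_gc_iff (D : Bal V d q j) (X Y : Finset V) (ω : V → Fin q × Fin q) (hs : src D X Y ω) {a b : V}
    (ha : a ∉ X ∪ Y) (hb : b ∉ X ∪ Y) : gc D (T20_sw D (X ∪ Y) ω) a b ↔ gc D ω a b := by
  by_cases haI : a ∈ T20_I D (X ∪ Y) ω <;> by_cases hbI : b ∈ T20_I D (X ∪ Y) ω
  · unfold gc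
    rw [T20_sw_mem D _ ω haI, T20_sw_mem D _ ω hbI]
    exact and_congr_right fun _ => or_comm
  · constructor
    · rintro ⟨h1, h2⟩
      exfalso
      rw [T20_sw_mem D _ ω haI, T20_sw_not D _ ω hbI] at h2
      rcases h2 with ⟨h2, -⟩ | ⟨h2, -⟩
      · exact hs.1.2 a b h1 h2
      · exact hs.1.1 a b h1 h2
    · intro h
      exact absurd (T20_I_gc D _ ω haI h hb) hbI
  · constructor
    · rintro ⟨h1, h2⟩
      exfalso
      rw [T20_sw_not D _ ω haI, T20_sw_mem D _ ω hbI] at h2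
      rcases h2 with ⟨h2, -⟩ | ⟨h2, -⟩
      · exact hs.1.1 a b h1 h2
      · exact hs.1.2 a b h1 h2
    · intro h
      exact absurd (T20_I_gc D _ ω hbI (T20_gc_symm D ω h) ha) haI
  · unfold gc
    rw [T20_sw_not D _ ω haI, T20_sw_not D _ ω hbI]

/-- the set is determined by the image -/
private theorem T20_I_eq (D : Bal V d q j) (X Y : Finset V) (ω : V → Fin q × Fin q) (hs : src D X Y ω) :
    T20_I D (X ∪ Y) (T20_sw D (X ∪ Y) ω) = T20_I D (X ∪ Y) ω := by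
  have key : ∀ (ω₁ ω₂ : V → Fin q × Fin q), (∀ a b, a ∉ X ∪ Y → b ∉ X ∪ Y → gc D ω₁ a b → gc D ω₂ a b) →
      (∀ s, s1 D (ω₁ s) → s1 D (ω₂ s)) → T20_I D (X ∪ Y) ω₁ ⊆ T20_I D (X ∪ Y) ω₂ := by
    intro ω₁ ω₂ hgc h1 s hs
    obtain ⟨s₀, h0, h2, hc⟩ := hs
    refine ⟨s₀, h0, h1 _ h2, ?_⟩
    have hind : s ∉ X ∪ Y ∧ Relation.ReflTransGen (fun a b => gc D ω₂ a b ∧ b ∉ X ∪ Y) s₀ s := by
      induction hc with
      | refl => exact ⟨h0, Relation.ReflTransGen.refl⟩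
      | tail _ hbc ih => exact ⟨hbc.2, ih.2.tail ⟨hgc _ _ ih.1 hbc.2 hbc.1, hbc.2⟩⟩
    exact hind.2
  apply Set.Subset.antisymm
  · exact key _ _ (fun a b ha hb h => (T20_gc_iff D X Y ω hs ha hb).1 h) (fun s h => (T20_s1_swap D _ ω s).1 h)
  · exact key _ _ (fun a b ha hb h => (T20_gc_iff D X Y ω hs ha hb).2 h) (fun s h => (T20_s1_swap D _ ω s).2 h)

private theorem T20_inj (D : Bal V d q j) (X Y : Finset V) (ω₁ ω₂ : V → Fin q × Fin q) (h1 : src D X Y ω₁)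
    (h2 : src D X Y ω₂) (h : T20_sw D (X ∪ Y) ω₁ = T20_sw D (X ∪ Y) ω₂) : ω₁ = ω₂ := by
  have hI : T20_I D (X ∪ Y) ω₁ = T20_I D (X ∪ Y) ω₂ := by
    rw [← T20_I_eq D X Y ω₁ h1, ← T20_I_eq D X Y ω₂ h2, h]
  funext s
  have hs := congrFun h s
  by_cases hsI : s ∈ T20_I D (X ∪ Y) ω₁
  · rw [T20_sw_mem D _ ω₁ hsI, T20_sw_mem D _ ω₂ (hI ▸ hsI)] at hs
    exact Prod.swap_injective hs
  · rw [T20_sw_not D _ ω₁ hsI, T20_sw_not D _ ω₂ (hI ▸ hsI)] at hs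
    exact hs

open scoped Classical in
private theorem T20_tgt (D : Bal V d q j) (X Y : Finset V) (ω : V → Fin q × Fin q) (hs : src D X Y ω) :
    tgt D X Y (T20_sw D (X ∪ Y) ω) := by
  have hp := T20_proper D X Y ω hs
  have hn2 := fun (s : V) (h : s ∈ T20_I D (X ∪ Y) ω) => T20_I_s2 D X Y ω hs h
  have hn1 := fun (s : V) (hE : s ∉ X ∪ Y) (h : s ∉ T20_I D (X ∪ Y) ω) (h1 : s1 D (ω s)) =>
    h (T20_I_s1 D _ ω hE h1)
  obtain ⟨hpr, hX, hY, hN, hJ1, hJ2⟩ := hs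
  refine ⟨⟨fun s t hst => (hp s t hst.1 hst.2.1 hst.2.2).1, fun s t hst => (hp s t hst.1 hst.2.1 hst.2.2).2⟩, ?_, ?_, ?_, ?_⟩
  · intro y hy
    have hyI : y ∉ T20_I D (X ∪ Y) ω := fun h => T20_I_not D _ ω h (Finset.mem_union_right _ hy)
    rw [T20_sw_not D _ ω hyI]
    rw [← hY, X00, Finset.mem_filter] at hy
    exact hy.2.2
  · intro x hev hxX hcon
    have hxE : x ∉ X ∪ Y := by
      intro hx
      rcases Finset.mem_union.1 hx with h | h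
      · exact hxX h
      · rw [← hY, X00, Finset.mem_filter] at h
        exact h.2.1 hev
    by_cases hxI : x ∈ T20_I D (X ∪ Y) ω
    · rw [T20_sw_mem D _ ω hxI] at hcon
      exact hn2 x hxI (Or.inr hcon.1)
    · rw [T20_sw_not D _ ω hxI] at hcon
      exact hn1 x hxE hxI (Or.inr hcon.2)
  · refine le_trans ?_ hJ2
    unfold nJ
    refine Nat.cast_le.2 (Finset.card_le_card fun v hv => ?_)
    rw [Finset.mem_filter] at hv ⊢
    refine ⟨hv.1, hv.2.1, ?_⟩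
    have hv3 := hv.2.2.2
    by_cases hvI : v ∈ T20_I D (X ∪ Y) ω
    · rw [T20_sw_mem D _ ω hvI] at hv3
      exact absurd (Or.inr hv3) (hn2 v hvI)
    · rw [T20_sw_not D _ ω hvI] at hv3
      exact hv3
  · refine le_trans ?_ hJ1
    unfold nJ
    refine Nat.cast_le.2 (Finset.card_le_card fun v hv => ?_)
    rw [Finset.mem_filter] at hv ⊢
    refine ⟨hv.1, hv.2.1, ?_⟩
    have hv3 := hv.2.2.2
    by_cases hvI : v ∈ T20_I D (X ∪ Y) ω
    · rw [T20_sw_mem D _ ω hvI] at hv3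
      exact hv3
    · rw [T20_sw_not D _ ω hvI] at hv3
      exact absurd (Or.inr hv3) (hn1 v hv.2.2.1 hvI)

open scoped Classical in
theorem swap_count (D : Bal V d q j) (X Y : Finset V) :
    (univ.filter fun ω : V → Fin q × Fin q => src D X Y ω).card ≤
      (univ.filter fun ω : V → Fin q × Fin q => tgt D X Y ω).card := by
  refine Finset.card_le_card_of_injOn (T20_sw D (X ∪ Y)) ?_ ?_
  · intro ω hω
    have h : src D X Y ω := (Finset.mem_filter.1 (Finset.mem_coe.1 hω)).2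
    exact Finset.mem_coe.2 (Finset.mem_filter.2 ⟨Finset.mem_univ _, T20_tgt D X Y ω h⟩)
  · intro ω₁ h1 ω₂ h2 h
    exact T20_inj D X Y ω₁ ω₂ (Finset.mem_filter.1 (Finset.mem_coe.1 h1)).2 (Finset.mem_filter.1 (Finset.mem_coe.1 h2)).2 h

end

end Pool.Agent.LC3
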