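import Pool.Agent.Lib_MP_2c424f_lc3.T05
import Pool.Agent.Lib_MP_2c424f_lc3.T00

/-!
# Part III, T21: one class of images

`G' = dlG G (X ∪ Y)` is bipartite.  `cl G' ev ω = piFinset (Sx G' ev ω)` (`cl_eq`).  The number of its elements with the property is the product over the vertices of the numbers of the allowed values, and for even
`x ∉ X` the proportion of the allowed values is `1 - |R ∩ J2| |R' ∩ J1| / (|R| |R'|) ≤ exp(-|R ∩ J2| |R' ∩ J1| / q^2)`, `R = Rv G' (fo ω) x`, `R' = Rv G' (go ω) x` (if one of the sets is empty the class is empty: nothing to prove; `|R|, |R'| ≤ q`).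
`|R ∩ J2| ≥ j - s_x`, `s_x = #{y ~ x in G' : (ω y).1 ∈ J2}`, `|R' ∩ J1| ≥ j - s'_x`, `s'_x = #{y ~ x in G' : (ω y).2 ∈ J1}`, so `|R ∩ J2| |R' ∩ J1| ≥ j^2 - j s_x - j s'_x` (in all cases).
`∑_x s_x ≤ 2 d n1`, `∑_x s'_x ≤ 2 d n1` (neighbours of even vertices in `G'` are odd and outside `X ∪ Y`; degrees `≤ 2 d`), `n1 = (j/q) N / 10^20`; number of even `x ∉ X` at least `N/2 - N/100`.
Exponent: `((0.49) N j^2 - j · 4 d n1) / q^2 ≥ jN / 3` as `4 d / q = 2 a ≤ 4000`.
-/

set_option autoImplicit false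

open Finset Filter

namespace Pool.Agent.LC3

open Pool.Agent.LO Pool.Agent.LIN Pool.Agent.THR Pool.Agent.COR Pool.Agent.LC

section
variable {V : Type} [Fintype V] [DecidableEq V] {d q j : ℕ}

open scoped Classical in
/-- few neighbours with colours in `J'`, many free colours of `J'` -/
private theorem T21_R (G : SimpleGraph V) (F : V → Fin q) (x : V) (J' : Finset (Fin q)) :
    (J'.card : ℝ) - ((univ.filter fun y => G.Adj x y ∧ F y ∈ J').card : ℝ) ≤ (((Rv G F x) ∩ J').card : ℝ) := by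
  have h1 : J' ⊆ (Rv G F x ∩ J') ∪ (univ.filter fun y => G.Adj x y ∧ F y ∈ J').image F := by
    intro c hc
    by_cases h : c ∈ Rv G F x
    · exact Finset.mem_union_left _ (Finset.mem_inter.2 ⟨h, hc⟩)
    · refine Finset.mem_union_right _ ?_
      unfold Rv at h
      rw [Finset.mem_filter] at h
      have h2 : ∃ y, G.Adj x y ∧ F y = c := by
        by_contra hcon
        push Not at hcon
        exact h ⟨Finset.mem_univ _, hcon⟩
      obtain ⟨y, hy, hyc⟩ := h2
      exact Finset.mem_image.2 ⟨y, Finset.mem_filter.2 ⟨Finset.mem_univ _, hy, hyc ▸ hc⟩, hyc⟩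
  have h2 : J'.card ≤ (Rv G F x ∩ J').card + (univ.filter fun y => G.Adj x y ∧ F y ∈ J').card :=
    (Finset.card_le_card h1).trans ((Finset.card_union_le _ _).trans (Nat.add_le_add_left Finset.card_image_le _))
  have h3 : (J'.card : ℝ) ≤ ((Rv G F x ∩ J').card : ℝ) + ((univ.filter fun y => G.Adj x y ∧ F y ∈ J').card : ℝ) := by
    exact_mod_cast h2
  linarith

private theorem T21_alg {a b s t J : ℝ} (ha : 0 ≤ a) (hb : 0 ≤ b) (hs : 0 ≤ s) (ht : 0 ≤ t) (hJ : 0 ≤ J)
    (h1 : J - s ≤ a) (h2 : J - t ≤ b) : J ^ 2 - J * s - J * t ≤ a * b := by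
  rcases le_total J s with h | h
  · have h3 : 0 ≤ a * b := mul_nonneg ha hb
    have h4 : J * J ≤ J * s := mul_le_mul_of_nonneg_left h hJ
    have h5 : 0 ≤ J * t := mul_nonneg hJ ht
    nlinarith
  · rcases le_total J t with h' | h'
    · have h3 : 0 ≤ a * b := mul_nonneg ha hb
      have h4 : J * J ≤ J * t := mul_le_mul_of_nonneg_left h' hJ
      have h5 : 0 ≤ J * s := mul_nonneg hJ hs
      nlinarith
    · have h3 : (J - s) * (J - t) ≤ a * b := mul_le_mul h1 h2 (by linarith) ha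
      have h4 : 0 ≤ s * t := mul_nonneg hs ht
      nlinarith

open scoped Classical in
/-- double counting -/
private theorem T21_deg (D : Bal V d q j) (E : Finset V) (F : V → Fin q) (J' : Finset (Fin q)) :
    ∑ x ∈ univ.filter (fun x => D.ev x), (((univ.filter fun y => (dlG D.G E).Adj x y ∧ F y ∈ J').card : ℕ) : ℝ) ≤
      2 * d * ((univ.filter fun v => ¬ D.ev v ∧ v ∉ E ∧ F v ∈ J').card : ℝ) := by
  have h1 : ∀ x ∈ univ.filter (fun x => D.ev x), (univ.filter fun y => (dlG D.G E).Adj x y ∧ F y ∈ J').card =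
      ((univ.filter fun v => ¬ D.ev v ∧ v ∉ E ∧ F v ∈ J').bipartiteAbove (fun x y => (dlG D.G E).Adj x y) x).card := by
    intro x hx
    have hx' := (Finset.mem_filter.1 hx).2
    congr 1
    ext y
    unfold Finset.bipartiteAbove
    simp only [Finset.mem_filter, Finset.mem_univ, true_and]
    constructor
    · rintro ⟨h2, h3⟩
      exact ⟨⟨(D.par x y h2.1).1 hx', h2.2.2, h3⟩, h2⟩
    · rintro ⟨⟨-, -, h3⟩, h2⟩
      exact ⟨h2, h3⟩
  have h2 : ∑ x ∈ univ.filter (fun x => D.ev x), (univ.filter fun y => (dlG D.G E).Adj x y ∧ F y ∈ J').card =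
      ∑ y ∈ univ.filter (fun v => ¬ D.ev v ∧ v ∉ E ∧ F v ∈ J'),
        ((univ.filter fun x => D.ev x).bipartiteBelow (fun x y => (dlG D.G E).Adj x y) y).card := by
    rw [Finset.sum_congr rfl h1]
    exact Finset.sum_card_bipartiteAbove_eq_sum_card_bipartiteBelow _
  have h3 : ∑ y ∈ univ.filter (fun v => ¬ D.ev v ∧ v ∉ E ∧ F v ∈ J'),
        ((univ.filter fun x => D.ev x).bipartiteBelow (fun x y => (dlG D.G E).Adj x y) y).card ≤
      (univ.filter fun v => ¬ D.ev v ∧ v ∉ E ∧ F v ∈ J').card * (2 * d) := by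
    refine Finset.sum_le_card_nsmul _ _ _ fun y _ => ?_
    rw [← D.deg y]
    refine Finset.card_le_card fun x hx => ?_
    unfold Finset.bipartiteBelow at hx
    rw [Finset.mem_filter] at hx
    unfold nb
    exact Finset.mem_filter.2 ⟨Finset.mem_univ _, hx.2.1.symm⟩
  have h4 := h2.trans_le h3
  have h5 : ((∑ x ∈ univ.filter (fun x => D.ev x), (univ.filter fun y => (dlG D.G E).Adj x y ∧ F y ∈ J').card : ℕ) : ℝ) ≤
      (((univ.filter fun v => ¬ D.ev v ∧ v ∉ E ∧ F v ∈ J').card * (2 * d) : ℕ) : ℝ) := by exact_mod_cast h4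
  push_cast at h5
  linarith

open scoped Classical in
/-- proportion of the allowed values -/
private theorem T21_fac (R R' J1 J2 : Finset (Fin q)) :
    (((R ×ˢ R').filter fun a : Fin q × Fin q => ¬ (a.1 ∈ J2 ∧ a.2 ∈ J1)).card : ℝ) ≤
      Real.exp (-(((R ∩ J2).card : ℝ) * ((R' ∩ J1).card : ℝ) / (q : ℝ) ^ 2)) * ((R ×ˢ R').card : ℝ) := by
  have h1 : ((R ×ˢ R').filter fun a : Fin q × Fin q => (a.1 ∈ J2 ∧ a.2 ∈ J1)) = (R ∩ J2) ×ˢ (R' ∩ J1) := by
    ext a
    simp only [Finset.mem_filter, Finset.mem_product, Finset.mem_inter]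
    tauto
  have h2 := Finset.card_filter_add_card_filter_not (s := R ×ˢ R') (fun a : Fin q × Fin q => (a.1 ∈ J2 ∧ a.2 ∈ J1))
  rw [h1, Finset.card_product] at h2
  have h3 : (((R ∩ J2).card : ℝ) * ((R' ∩ J1).card : ℝ)) +
      (((R ×ˢ R').filter fun a : Fin q × Fin q => ¬ (a.1 ∈ J2 ∧ a.2 ∈ J1)).card : ℝ) = ((R ×ˢ R').card : ℝ) := by
    exact_mod_cast h2
  set P : ℝ := ((R ∩ J2).card : ℝ) * ((R' ∩ J1).card : ℝ) with hP
  have hP0 : 0 ≤ P := by positivity
  set M : ℝ := ((R ×ˢ R').card : ℝ) with hM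
  have hM0 : 0 ≤ M := by positivity
  have hR : (R.card : ℝ) ≤ q := by
    have : R.card ≤ q := by simpa using Finset.card_le_univ R
    exact_mod_cast this
  have hR' : (R'.card : ℝ) ≤ q := by
    have : R'.card ≤ q := by simpa using Finset.card_le_univ R'
    exact_mod_cast this
  have hMq : M ≤ (q : ℝ) ^ 2 := by
    rw [hM, Finset.card_product]
    push_cast
    have : (0 : ℝ) ≤ R'.card := by positivity
    nlinarith
  have h4 : (((R ×ˢ R').filter fun a : Fin q × Fin q => ¬ (a.1 ∈ J2 ∧ a.2 ∈ J1)).card : ℝ) = M - P := by linarith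
  rw [h4]
  rcases eq_or_lt_of_le hM0 with h | h
  · have hPM : P ≤ M := by
      have : (0 : ℝ) ≤ (((R ×ˢ R').filter fun a : Fin q × Fin q => ¬ (a.1 ∈ J2 ∧ a.2 ∈ J1)).card : ℝ) := by positivity
      linarith
    rw [← h]
    linarith
  · have hq : (0 : ℝ) < (q : ℝ) ^ 2 := lt_of_lt_of_le h hMq
    have h5 : 1 - P / (q : ℝ) ^ 2 ≤ Real.exp (-(P / (q : ℝ) ^ 2)) := by
      have := Real.add_one_le_exp (-(P / (q : ℝ) ^ 2))
      linarith
    have h6 : P / (q : ℝ) ^ 2 ≤ P / M := div_le_div_of_nonneg_left hP0 h hMq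
    have h7 : P = P / M * M := by field_simp
    calc M - P = (1 - P / M) * M := by rw [sub_mul, one_mul, ← h7]
      _ ≤ (1 - P / (q : ℝ) ^ 2) * M := mul_le_mul_of_nonneg_right (by linarith) hM0
      _ ≤ Real.exp (-(P / (q : ℝ) ^ 2)) * M := mul_le_mul_of_nonneg_right h5 hM0

open scoped Classical in
theorem class_le (D : Bal V d q j) (X Y : Finset V) (hX : (X.card : ℝ) ≤ (Fintype.card V : ℝ) / 100)
    (ω : V → Fin q × Fin q)
    (h1 : ((univ.filter fun v => ¬ D.ev v ∧ v ∉ X ∪ Y ∧ (ω v).1 ∈ D.J2).card : ℝ) ≤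
      (j : ℝ) / q * Fintype.card V / 10 ^ 20)
    (h2 : ((univ.filter fun v => ¬ D.ev v ∧ v ∉ X ∪ Y ∧ (ω v).2 ∈ D.J1).card : ℝ) ≤
      (j : ℝ) / q * Fintype.card V / 10 ^ 20) :
    (((cl (dlG D.G (X ∪ Y)) D.ev ω).filter fun ω' =>
        ∀ x, D.ev x → x ∉ X → ¬ ((ω' x).1 ∈ D.J2 ∧ (ω' x).2 ∈ D.J1)).card : ℝ) ≤
      Real.exp (-(jN D / 3)) * ((cl (dlG D.G (X ∪ Y)) D.ev ω).card : ℝ) := by
  have hPar : Par (dlG D.G (X ∪ Y)) D.ev := fun x y h => D.par x y h.1
  set G' := dlG D.G (X ∪ Y) with hG'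
  rw [cl_eq G' D.ev hPar ω]
  -- the allowed values
  let T : V → Finset (Fin q × Fin q) := fun v =>
    if D.ev v ∧ v ∉ X then (Sx G' D.ev ω v).filter fun a => ¬ (a.1 ∈ D.J2 ∧ a.2 ∈ D.J1) else Sx G' D.ev ω v
  have hT : ((Fintype.piFinset (Sx G' D.ev ω)).filter fun ω' : V → Fin q × Fin q =>
      ∀ x, D.ev x → x ∉ X → ¬ ((ω' x).1 ∈ D.J2 ∧ (ω' x).2 ∈ D.J1)) = Fintype.piFinset T := by
    ext ω'
    simp only [Finset.mem_filter, Fintype.mem_piFinset, T]
    constructor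
    · rintro ⟨h3, h4⟩ v
      by_cases hv : D.ev v ∧ v ∉ X
      · rw [if_pos hv]
        exact Finset.mem_filter.2 ⟨h3 v, h4 v hv.1 hv.2⟩
      · rw [if_neg hv]
        exact h3 v
    · intro h3
      refine ⟨fun v => ?_, fun v hv1 hv2 => ?_⟩
      · have h4 := h3 v
        by_cases hv : D.ev v ∧ v ∉ X
        · rw [if_pos hv] at h4
          exact (Finset.mem_filter.1 h4).1
        · rw [if_neg hv] at h4
          exact h4
      · have h4 := h3 v
        rw [if_pos ⟨hv1, hv2⟩] at h4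
        exact (Finset.mem_filter.1 h4).2
  rw [hT, Fintype.card_piFinset, Fintype.card_piFinset]
  push_cast
  -- the exponents
  let w : V → ℝ := fun v => if D.ev v ∧ v ∉ X then
    ((Rv G' (fo ω) v ∩ D.J2).card : ℝ) * ((Rv G' (go ω) v ∩ D.J1).card : ℝ) / (q : ℝ) ^ 2 else 0
  have hfac : ∀ v, ((T v).card : ℝ) ≤ Real.exp (-w v) * ((Sx G' D.ev ω v).card : ℝ) := by
    intro v
    by_cases hv : D.ev v ∧ v ∉ X
    · simp only [T, w, if_pos hv]
      have hS : Sx G' D.ev ω v = Rv G' (fo ω) v ×ˢ Rv G' (go ω) v := if_pos hv.1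
      rw [hS]
      exact T21_fac _ _ D.J1 D.J2
    · simp only [T, w, if_neg hv, neg_zero, Real.exp_zero, one_mul]
      exact le_rfl
  have hprod : ∏ v, ((T v).card : ℝ) ≤ Real.exp (-∑ v, w v) * ∏ v, ((Sx G' D.ev ω v).card : ℝ) := by
    calc ∏ v, ((T v).card : ℝ) ≤ ∏ v, (Real.exp (-w v) * ((Sx G' D.ev ω v).card : ℝ)) :=
          Finset.prod_le_prod (fun v _ => by positivity) fun v _ => hfac v
      _ = Real.exp (-∑ v, w v) * ∏ v, ((Sx G' D.ev ω v).card : ℝ) := by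
          rw [Finset.prod_mul_distrib, ← Real.exp_sum, Finset.sum_neg_distrib]
  refine hprod.trans (mul_le_mul_of_nonneg_right (Real.exp_le_exp.2 (neg_le_neg ?_)) (by positivity))
  -- lower bound for the exponent
  have hj : (1 : ℝ) ≤ j := by exact_mod_cast D.j1
  have hjq : 50 * (j : ℝ) ≤ q := by exact_mod_cast D.jq
  have hq : (0 : ℝ) < q := by linarith
  have hd : 2 * (d : ℝ) ≤ 2000 * q := by exact_mod_cast D.rg.2.2
  set N : ℝ := (Fintype.card V : ℝ) with hN
  have hN0 : 0 ≤ N := by positivity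
  let s : V → ℝ := fun x => (((univ.filter fun y => G'.Adj x y ∧ (ω y).1 ∈ D.J2).card : ℕ) : ℝ)
  let s' : V → ℝ := fun x => (((univ.filter fun y => G'.Adj x y ∧ (ω y).2 ∈ D.J1).card : ℕ) : ℝ)
  have hs0 : ∀ x, 0 ≤ s x := fun x => by simp only [s]; positivity
  have hs0' : ∀ x, 0 ≤ s' x := fun x => by simp only [s']; positivity
  have hw : ∀ x, D.ev x → x ∉ X → ((j : ℝ) ^ 2 - j * s x - j * s' x) / (q : ℝ) ^ 2 ≤ w x := by
    intro x hx1 hx2
    simp only [w, if_pos (And.intro hx1 hx2)]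
    refine div_le_div_of_nonneg_right ?_ (by positivity)
    refine T21_alg (by positivity) (by positivity) (hs0 x) (hs0' x) (by positivity) ?_ ?_
    · have h3 := T21_R G' (fo ω) x D.J2
      rw [D.c2] at h3
      exact h3
    · have h3 := T21_R G' (go ω) x D.J1
      rw [D.c1] at h3
      exact h3
  have hsum1 : ∑ x ∈ univ.filter (fun x => D.ev x), s x ≤ 2 * d * ((j : ℝ) / q * N / 10 ^ 20) := by
    refine (T21_deg D (X ∪ Y) (fun v => (ω v).1) D.J2).trans ?_
    exact mul_le_mul_of_nonneg_left h1 (by positivity)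
  have hsum2 : ∑ x ∈ univ.filter (fun x => D.ev x), s' x ≤ 2 * d * ((j : ℝ) / q * N / 10 ^ 20) := by
    refine (T21_deg D (X ∪ Y) (fun v => (ω v).2) D.J1).trans ?_
    exact mul_le_mul_of_nonneg_left h2 (by positivity)
  -- the number of the even vertices outside `X`
  have hcard : N / 2 - N / 100 ≤ ((univ.filter fun x => D.ev x ∧ x ∉ X).card : ℝ) := by
    have h3 : (univ.filter fun x => D.ev x).card ≤ (univ.filter fun x => D.ev x ∧ x ∉ X).card + X.card := by
      refine (Finset.card_le_card ?_).trans (Finset.card_union_le _ _)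
      intro x hx
      by_cases hxX : x ∈ X
      · exact Finset.mem_union_right _ hxX
      · exact Finset.mem_union_left _ (Finset.mem_filter.2 ⟨Finset.mem_univ _, (Finset.mem_filter.1 hx).2, hxX⟩)
    have h4 : 2 * ((univ.filter fun x => D.ev x).card : ℝ) = N := by
      have := D.half
      rw [hN]
      exact_mod_cast this
    have h5 : ((univ.filter fun x => D.ev x).card : ℝ) ≤ ((univ.filter fun x => D.ev x ∧ x ∉ X).card : ℝ) + (X.card : ℝ) := by
      exact_mod_cast h3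
    linarith
  have hwsum : ∑ v, w v = ∑ x ∈ univ.filter (fun x => D.ev x ∧ x ∉ X), w x := by
    rw [Finset.sum_filter]
    refine Finset.sum_congr rfl fun v _ => ?_
    by_cases hv : D.ev v ∧ v ∉ X
    · rw [if_pos hv]
    · rw [if_neg hv]
      simp only [w, if_neg hv]
  have hsub : ∀ f : V → ℝ, (∀ x, 0 ≤ f x) → ∑ x ∈ univ.filter (fun x => D.ev x ∧ x ∉ X), f x ≤
      ∑ x ∈ univ.filter (fun x => D.ev x), f x := by
    intro f hf
    refine Finset.sum_le_sum_of_subset_of_nonneg (fun x hx => ?_) (fun x _ _ => hf x)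
    rw [Finset.mem_filter] at hx ⊢
    exact ⟨hx.1, hx.2.1⟩
  have hA : ∑ x ∈ univ.filter (fun x => D.ev x ∧ x ∉ X), ((j : ℝ) ^ 2 - j * s x - j * s' x) ≤
      (q : ℝ) ^ 2 * ∑ v, w v := by
    rw [hwsum, Finset.mul_sum]
    refine Finset.sum_le_sum fun x hx => ?_
    obtain ⟨-, hx1, hx2⟩ := Finset.mem_filter.1 hx
    have h3 := hw x hx1 hx2
    rw [div_le_iff₀ (by positivity)] at h3
    linarith
  have hB : ∑ x ∈ univ.filter (fun x => D.ev x ∧ x ∉ X), ((j : ℝ) ^ 2 - j * s x - j * s' x) =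
      ((univ.filter fun x => D.ev x ∧ x ∉ X).card : ℝ) * (j : ℝ) ^ 2 -
        j * ∑ x ∈ univ.filter (fun x => D.ev x ∧ x ∉ X), s x -
        j * ∑ x ∈ univ.filter (fun x => D.ev x ∧ x ∉ X), s' x := by
    rw [Finset.sum_sub_distrib, Finset.sum_sub_distrib, Finset.mul_sum, Finset.mul_sum, Finset.sum_const, nsmul_eq_mul]
  have hC1 := (hsub s hs0).trans hsum1
  have hC2 := (hsub s' hs0').trans hsum2
  have hD1 : 2 * (d : ℝ) * ((j : ℝ) / q * N / 10 ^ 20) ≤ 2000 * (j * N / 10 ^ 20) := by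
    have h3 : 2 * (d : ℝ) * ((j : ℝ) / q * N / 10 ^ 20) = (2 * d) / q * (j * N / 10 ^ 20) := by
      field_simp
    rw [h3]
    refine mul_le_mul_of_nonneg_right ?_ (by positivity)
    rw [div_le_iff₀ hq]
    exact hd
  have hE : (N / 2 - N / 100) * (j : ℝ) ^ 2 - j * (2000 * (j * N / 10 ^ 20)) - j * (2000 * (j * N / 10 ^ 20)) ≤
      (q : ℝ) ^ 2 * ∑ v, w v := by
    have h3 : (N / 2 - N / 100) * (j : ℝ) ^ 2 ≤ ((univ.filter fun x => D.ev x ∧ x ∉ X).card : ℝ) * (j : ℝ) ^ 2 :=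
      mul_le_mul_of_nonneg_right hcard (by positivity)
    have h4 : (j : ℝ) * ∑ x ∈ univ.filter (fun x => D.ev x ∧ x ∉ X), s x ≤ j * (2000 * (j * N / 10 ^ 20)) :=
      mul_le_mul_of_nonneg_left (hC1.trans hD1) (by positivity)
    have h5 : (j : ℝ) * ∑ x ∈ univ.filter (fun x => D.ev x ∧ x ∉ X), s' x ≤ j * (2000 * (j * N / 10 ^ 20)) :=
      mul_le_mul_of_nonneg_left (hC2.trans hD1) (by positivity)
    linarith
  have hF : (q : ℝ) ^ 2 * (jN D / 3) ≤ (q : ℝ) ^ 2 * ∑ v, w v := by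
    refine le_trans ?_ hE
    have h3 : (q : ℝ) ^ 2 * (jN D / 3) = (j : ℝ) ^ 2 * N / 3 := by
      unfold jN
      rw [← hN]
      field_simp
    rw [h3]
    have h4 : 0 ≤ (j : ℝ) ^ 2 * N := by positivity
    nlinarith
  exact le_of_mul_le_mul_left hF (by positivity)

end

end Pool.Agent.LC3
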