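import Pool.Agent.Lib_MP_2c424f_lc3.T21

/-!
# Part III, T22: the images for fixed `X`, `Y`

`G' = dlG G (X ∪ Y)`.
`tgt_le`: `Ω` = the `ω` with `PrP G' ω`, `s1 ∧ s2` on `Y` (`Y` consists of odd vertices), and the two counting conditions of `tgt`: closed under `cl G' ev` (all conditions except `PrP` concern odd vertices).
`sum_cl_le` with `h` = indicator of the third condition of `tgt`, `K = exp(-jN/3)`, `class_le`.
`Y_factor`: the vertices of `Y` are isolated in `G'`.  Induction over `Y' ⊆ Y`: the map `(ω, a) ↦ (Function.update ω y a, ω y)` is injective from `{PrP, conditions on insert y Y'} × (Fin q × Fin q)` to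
`{PrP, conditions on Y'} × {a : s1 a ∧ s2 a}`, and `#{a : s1 a ∧ s2 a} = 2 j^2` (`J1 × J2` and `J2 × J1`).
-/

set_option autoImplicit false

open Finset Filter

namespace Pool.Agent.LC3

open Pool.Agent.LO Pool.Agent.LIN Pool.Agent.THR Pool.Agent.COR Pool.Agent.LC

section
variable {V : Type} [Fintype V] [DecidableEq V] {d q j : ℕ}

omit [Fintype V] [DecidableEq V] in
private theorem T22_card {α : Type} [Fintype α] (P : α → Prop) (i1 i2 : DecidablePred P) :
    ((@Finset.filter α P i1 univ).card : ℝ) = ((@Finset.filter α P i2 univ).card : ℝ) := by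
  have e : i1 = i2 := Subsingleton.elim _ _
  subst e
  rfl

open scoped Classical in
omit [DecidableEq V] in
private theorem T22_good (D : Bal V d q j) :
    ((univ.filter fun a : Fin q × Fin q => s1 D a ∧ s2 D a).card : ℝ) ≤ 2 * (j : ℝ) ^ 2 := by
  have h1 : (univ.filter fun a : Fin q × Fin q => s1 D a ∧ s2 D a) ⊆ D.J1 ×ˢ D.J2 ∪ D.J2 ×ˢ D.J1 := by
    intro a ha
    obtain ⟨h1, h2⟩ := (Finset.mem_filter.1 ha).2
    have hdis : ∀ c, c ∈ D.J1 → c ∈ D.J2 → False := fun c hc hc' =>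
      Finset.disjoint_left.1 D.dis hc hc'
    rw [Finset.mem_union, Finset.mem_product, Finset.mem_product]
    rcases h1 with h1 | h1
    · rcases h2 with h2 | h2
      · exact (hdis _ h1 h2).elim
      · exact Or.inl ⟨h1, h2⟩
    · rcases h2 with h2 | h2
      · exact Or.inr ⟨h2, h1⟩
      · exact (hdis _ h1 h2).elim
  have h2 : (univ.filter fun a : Fin q × Fin q => s1 D a ∧ s2 D a).card ≤ j * j + j * j := by
    refine (Finset.card_le_card h1).trans ((Finset.card_union_le _ _).trans ?_)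
    rw [Finset.card_product, Finset.card_product, D.c1, D.c2]
  have h3 : ((univ.filter fun a : Fin q × Fin q => s1 D a ∧ s2 D a).card : ℝ) ≤ (j : ℝ) * j + j * j := by
    exact_mod_cast h2
  linarith

omit [Fintype V] in
private theorem T22_upd (G : SimpleGraph V) (X : Finset V) {y : V} (hy : y ∈ X) (ω : V → Fin q × Fin q)
    (a : Fin q × Fin q) (h : PrP (dlG G X) ω) : PrP (dlG G X) (Function.update ω y a) := by
  have key : ∀ x, x ∉ X → Function.update ω y a x = ω x := by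
    intro x hx
    have hne : x ≠ y := by
      rintro rfl
      exact hx hy
    exact Function.update_of_ne hne _ _
  constructor
  · intro u v huv
    have e1 := key u huv.2.1
    have e2 := key v huv.2.2
    show (Function.update ω y a u).1 ≠ (Function.update ω y a v).1
    rw [e1, e2]
    exact h.1 u v huv
  · intro u v huv
    have e1 := key u huv.2.1
    have e2 := key v huv.2.2
    show (Function.update ω y a u).2 ≠ (Function.update ω y a v).2
    rw [e1, e2]
    exact h.2 u v huv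

open scoped Classical in
private theorem T22_step (D : Bal V d q j) (X Z : Finset V) (y : V) (hy : y ∈ X) (hyZ : y ∉ Z) :
    cP (dlG D.G X) (fun ω => ∀ z ∈ insert y Z, s1 D (ω z) ∧ s2 D (ω z)) ≤
      (2 * (j : ℝ) ^ 2 / (q : ℝ) ^ 2) * cP (dlG D.G X) (fun ω => ∀ z ∈ Z, s1 D (ω z) ∧ s2 D (ω z)) := by
  have hq : (0 : ℝ) < (q : ℝ) := by
    have h1 := D.j1
    have h2 := D.jq
    have h3 : 0 < q := by omega
    exact_mod_cast h3
  set S1 : Finset (V → Fin q × Fin q) :=
    univ.filter fun ω => PrP (dlG D.G X) ω ∧ ∀ z ∈ insert y Z, s1 D (ω z) ∧ s2 D (ω z) with hS1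
  set S0 : Finset (V → Fin q × Fin q) :=
    univ.filter fun ω => PrP (dlG D.G X) ω ∧ ∀ z ∈ Z, s1 D (ω z) ∧ s2 D (ω z) with hS0
  have hc1 : cP (dlG D.G X) (fun ω => ∀ z ∈ insert y Z, s1 D (ω z) ∧ s2 D (ω z)) = (S1.card : ℝ) :=
    T22_card _ _ _
  have hc0 : cP (dlG D.G X) (fun ω => ∀ z ∈ Z, s1 D (ω z) ∧ s2 D (ω z)) = (S0.card : ℝ) :=
    T22_card _ _ _
  rw [hc1, hc0]
  have hinj : (S1 ×ˢ (univ : Finset (Fin q × Fin q))).card ≤
      (S0 ×ˢ (univ.filter fun a : Fin q × Fin q => s1 D a ∧ s2 D a)).card := by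
    refine Finset.card_le_card_of_injOn (fun p => (Function.update p.1 y p.2, p.1 y)) ?_ ?_
    · rintro ⟨ω, a⟩ hp
      rw [Finset.mem_coe, Finset.mem_product] at hp
      obtain ⟨h1, h2⟩ := (Finset.mem_filter.1 hp.1).2
      rw [Finset.mem_coe, Finset.mem_product]
      refine ⟨Finset.mem_filter.2 ⟨Finset.mem_univ _, T22_upd D.G X hy ω a h1, ?_⟩,
        Finset.mem_filter.2 ⟨Finset.mem_univ _, h2 y (Finset.mem_insert_self y Z)⟩⟩
      intro z hz
      have hne : z ≠ y := fun e => hyZ (e ▸ hz)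
      show s1 D (Function.update ω y a z) ∧ s2 D (Function.update ω y a z)
      rw [Function.update_of_ne hne]
      exact h2 z (Finset.mem_insert_of_mem hz)
    · rintro ⟨ω, a⟩ _ ⟨ω', a'⟩ _ h
      have h1 : Function.update ω y a = Function.update ω' y a' := (Prod.mk.inj h).1
      have h2 : ω y = ω' y := (Prod.mk.inj h).2
      have h3 : a = a' := by
        have h4 := congrFun h1 y
        rwa [Function.update_self, Function.update_self] at h4
      have h5 : ω = ω' := by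
        funext x
        by_cases hx : x = y
        · rw [hx, h2]
        · have h6 := congrFun h1 x
          rwa [Function.update_of_ne hx, Function.update_of_ne hx] at h6
      rw [h3, h5]
  rw [Finset.card_product, Finset.card_product, Finset.card_univ, Fintype.card_prod, Fintype.card_fin] at hinj
  have h1 : (S1.card : ℝ) * ((q : ℝ) * q) ≤
      (S0.card : ℝ) * ((univ.filter fun a : Fin q × Fin q => s1 D a ∧ s2 D a).card : ℝ) := by
    exact_mod_cast hinj
  have h2 : (S1.card : ℝ) * ((q : ℝ) * q) ≤ (S0.card : ℝ) * (2 * (j : ℝ) ^ 2) :=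
    h1.trans (mul_le_mul_of_nonneg_left (T22_good D) (Nat.cast_nonneg _))
  rw [div_mul_eq_mul_div, le_div_iff₀ (by positivity)]
  calc (S1.card : ℝ) * (q : ℝ) ^ 2 = (S1.card : ℝ) * ((q : ℝ) * q) := by ring
    _ ≤ (S0.card : ℝ) * (2 * (j : ℝ) ^ 2) := h2
    _ = 2 * (j : ℝ) ^ 2 * (S0.card : ℝ) := by ring

open scoped Classical in
theorem tgt_le (D : Bal V d q j) (X Y : Finset V) (hX : (X.card : ℝ) ≤ (Fintype.card V : ℝ) / 100)
    (hY : ∀ y ∈ Y, ¬ D.ev y) :
    ((univ.filter fun ω : V → Fin q × Fin q => tgt D X Y ω).card : ℝ) ≤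
      Real.exp (-(jN D / 3)) * cP (dlG D.G (X ∪ Y)) (fun ω => ∀ y ∈ Y, s1 D (ω y) ∧ s2 D (ω y)) := by
  set G' := dlG D.G (X ∪ Y) with hG'
  set Ω : Finset (V → Fin q × Fin q) := univ.filter fun ω => PrP G' ω ∧ (∀ y ∈ Y, s1 D (ω y) ∧ s2 D (ω y)) ∧
    (((univ.filter fun v => ¬ D.ev v ∧ v ∉ X ∪ Y ∧ (ω v).1 ∈ D.J2).card : ℝ) ≤ (j : ℝ) / q * Fintype.card V / 10 ^ 20) ∧
    (((univ.filter fun v => ¬ D.ev v ∧ v ∉ X ∪ Y ∧ (ω v).2 ∈ D.J1).card : ℝ) ≤ (j : ℝ) / q * Fintype.card V / 10 ^ 20)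
    with hΩ
  have hp : ∀ ω ∈ Ω, PrP G' ω := fun ω hω => (Finset.mem_filter.1 hω).2.1
  have hc : ∀ ω ∈ Ω, cl G' D.ev ω ⊆ Ω := by
    intro ω hω ω' hω'
    obtain ⟨-, h1, h2, h3, h4⟩ := Finset.mem_filter.1 hω
    have hcl : PrP G' ω' ∧ so D.ev ω' ω := by
      unfold cl at hω'
      exact (Finset.mem_filter.1 hω').2
    obtain ⟨h5, h6⟩ := hcl
    refine Finset.mem_filter.2 ⟨Finset.mem_univ _, h5, ?_, ?_, ?_⟩
    · intro y hy
      rw [h6 y (hY y hy)]
      exact h2 y hy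
    · have e : (univ.filter fun v => ¬ D.ev v ∧ v ∉ X ∪ Y ∧ (ω' v).1 ∈ D.J2) =
          univ.filter fun v => ¬ D.ev v ∧ v ∉ X ∪ Y ∧ (ω v).1 ∈ D.J2 := by
        refine Finset.filter_congr fun v _ => and_congr_right fun hv => ?_
        rw [h6 v hv]
      rw [e]
      exact h3
    · have e : (univ.filter fun v => ¬ D.ev v ∧ v ∉ X ∪ Y ∧ (ω' v).2 ∈ D.J1) =
          univ.filter fun v => ¬ D.ev v ∧ v ∉ X ∪ Y ∧ (ω v).2 ∈ D.J1 := by
        refine Finset.filter_congr fun v _ => and_congr_right fun hv => ?_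
        rw [h6 v hv]
      rw [e]
      exact h4
  have hmain := sum_cl_le G' D.ev Ω hp hc
    (fun ω => if (∀ x, D.ev x → x ∉ X → ¬ ((ω x).1 ∈ D.J2 ∧ (ω x).2 ∈ D.J1)) then (1 : ℝ) else 0)
    (Real.exp (-(jN D / 3))) (by
      intro ω hω
      obtain ⟨-, h1, h2, h3, h4⟩ := Finset.mem_filter.1 hω
      rw [Finset.sum_boole]
      exact class_le D X Y hX ω h3 h4)
  rw [Finset.sum_boole] at hmain
  have e1 : (univ.filter fun ω : V → Fin q × Fin q => tgt D X Y ω) =
      Ω.filter fun ω => ∀ x, D.ev x → x ∉ X → ¬ ((ω x).1 ∈ D.J2 ∧ (ω x).2 ∈ D.J1) := by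
    rw [hΩ, Finset.filter_filter]
    refine Finset.filter_congr fun ω _ => ?_
    unfold tgt
    constructor
    · rintro ⟨h1, h2, h3, h4, h5⟩
      exact ⟨⟨h1, h2, h4, h5⟩, h3⟩
    · rintro ⟨⟨h1, h2, h4, h5⟩, h3⟩
      exact ⟨h1, h2, h3, h4, h5⟩
  rw [e1]
  refine hmain.trans (mul_le_mul_of_nonneg_left ?_ (Real.exp_pos _).le)
  have e2 : Ω.card ≤ (univ.filter fun ω : V → Fin q × Fin q => PrP G' ω ∧ ∀ y ∈ Y, s1 D (ω y) ∧ s2 D (ω y)).card := by
    refine Finset.card_le_card fun ω hω => ?_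
    obtain ⟨-, h1, h2, -⟩ := Finset.mem_filter.1 hω
    exact Finset.mem_filter.2 ⟨Finset.mem_univ _, h1, h2⟩
  have e3 : (Ω.card : ℝ) ≤
      ((univ.filter fun ω : V → Fin q × Fin q => PrP G' ω ∧ ∀ y ∈ Y, s1 D (ω y) ∧ s2 D (ω y)).card : ℝ) := by
    exact_mod_cast e2
  exact e3.trans (le_of_eq (T22_card _ _ _))

open scoped Classical in
theorem Y_factor (D : Bal V d q j) (X Y : Finset V) :
    cP (dlG D.G (X ∪ Y)) (fun ω => ∀ y ∈ Y, s1 D (ω y) ∧ s2 D (ω y)) ≤
      (2 * (j : ℝ) ^ 2 / (q : ℝ) ^ 2) ^ Y.card * cP (dlG D.G (X ∪ Y)) (fun _ : V → Fin q × Fin q => True) := by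
  have key : ∀ Z : Finset V, Z ⊆ Y → cP (dlG D.G (X ∪ Y)) (fun ω => ∀ z ∈ Z, s1 D (ω z) ∧ s2 D (ω z)) ≤
      (2 * (j : ℝ) ^ 2 / (q : ℝ) ^ 2) ^ Z.card * cP (dlG D.G (X ∪ Y)) (fun _ : V → Fin q × Fin q => True) := by
    intro Z
    induction Z using Finset.induction_on with
    | empty =>
      intro _
      rw [Finset.card_empty, pow_zero, one_mul]
      refine le_of_eq ?_
      congr 1
      funext ω
      simp
    | insert y Z hyZ ih =>
      intro hsub
      have h1 := T22_step D (X ∪ Y) Z y (Finset.mem_union_right _ (hsub (Finset.mem_insert_self y Z))) hyZ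
      have h2 := ih fun z hz => hsub (Finset.mem_insert_of_mem hz)
      rw [Finset.card_insert_of_notMem hyZ, pow_succ']
      calc _ ≤ _ := h1
        _ ≤ _ := mul_le_mul_of_nonneg_left h2 (by positivity)
        _ = _ := by ring
  exact key Y (Finset.Subset.refl Y)

end

end Pool.Agent.LC3
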