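import Pool.Agent.Lib_MP_2c424f_lc3.T00
import Pool.Agent.Lib_MP_2c424f_lc5.V02

/-!
# Part III, T23: products; deleting the edges at few vertices

`cP_mul`: a pair is a pair.  `cP_dl`: `cP_mul` and `dl_le` (`V02`): `exp(8 d |S| / q)^2 = exp(8 a |S|)`; `deg`, `q ≥ 2` (`num_q`).
-/

set_option autoImplicit false

open Finset Filter

namespace Pool.Agent.LC3

open Pool.Agent.LO Pool.Agent.LIN Pool.Agent.THR Pool.Agent.COR Pool.Agent.LC

section
variable {V : Type} [Fintype V] [DecidableEq V] {d q j : ℕ}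

private theorem T23_mul (G : SimpleGraph V) (P Q : (V → Fin q) → Prop) (R : (V → Fin q × Fin q) → Prop)
    (hR : ∀ ω, R ω ↔ P (fo ω) ∧ Q (go ω)) : cP G R = cG G P * cG G Q := by
  classical
  unfold cP cG
  rw [← Nat.cast_mul, ← Finset.card_product]
  refine congrArg (fun n : ℕ => (n : ℝ)) ?_
  refine Finset.card_bij (fun ω _ => (fo ω, go ω)) ?_ ?_ ?_
  · intro ω hω
    rw [Finset.mem_filter, hR] at hω
    rw [Finset.mem_product, Finset.mem_filter, Finset.mem_filter]
    exact ⟨⟨Finset.mem_univ _, hω.2.1.1, hω.2.2.1⟩, ⟨Finset.mem_univ _, hω.2.1.2, hω.2.2.2⟩⟩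
  · intro ω _ ω' _ h
    rw [Prod.mk.injEq] at h
    funext v
    exact Prod.ext (congrFun h.1 v) (congrFun h.2 v)
  · rintro ⟨f, g⟩ h
    rw [Finset.mem_product, Finset.mem_filter, Finset.mem_filter] at h
    refine ⟨fun v => (f v, g v), ?_, rfl⟩
    rw [Finset.mem_filter, hR]
    exact ⟨Finset.mem_univ _, ⟨h.1.2.1, h.2.2.1⟩, h.1.2.2, h.2.2.2⟩

theorem cP_mul (G : SimpleGraph V) (P Q : (V → Fin q) → Prop) :
    cP G (fun ω => P (fo ω) ∧ Q (go ω)) = cG G P * cG G Q := by
  exact T23_mul G P Q _ fun _ => Iff.rfl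

theorem cP_dl (D : Bal V d q j) (S : Finset V) :
    cP (dlG D.G S) (fun _ : V → Fin q × Fin q => True) ≤
      Real.exp (8 * ra d q * S.card) * (cG D.G fun _ : V → Fin q => True) ^ 2 := by
  classical
  have hd : 1 ≤ d := le_trans (by norm_num) D.dl
  have hq : 2 ≤ q := by
    have h1 := (num_q D.rg hd).1
    obtain ⟨r, hr⟩ := D.rg.1
    omega
  have hq0 : (0 : ℝ) < q := by
    have : 0 < q := by omega
    exact_mod_cast this
  have h1 : cP (dlG D.G S) (fun _ : V → Fin q × Fin q => True) =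
      (cG (dlG D.G S) fun _ : V → Fin q => True) * (cG (dlG D.G S) fun _ : V → Fin q => True) := by
    rw [← cP_mul]
    refine congrArg (cP (dlG D.G S)) ?_
    funext ω
    exact (and_self True).symm
  have hdeg : ∀ v, (nb D.G v).card ≤ 4 * d := by
    intro v
    rw [D.deg v]
    omega
  have h2 := dl_le hq D.par hdeg S
  have h0 : 0 ≤ cG (dlG D.G S) (fun _ : V → Fin q => True) := by
    unfold cG
    positivity
  have h3 : 0 ≤ cG D.G (fun _ : V → Fin q => True) := by
    unfold cG
    positivity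
  rw [h1]
  have h4 : Real.exp (8 * ra d q * S.card) =
      Real.exp (8 * d * S.card / q) * Real.exp (8 * d * S.card / q) := by
    rw [← Real.exp_add]
    congr 1
    unfold ra
    field_simp
    ring
  rw [h4]
  calc cG (dlG D.G S) (fun _ : V → Fin q => True) * cG (dlG D.G S) (fun _ : V → Fin q => True) ≤
      (Real.exp (8 * d * S.card / q) * cG D.G fun _ : V → Fin q => True) *
        (Real.exp (8 * d * S.card / q) * cG D.G fun _ : V → Fin q => True) :=
        mul_le_mul h2 h2 h0 (mul_nonneg (Real.exp_pos _).le h3)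
    _ = _ := by ring

end

end Pool.Agent.LC3
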