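import Pool.Agent.Lib_MP_2c424f_lc3.T00
import Pool.Agent.Lib_MP_2c424f_lc5.V12a

/-!
# Part III, T24: sums over `X` and `Y`

`sum_X`: every term is at most `exp(8 a s)`, `s = 6 N / d^5`, and there are at most `exp(L s + N e^{-L})` sets (`small_subsets`, `W = univ`), `L = 4 log d`: the exponent is
`N (48 a / d^5 + 24 log d / d^5 + 1/d^4) ≤ N / d^3` (`a ≤ 2000`, `d ≥ 10^10`).
`sum_Y`: with `n0 = jN / 10^20`, `r = 2 (j/q)^2 e^{8a}`, `λ = e^{-9a}`: `∑_{|Y| ≤ n0} r^{|Y|} ≤ λ^{-n0} ∑_Y (r λ)^{|Y|} = e^{9 a n0} (1 + r λ)^N ≤ exp(9 a n0 + 2 (j/q)^2 e^{-a} N) ≤ exp(jN / 10^10)`.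
(`∑_Y x^{|Y|} = (1 + x)^N`: `Finset.sum_pow_mul_eq_add_pow` or `Finset.prod_one_add`.)
-/

set_option autoImplicit false

open Finset Filter

namespace Pool.Agent.LC3

open Pool.Agent.LO Pool.Agent.LIN Pool.Agent.THR Pool.Agent.COR Pool.Agent.LC

section
variable {V : Type} [Fintype V] [DecidableEq V] {d q j : ℕ}

open scoped Classical in
theorem sum_X (D : Bal V d q j) :
    ∑ X ∈ univ.filter (fun X : Finset V => (X.card : ℝ) ≤ 6 * (Fintype.card V : ℝ) / (d : ℝ) ^ 5),
      Real.exp (8 * ra d q * X.card) ≤ Real.exp ((Fintype.card V : ℝ) / (d : ℝ) ^ 3) := by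
  have hd : (10 : ℝ) ^ 10 ≤ (d : ℝ) := by exact_mod_cast D.dl
  have hd0 : (0 : ℝ) < d := lt_of_lt_of_le (by positivity) hd
  have hd1 : 1 ≤ d := by
    have : (1 : ℝ) ≤ d := le_trans (by norm_num) hd
    exact_mod_cast this
  obtain ⟨ha1, ha2⟩ := num_a D.rg hd1
  set N : ℝ := (Fintype.card V : ℝ) with hN
  have hN0 : 0 ≤ N := Nat.cast_nonneg _
  set s : ℝ := 6 * N / (d : ℝ) ^ 5 with hs
  have hs0 : 0 ≤ s := by positivity
  have hlog0 : 0 ≤ Real.log d := Real.log_nonneg (le_trans (by norm_num) hd)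
  have hlog : Real.log d ≤ d := (Real.log_le_sub_one_of_pos hd0).trans (by linarith)
  have hcard := small_subsets (univ : Finset V) s (4 * Real.log d) (by positivity)
  have hset : ((univ : Finset V).powerset.filter fun D => (D.card : ℝ) ≤ s)
      = univ.filter (fun X : Finset V => (X.card : ℝ) ≤ s) := by
    ext X
    simp
  rw [hset, Finset.card_univ, ← hN] at hcard
  have hexp : Real.exp (-(4 * Real.log d)) = 1 / (d : ℝ) ^ 4 := by
    rw [Real.exp_neg, show (4 : ℝ) * Real.log d = ((4 : ℕ) : ℝ) * Real.log d by norm_num, Real.exp_nat_mul,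
      Real.exp_log hd0, one_div]
  rw [hexp] at hcard
  have hterm : ∀ X ∈ univ.filter (fun X : Finset V => (X.card : ℝ) ≤ s),
      Real.exp (8 * ra d q * X.card) ≤ Real.exp (8 * ra d q * s) := by
    intro X hX
    apply Real.exp_le_exp.2
    have hX' : (X.card : ℝ) ≤ s := (Finset.mem_filter.1 hX).2
    apply mul_le_mul_of_nonneg_left hX'
    linarith
  calc ∑ X ∈ univ.filter (fun X : Finset V => (X.card : ℝ) ≤ s), Real.exp (8 * ra d q * X.card)
      ≤ ∑ _X ∈ univ.filter (fun X : Finset V => (X.card : ℝ) ≤ s), Real.exp (8 * ra d q * s) :=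
        Finset.sum_le_sum hterm
    _ = ((univ.filter (fun X : Finset V => (X.card : ℝ) ≤ s)).card : ℝ) * Real.exp (8 * ra d q * s) := by
        rw [Finset.sum_const, nsmul_eq_mul]
    _ ≤ Real.exp (4 * Real.log d * s + N * (1 / (d : ℝ) ^ 4)) * Real.exp (8 * ra d q * s) :=
        mul_le_mul_of_nonneg_right hcard (Real.exp_pos _).le
    _ = Real.exp (4 * Real.log d * s + N * (1 / (d : ℝ) ^ 4) + 8 * ra d q * s) := by
        rw [← Real.exp_add]
    _ ≤ Real.exp (N / (d : ℝ) ^ 3) := by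
        apply Real.exp_le_exp.2
        have h1 : 4 * Real.log d * s ≤ 4 * d * s := by
          apply mul_le_mul_of_nonneg_right _ hs0
          linarith
        have h2 : 8 * ra d q * s ≤ 16000 * s := by
          apply mul_le_mul_of_nonneg_right _ hs0
          linarith
        have h3 : 16000 * s ≤ d * s := by
          apply mul_le_mul_of_nonneg_right _ hs0
          exact le_trans (by norm_num) hd
        have h4 : (5 * d : ℝ) * s = 30 * N / (d : ℝ) ^ 4 := by
          rw [hs]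
          field_simp
          ring
        have h5 : 31 * N / (d : ℝ) ^ 4 ≤ N / (d : ℝ) ^ 3 := by
          rw [div_le_div_iff₀ (by positivity) (by positivity)]
          have h6 : (31 : ℝ) ≤ d := le_trans (by norm_num) hd
          have h7 : 0 ≤ N * (d : ℝ) ^ 3 := by positivity
          nlinarith [mul_le_mul_of_nonneg_right h6 h7]
        have h8 : 31 * N / (d : ℝ) ^ 4 = 30 * N / (d : ℝ) ^ 4 + N * (1 / (d : ℝ) ^ 4) := by ring
        nlinarith

open scoped Classical in
theorem sum_Y (D : Bal V d q j) :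
    ∑ Y ∈ univ.filter (fun Y : Finset V => (Y.card : ℝ) ≤ jN D / 10 ^ 20),
      (2 * (j : ℝ) ^ 2 / (q : ℝ) ^ 2) ^ Y.card * Real.exp (8 * ra d q * Y.card) ≤ Real.exp (jN D / 10 ^ 10) := by
  have hd : (10 : ℝ) ^ 10 ≤ (d : ℝ) := by exact_mod_cast D.dl
  have hd1 : 1 ≤ d := by
    have : (1 : ℝ) ≤ d := le_trans (by norm_num) hd
    exact_mod_cast this
  obtain ⟨ha1, ha2⟩ := num_a D.rg hd1
  obtain ⟨he, _, _⟩ := num_e D.rg hd1
  set a : ℝ := ra d q with ha
  set n0 : ℝ := jN D / 10 ^ 20 with hn0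
  set x : ℝ := 2 * (j : ℝ) ^ 2 / (q : ℝ) ^ 2 * Real.exp (-a) with hx
  have hx0 : 0 ≤ x := by positivity
  have hterm : ∀ Y ∈ univ.filter (fun Y : Finset V => (Y.card : ℝ) ≤ n0),
      (2 * (j : ℝ) ^ 2 / (q : ℝ) ^ 2) ^ Y.card * Real.exp (8 * a * Y.card)
        ≤ Real.exp (9 * a * n0) * ∏ _i ∈ Y, x := by
    intro Y hY
    have hY' : (Y.card : ℝ) ≤ n0 := (Finset.mem_filter.1 hY).2
    rw [Finset.prod_const, hx, mul_pow, ← Real.exp_nat_mul]
    have h1 : Real.exp (8 * a * Y.card) ≤ Real.exp (9 * a * n0) * Real.exp ((Y.card : ℝ) * -a) := by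
      rw [← Real.exp_add]
      apply Real.exp_le_exp.2
      have : 9 * a * (Y.card : ℝ) ≤ 9 * a * n0 := mul_le_mul_of_nonneg_left hY' (by linarith)
      linarith
    calc (2 * (j : ℝ) ^ 2 / (q : ℝ) ^ 2) ^ Y.card * Real.exp (8 * a * Y.card)
        ≤ (2 * (j : ℝ) ^ 2 / (q : ℝ) ^ 2) ^ Y.card * (Real.exp (9 * a * n0) * Real.exp ((Y.card : ℝ) * -a)) :=
          mul_le_mul_of_nonneg_left h1 (by positivity)
      _ = Real.exp (9 * a * n0) * ((2 * (j : ℝ) ^ 2 / (q : ℝ) ^ 2) ^ Y.card * Real.exp ((Y.card : ℝ) * -a)) := by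
          ring
  calc ∑ Y ∈ univ.filter (fun Y : Finset V => (Y.card : ℝ) ≤ n0),
        (2 * (j : ℝ) ^ 2 / (q : ℝ) ^ 2) ^ Y.card * Real.exp (8 * a * Y.card)
      ≤ ∑ Y ∈ univ.filter (fun Y : Finset V => (Y.card : ℝ) ≤ n0), Real.exp (9 * a * n0) * ∏ _i ∈ Y, x :=
        Finset.sum_le_sum hterm
    _ ≤ ∑ Y ∈ (univ : Finset V).powerset, Real.exp (9 * a * n0) * ∏ _i ∈ Y, x := by
        apply Finset.sum_le_sum_of_subset_of_nonneg
        · intro Y _
          simp
        · intro Y _ _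
          apply mul_nonneg (Real.exp_pos _).le
          exact Finset.prod_nonneg fun _ _ => hx0
    _ = Real.exp (9 * a * n0) * (1 + x) ^ Fintype.card V := by
        rw [← Finset.mul_sum, ← Finset.prod_one_add, Finset.prod_const, Finset.card_univ]
    _ ≤ Real.exp (9 * a * n0) * Real.exp ((Fintype.card V : ℝ) * x) := by
        apply mul_le_mul_of_nonneg_left _ (Real.exp_pos _).le
        rw [Real.exp_nat_mul]
        have h6 : 1 + x ≤ Real.exp x := by
          have := Real.add_one_le_exp x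
          linarith
        gcongr
    _ = Real.exp (9 * a * n0 + (Fintype.card V : ℝ) * x) := by rw [← Real.exp_add]
    _ ≤ Real.exp (jN D / 10 ^ 10) := by
        apply Real.exp_le_exp.2
        have hj0 : 0 ≤ jN D := by
          unfold jN
          positivity
        have h1 : (Fintype.card V : ℝ) * x = 2 * jN D * Real.exp (-a) := by
          rw [hx]
          unfold jN
          rw [div_pow]
          ring
        have h2 : 2 * jN D * Real.exp (-a) ≤ 2 * jN D * (1 / 10 ^ 100) :=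
          mul_le_mul_of_nonneg_left he (by linarith)
        have h3 : 9 * a * n0 ≤ 18000 * n0 := by
          have : 0 ≤ n0 := by positivity
          apply mul_le_mul_of_nonneg_right _ this
          linarith
        rw [h1]
        have h4 : (18000 : ℝ) * n0 + 2 * jN D * (1 / 10 ^ 100) ≤ jN D / 10 ^ 10 := by
          rw [hn0]
          have h5 : jN D / 10 ^ 10 - (18000 * (jN D / 10 ^ 20) + 2 * jN D * (1 / 10 ^ 100))
              = jN D * (1 / 10 ^ 10 - 18000 / 10 ^ 20 - 2 / 10 ^ 100) := by ring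
          have h6 : (0 : ℝ) ≤ 1 / 10 ^ 10 - 18000 / 10 ^ 20 - 2 / 10 ^ 100 := by norm_num
          have h7 := mul_nonneg hj0 h6
          linarith
        linarith

end

end Pool.Agent.LC3
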