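import Pool.Agent.Lib_MP_2c424f_lc3.T18
import Pool.Agent.Lib_MP_2c424f_lc3.T20
import Pool.Agent.Lib_MP_2c424f_lc3.T22
import Pool.Agent.Lib_MP_2c424f_lc3.T23
import Pool.Agent.Lib_MP_2c424f_lc3.T24

/-!
# Part III, T25: BALANCE on a graph

`|OM| = cG (TTo A) cG (TTo B)` (`cP_mul`).  `QQ_NL`.  The pairs of `OM` with `QQ`, `NL` are in `src D X Y` for `X = X0`, `Y = X00` (odd vertices), `|X| ≤ 6 N / d^5` (`X0_card`, `≤ N/100`), `|Y| ≤ jN / 10^20`; so their number is at most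
`∑_X ∑_Y #src ≤ ∑_X ∑_Y #tgt` (`swap_count`) `≤ ∑_X ∑_Y e^{-jN/3} (2 j^2/q^2)^{|Y|} e^{8 a (|X| + |Y|)} Z^2` (`tgt_le`, `Y_factor`, `cP_dl`, `|X ∪ Y| ≤ |X| + |Y|`) `≤ e^{-jN/3 + N/d^3 + jN/10^10} Z^2` (`sum_X`, `sum_Y`).
`jN ≥ N / q^2 ≥ 250000 N / d^2` (`j ≥ 1`, `500 q ≤ d`), so `N/d^3 ≤ jN / 10^10`, and `2 ≤ exp(jN / 100)` as `N ≥ d^3`.
-/

set_option autoImplicit false

open Finset Filter

namespace Pool.Agent.LC3

open Pool.Agent.LO Pool.Agent.LIN Pool.Agent.THR Pool.Agent.COR Pool.Agent.LC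

section
variable {V : Type} [Fintype V] [DecidableEq V] {d q j : ℕ}

private theorem T25_jN_nonneg (D : Bal V d q j) : 0 ≤ jN D := by
  unfold jN
  positivity

open scoped Classical in
private theorem T25_src (D : Bal V d q j) (X Y : Finset V)
    (hX : (X.card : ℝ) ≤ 6 * (Fintype.card V : ℝ) / (d : ℝ) ^ 5) :
    ((univ.filter fun ω : V → Fin q × Fin q => src D X Y ω).card : ℝ) ≤
      Real.exp (-(jN D / 3)) * (cG D.G fun _ : V → Fin q => True) ^ 2 *
        (Real.exp (8 * ra d q * X.card) *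
          ((2 * (j : ℝ) ^ 2 / (q : ℝ) ^ 2) ^ Y.card * Real.exp (8 * ra d q * Y.card))) := by
  have hd : (10 : ℝ) ^ 10 ≤ d := by exact_mod_cast D.dl
  have hd0 : (0 : ℝ) < d := lt_of_lt_of_le (by norm_num) hd
  have hN0 : (0 : ℝ) ≤ Fintype.card V := Nat.cast_nonneg _
  have ha := num_a D.rg (le_trans (by norm_num) D.dl)
  by_cases hY : ∀ y ∈ Y, ¬ D.ev y
  · have hX' : (X.card : ℝ) ≤ (Fintype.card V : ℝ) / 100 := by
      refine hX.trans ?_
      rw [div_le_div_iff₀ (by positivity) (by norm_num)]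
      have h5 : (600 : ℝ) ≤ (d : ℝ) ^ 5 := by
        calc (600 : ℝ) ≤ (10 ^ 10) ^ 5 := by norm_num
          _ ≤ (d : ℝ) ^ 5 := pow_le_pow_left₀ (by norm_num) hd 5
      nlinarith
    have h1 : ((univ.filter fun ω : V → Fin q × Fin q => src D X Y ω).card : ℝ) ≤
        ((univ.filter fun ω : V → Fin q × Fin q => tgt D X Y ω).card : ℝ) := by
      exact_mod_cast swap_count D X Y
    have h2 := tgt_le D X Y hX' hY
    have h3 := Y_factor D X Y
    have h4 := cP_dl D (X ∪ Y)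
    have h5 : Real.exp (8 * ra d q * ((X ∪ Y).card : ℝ)) ≤
        Real.exp (8 * ra d q * X.card) * Real.exp (8 * ra d q * Y.card) := by
      rw [← Real.exp_add, Real.exp_le_exp]
      have h6 : (((X ∪ Y).card : ℕ) : ℝ) ≤ (X.card : ℝ) + Y.card := by exact_mod_cast card_union_le X Y
      have h7 : (0 : ℝ) ≤ 8 * ra d q := by linarith [ha.1]
      nlinarith
    have hZ : 0 ≤ (cG D.G fun _ : V → Fin q => True) ^ 2 := sq_nonneg _
    have hr : 0 ≤ (2 * (j : ℝ) ^ 2 / (q : ℝ) ^ 2) ^ Y.card := by positivity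
    calc _ ≤ _ := h1
      _ ≤ _ := h2
      _ ≤ Real.exp (-(jN D / 3)) * ((2 * (j : ℝ) ^ 2 / (q : ℝ) ^ 2) ^ Y.card *
          (Real.exp (8 * ra d q * X.card) * Real.exp (8 * ra d q * Y.card) *
            (cG D.G fun _ : V → Fin q => True) ^ 2)) := by
          refine mul_le_mul_of_nonneg_left (h3.trans (mul_le_mul_of_nonneg_left (h4.trans ?_) hr)) (Real.exp_pos _).le
          exact mul_le_mul_of_nonneg_right h5 hZ
      _ = _ := by ring
  · have h0 : (univ.filter fun ω : V → Fin q × Fin q => src D X Y ω) = ∅ := by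
      rw [Finset.filter_eq_empty_iff]
      intro ω _ h
      apply hY
      intro y hy
      rw [← h.2.2.1] at hy
      unfold X00 at hy
      exact (Finset.mem_filter.1 hy).2.1
    rw [h0, Finset.card_empty, Nat.cast_zero]
    positivity

theorem balance (D : Bal V d q j) (hN : (d : ℝ) ^ 3 ≤ Fintype.card V) :
    cG D.G (fun F : V → Fin q => TTo d D.G D.ev D.A F) * cG D.G (fun F : V → Fin q => TTo d D.G D.ev D.B F) ≤
      (cG D.G fun _ : V → Fin q => True) ^ 2 * Real.exp (-(jN D / 4)) := by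
  classical
  have hd1 : 1 ≤ d := le_trans (by norm_num) D.dl
  have hd : (10 : ℝ) ^ 10 ≤ d := by exact_mod_cast D.dl
  have hd0 : (0 : ℝ) < d := lt_of_lt_of_le (by norm_num) hd
  have hq := num_q D.rg hd1
  have hq0 : (0 : ℝ) < q := by exact_mod_cast hq.1
  have hq5 : (500 : ℝ) * q ≤ d := by exact_mod_cast hq.2.1
  have hj1 : (1 : ℝ) ≤ j := by exact_mod_cast D.j1
  set N : ℝ := (Fintype.card V : ℝ) with hNdef
  have hN0 : 0 ≤ N := Nat.cast_nonneg _
  set Z : ℝ := cG D.G fun _ : V → Fin q => True with hZdef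
  have hZ2 : 0 ≤ Z ^ 2 := sq_nonneg _
  -- size of jN
  have hjN : 250000 * N / (d : ℝ) ^ 2 ≤ jN D := by
    have h1 : N / (q : ℝ) ^ 2 ≤ jN D := by
      unfold jN
      rw [div_pow, ← hNdef]
      rw [div_mul_eq_mul_div]
      refine div_le_div_of_nonneg_right ?_ (by positivity)
      have : (1 : ℝ) ≤ (j : ℝ) ^ 2 := one_le_pow₀ hj1
      nlinarith
    refine le_trans ?_ h1
    rw [div_le_div_iff₀ (by positivity) (by positivity)]
    have h2 : (500 * (q : ℝ)) ^ 2 ≤ (d : ℝ) ^ 2 := pow_le_pow_left₀ (by positivity) hq5 2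
    nlinarith
  have hjN1 : 250000 * (d : ℝ) ≤ jN D := by
    refine le_trans ?_ hjN
    rw [le_div_iff₀ (by positivity)]
    nlinarith
  have hjN2 : N / (d : ℝ) ^ 3 ≤ jN D / 10 ^ 10 := by
    have h1 : N / (d : ℝ) ^ 3 = (250000 * N / (d : ℝ) ^ 2) / (250000 * d) := by
      field_simp
    rw [h1]
    have h2 : (0 : ℝ) ≤ 250000 * N / (d : ℝ) ^ 2 := by positivity
    calc (250000 * N / (d : ℝ) ^ 2) / (250000 * d) ≤ (250000 * N / (d : ℝ) ^ 2) / 10 ^ 10 := by
          refine div_le_div_of_nonneg_left h2 (by norm_num) ?_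
          nlinarith
      _ ≤ jN D / 10 ^ 10 := div_le_div_of_nonneg_right hjN (by norm_num)
  have hjN0 : 0 ≤ jN D := T25_jN_nonneg D
  have htwo : (2 : ℝ) ≤ Real.exp (jN D / 100) := by
    have h1 := Real.add_one_le_exp (jN D / 100)
    have h2 : (1 : ℝ) ≤ jN D / 100 := by
      rw [le_div_iff₀ (by norm_num)]
      nlinarith
    linarith
  -- the number of pairs
  have hOM : cG D.G (fun F : V → Fin q => TTo d D.G D.ev D.A F) * cG D.G (fun F : V → Fin q => TTo d D.G D.ev D.B F) =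
      ((OM D).card : ℝ) := by
    rw [← cP_mul]
    unfold cP
    exact congrArg (fun S : Finset (V → Fin q × Fin q) => (S.card : ℝ)) (by
      ext ω
      simp only [OM, Finset.mem_filter])
  rw [hOM]
  set SX : Finset (Finset V) := univ.filter (fun X : Finset V => (X.card : ℝ) ≤ 6 * (Fintype.card V : ℝ) / (d : ℝ) ^ 5)
  set SY : Finset (Finset V) := univ.filter (fun Y : Finset V => (Y.card : ℝ) ≤ jN D / 10 ^ 20)
  have hsub : (OM D).filter (fun ω => QQ D ω ∧ NL D ω) ⊆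
      SX.biUnion fun X => SY.biUnion fun Y => univ.filter fun ω : V → Fin q × Fin q => src D X Y ω := by
    intro ω hω
    obtain ⟨h1, h2, h3⟩ := Finset.mem_filter.1 hω
    rw [Finset.mem_biUnion]
    refine ⟨X0 D ω, Finset.mem_filter.2 ⟨Finset.mem_univ _, X0_card D h1⟩, ?_⟩
    rw [Finset.mem_biUnion]
    refine ⟨X00 D ω, Finset.mem_filter.2 ⟨Finset.mem_univ _, h2.2.1⟩, ?_⟩
    refine Finset.mem_filter.2 ⟨Finset.mem_univ _, ?_⟩
    have h4 : PrP D.G ω := by
      unfold OM at h1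
      exact (Finset.mem_filter.1 h1).2.1
    exact ⟨h4, rfl, rfl, h3, h2.2.2.1, h2.2.2.2⟩
  have hcount : (((OM D).filter fun ω => QQ D ω ∧ NL D ω).card : ℝ) ≤
      ∑ X ∈ SX, ∑ Y ∈ SY, ((univ.filter fun ω : V → Fin q × Fin q => src D X Y ω).card : ℝ) := by
    have h1 : ((OM D).filter fun ω => QQ D ω ∧ NL D ω).card ≤
        ∑ X ∈ SX, ∑ Y ∈ SY, (univ.filter fun ω : V → Fin q × Fin q => src D X Y ω).card := by
      refine (Finset.card_le_card hsub).trans (Finset.card_biUnion_le.trans (Finset.sum_le_sum fun X _ => ?_))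
      exact Finset.card_biUnion_le
    exact_mod_cast h1
  have hsum : ∑ X ∈ SX, ∑ Y ∈ SY, ((univ.filter fun ω : V → Fin q × Fin q => src D X Y ω).card : ℝ) ≤
      Real.exp (-(jN D / 3)) * Z ^ 2 * (Real.exp (N / (d : ℝ) ^ 3) * Real.exp (jN D / 10 ^ 10)) := by
    calc _ ≤ ∑ X ∈ SX, ∑ Y ∈ SY, Real.exp (-(jN D / 3)) * Z ^ 2 *
          (Real.exp (8 * ra d q * X.card) *
            ((2 * (j : ℝ) ^ 2 / (q : ℝ) ^ 2) ^ Y.card * Real.exp (8 * ra d q * Y.card))) := by
          refine Finset.sum_le_sum fun X hX => Finset.sum_le_sum fun Y _ => ?_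
          exact T25_src D X Y (Finset.mem_filter.1 hX).2
      _ = Real.exp (-(jN D / 3)) * Z ^ 2 * ((∑ X ∈ SX, Real.exp (8 * ra d q * X.card)) *
            ∑ Y ∈ SY, (2 * (j : ℝ) ^ 2 / (q : ℝ) ^ 2) ^ Y.card * Real.exp (8 * ra d q * Y.card)) := by
          rw [Finset.sum_mul_sum, Finset.mul_sum]
          refine Finset.sum_congr rfl fun X _ => ?_
          rw [Finset.mul_sum]
      _ ≤ _ := by
          refine mul_le_mul_of_nonneg_left (mul_le_mul (sum_X D) (sum_Y D) ?_ (Real.exp_pos _).le)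
            (mul_nonneg (Real.exp_pos _).le hZ2)
          exact Finset.sum_nonneg fun Y _ => by positivity
  have hQ := QQ_NL D
  calc ((OM D).card : ℝ) ≤ _ := hQ
    _ ≤ 2 * Real.exp (2 * (jN D / 10 ^ 20)) *
        (Real.exp (-(jN D / 3)) * Z ^ 2 * (Real.exp (N / (d : ℝ) ^ 3) * Real.exp (jN D / 10 ^ 10))) :=
        mul_le_mul_of_nonneg_left (hcount.trans hsum) (by positivity)
    _ ≤ Real.exp (jN D / 100) * Real.exp (2 * (jN D / 10 ^ 20)) *
        (Real.exp (-(jN D / 3)) * Z ^ 2 * (Real.exp (N / (d : ℝ) ^ 3) * Real.exp (jN D / 10 ^ 10))) := by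
        refine mul_le_mul_of_nonneg_right (mul_le_mul_of_nonneg_right htwo (Real.exp_pos _).le) (by positivity)
    _ = Z ^ 2 * Real.exp (jN D / 100 + 2 * (jN D / 10 ^ 20) + (-(jN D / 3)) + N / (d : ℝ) ^ 3 + jN D / 10 ^ 10) := by
        rw [Real.exp_add, Real.exp_add, Real.exp_add, Real.exp_add]
        ring
    _ ≤ Z ^ 2 * Real.exp (-(jN D / 4)) := by
        refine mul_le_mul_of_nonneg_left (Real.exp_le_exp.2 ?_) hZ2
        linarith

end

end Pool.Agent.LC3
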