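import Pool.Agent.Lib_MP_2c424f_lc3.Defs3
import Pool.Agent.Lib_MP_2c424f_cor.V01

/-!
# Part III, T26: the graph of the torus

`tG d k = gV univ`: `x ≠ y` and `y = x + sv σ`, `x = y + sv σ'` for some steps.  For `k ≥ 2` the `2 d` vectors `sv σ` are different and not 0, `-sv (i, b) = sv (i, !b)`, so `nb` is the image of the steps.
`evn (x + sv σ) ↔ ¬ evn x` for `k ≥ 1` (see `Lib_MP_2c424f_lo/Basic.lean` or `COR`).  `half`: `x ↦ x + sv σ` exchanges even and odd sites (`d ≥ 1`).
`cG_prps`: `PrG (tG d k) f ↔ Prp f` (`f (x + sv σ) ≠ f x`; `x + sv σ ≠ x` as `k ≥ 1`).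
-/

set_option autoImplicit false

open Finset Filter

namespace Pool.Agent.LC3

open Pool.Agent.LO Pool.Agent.LIN Pool.Agent.THR Pool.Agent.COR Pool.Agent.LC

section
variable {d k q : ℕ}

theorem tG_par (hk : 2 ≤ k) : Par (tG d k) evn := par_gV (by omega) univ

private theorem T26_adj (hk : 2 ≤ k) (x y : Site d k) :
    (tG d k).Adj x y ↔ ∃ σ : Stp d, y = x + sv σ := by
  unfold tG
  constructor
  · rintro ⟨-, -, -, h, -⟩
    exact h
  · rintro ⟨σ, rfl⟩
    exact (gV_adj (by omega) univ x σ).2 ⟨mem_univ _, mem_univ _⟩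

theorem tG_deg (hk : 2 ≤ k) (v : Site d k) : (nb (tG d k) v).card = 2 * d := by
  classical
  have h1 : nb (tG d k) v = (univ : Finset (Stp d)).image fun σ => v + sv σ := by
    ext x
    unfold nb
    rw [mem_filter, mem_image, T26_adj hk]
    constructor
    · rintro ⟨-, σ, rfl⟩
      exact ⟨σ, mem_univ _, rfl⟩
    · rintro ⟨σ, -, rfl⟩
      exact ⟨mem_univ _, σ, rfl⟩
  rw [h1, card_image_of_injective, card_univ, Fintype.card_prod, Fintype.card_fin,
    Fintype.card_bool, mul_comm]
  intro σ τ h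
  exact sv_inj hk (add_left_cancel h)

open scoped Classical in
theorem tG_half (hd : 1 ≤ d) (hk : 2 ≤ k) :
    2 * (univ.filter fun v : Site d k => evn v).card = Fintype.card (Site d k) := by
  have hk1 : 1 ≤ k := by omega
  set σ : Stp d := (⟨0, by omega⟩, true) with hσ
  have h1 : (univ.filter fun v : Site d k => evn v).card =
      (univ.filter fun v : Site d k => ¬ evn v).card := by
    refine Finset.card_bij (fun v _ => v + sv σ) ?_ ?_ ?_
    · intro v hv
      rw [mem_filter] at hv ⊢
      refine ⟨mem_univ _, ?_⟩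
      rw [evn_step hk1]
      exact not_not.2 hv.2
    · intro v _ w _ h
      exact add_right_cancel h
    · intro v hv
      rw [mem_filter] at hv
      refine ⟨v - sv σ, ?_, sub_add_cancel _ _⟩
      rw [mem_filter]
      refine ⟨mem_univ _, ?_⟩
      have h2 := evn_step hk1 (v - sv σ) σ
      rw [sub_add_cancel] at h2
      by_contra h3
      exact hv.2 (h2.2 h3)
  have h2 := Finset.card_filter_add_card_filter_not (s := (univ : Finset (Site d k)))
    (fun v => evn v)
  rw [card_univ] at h2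
  omega

theorem tG_shift (hd : 1 ≤ d) (hk : 2 ≤ k) : ∃ s : Equiv.Perm (Site d k),
    (∀ x y, (tG d k).Adj (s x) (s y) ↔ (tG d k).Adj x y) ∧ ∀ v, evn (s v) ↔ ¬ evn v := by
  set σ : Stp d := (⟨0, by omega⟩, true) with hσ
  refine ⟨Equiv.addRight (sv σ), fun x y => ?_, fun v => ?_⟩
  · rw [T26_adj hk, T26_adj hk]
    simp only [Equiv.coe_addRight]
    constructor
    · rintro ⟨τ, hτ⟩
      refine ⟨τ, ?_⟩
      rw [add_right_comm] at hτ
      exact add_right_cancel hτ
    · rintro ⟨τ, rfl⟩
      exact ⟨τ, add_right_comm _ _ _⟩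
  · exact evn_step (by omega) v σ

open scoped Classical in
theorem cG_prps (hk : 2 ≤ k) (P : (Site d k → Fin q) → Prop) :
    cG (tG d k) P = (((prps d k q).filter P).card : ℝ) := by
  have hk1 : 1 ≤ k := by omega
  unfold cG prps
  rw [Finset.filter_filter]
  congr 2
  ext f
  rw [mem_filter, mem_filter]
  have h : PrG (tG d k) f ↔ Prp f := by
    unfold tG
    rw [← prV_iff hk1]
    unfold PrV Prp
    exact ⟨fun h x σ => h x (mem_univ _) σ (mem_univ _), fun h x _ σ _ => h x σ⟩
  rw [h]

theorem NN_card : NN d k = (Fintype.card (Site d k) : ℝ) := (card_site d k).symm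

end

end Pool.Agent.LC3
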