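import Pool.Agent.Lib_MP_2c424f_lc3.T00
import Pool.Agent.Lib_MP_2c424f_lc.Defs
import Pool.Agent.Lib_MP_2c424f_thr.A1

/-!
# Part III, T27: labels: `|A|` and adjacent blocks

`ms_half`: `a = 2 d / q ≥ 1000 > 1`, so `MFE a m` has a solution (`THR.mfe_exists`) and `ms d q` is one.  `m ≥ 1/2`: by `THR.mfe_nondeg` `a^2 (1 - m^2) < 1`, so `m^2 > 1 - 10^{-6}`.
`ALP_card`: `∑_c frq false none c g = q` (every odd pair has one colour; `oS none` is not empty, `d ≥ 1`), `G0P`: `|frq false none c g - (1 - m)| ≤ 1/1000` for `c ∈ ALP g` (label false) and `|… - (1 + m)| ≤ 1/1000` for `c ∉ ALP g` (label true).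
So `|m (q - 2 |A|)| ≤ q / 1000`, and `m ≥ 1/2`.
`ALP_const`: blocks `t` and `t' = t + e_i` (`Function.update t i (t i + 1)`): the face `a i = b i = true` of `t` is the face `a i = b i = false` of `t'`: `pt t a b = pt t' (flp a i) (flp b i)` (see `Lib_MP_2c424f_thr/B1b.lean`:
`B1b_nxt_pt`, `B1b_bij`; copy the private lemmas).  So `frq e (some (i, true)) c (pat f t) = frq e (some (i, false)) c (pat f t')`.  If `c ∈ ALP (pat f t)`, `c ∉ ALP (pat f t')`: `G0P` gives label true for `t'`, and `|2 m| ≤ 2/1000`: impossible.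
The same with `t`, `t'` exchanged.  The torus of blocks is connected under these steps.
-/

set_option autoImplicit false

open Finset Filter

namespace Pool.Agent.LC3

open Pool.Agent.LO Pool.Agent.LIN Pool.Agent.THR Pool.Agent.COR Pool.Agent.LC

section
variable {d k q : ℕ}

theorem ms_half (hR : Rg d q) (hd : 1 ≤ d) : 1 / 2 ≤ ms d q ∧ MFE (ra d q) (ms d q) := by
  classical
  have ha := num_a hR hd
  have ha1 : (1 : ℝ) < ra d q := by linarith [ha.1]
  have hex := mfe_exists (ra d q) ha1
  have hms : MFE (ra d q) (ms d q) := by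
    unfold ms
    rw [dif_pos hex]
    exact hex.choose_spec
  refine ⟨?_, hms⟩
  have h1 := mfe_nondeg (ra d q) (ms d q) ha1 hms
  have h2 : 0 < ms d q := hms.1
  by_contra hlt
  push Not at hlt
  have h3 : (ms d q) ^ 2 ≤ 1 / 4 := by nlinarith
  have h4 : (1000 : ℝ) ^ 2 ≤ (ra d q) ^ 2 := by nlinarith [ha.1]
  nlinarith

private theorem T27_oS_pos (hd : 2 ≤ d) : 0 < (oS (none : Shp d)).card := by
  classical
  have hd0 : 0 < d := by omega
  apply Finset.card_pos.2
  refine ⟨(fun _ => false, Function.update (fun _ => false) ⟨0, hd0⟩ true), ?_⟩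
  unfold oS
  rw [Finset.mem_filter]
  refine ⟨Finset.mem_univ _, ?_, trivial⟩
  unfold od
  have h : (univ.filter fun i : Fin d => (fun _ => false : Bt d) i ≠
      Function.update (fun _ => false : Bt d) ⟨0, hd0⟩ true i) = {⟨0, hd0⟩} := by
    ext i
    rw [Finset.mem_filter, Finset.mem_singleton]
    by_cases h : i = ⟨0, hd0⟩
    · subst h
      simp
    · rw [Function.update_of_ne h]
      simp [h]
  dsimp only at h ⊢
  rw [h, Finset.card_singleton]
  exact odd_one

private theorem T27_sum (hd : 2 ≤ d) (g : Pat d q) : ∑ c, frq false none c g = q := by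
  classical
  unfold frq
  simp only [Bool.false_eq_true, if_false]
  rw [← Finset.sum_div, Finset.sum_comm]
  have h : ∀ p ∈ oS (none : Shp d), ∑ c, (if g p.1 p.2 = c then (q : ℝ) else 0) = q := by
    intro p _
    rw [Finset.sum_ite_eq]
    simp
  rw [Finset.sum_congr rfl h, Finset.sum_const, nsmul_eq_mul]
  have h2 : (0 : ℝ) < ((oS (none : Shp d)).card : ℝ) := by exact_mod_cast T27_oS_pos hd
  field_simp

private theorem T27_mem (g : Pat d q) (hg : G0P g) (c : Fin q) :
    (c ∈ ALP g ∧ st et false c g) ∨ (c ∉ ALP g ∧ st et true c g) := by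
  classical
  have hm : c ∈ ALP g ↔ st et false c g := by
    unfold ALP
    rw [Finset.mem_filter]
    simp
  by_cases h : st et false c g
  · exact Or.inl ⟨hm.2 h, h⟩
  · refine Or.inr ⟨fun h' => h (hm.1 h'), ?_⟩
    have h1 := hg c
    unfold bdP at h1
    by_contra h2
    exact h1 ⟨h2, h⟩

theorem ALP_card (hR : Rg d q) (hd : 2 ≤ d) (g : Pat d q) (hg : G0P g) :
    |((ALP g).card : ℝ) - q / 2| ≤ q / 500 := by
  classical
  have hm := (ms_half hR (by omega)).1
  have hs := T27_sum hd g
  set m := ms d q with hmdef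
  have h1 : ∀ c : Fin q, |frq false none c g - (if c ∈ ALP g then 1 - m else 1 + m)| ≤ 1 / 1000 := by
    intro c
    rcases T27_mem g hg c with ⟨h, h'⟩ | ⟨h, h'⟩
    · rw [if_pos h]
      have h2 := (h' none).2
      unfold et at h2
      exact h2
    · rw [if_neg h]
      have h2 := (h' none).1
      unfold et at h2
      simpa using h2
  have h2 : |∑ c : Fin q, (frq false none c g - (if c ∈ ALP g then 1 - m else 1 + m))| ≤ q / 1000 := by
    refine (Finset.abs_sum_le_sum_abs _ _).trans ?_
    refine (Finset.sum_le_sum fun c _ => h1 c).trans ?_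
    rw [Finset.sum_const, Finset.card_univ, Fintype.card_fin, nsmul_eq_mul]
    linarith
  rw [Finset.sum_sub_distrib, hs] at h2
  have h3 : ∑ c : Fin q, (if c ∈ ALP g then 1 - m else 1 + m) = q * (1 + m) - 2 * m * (ALP g).card := by
    have e : ∀ c : Fin q, (if c ∈ ALP g then 1 - m else 1 + m) = (1 + m) - (if c ∈ ALP g then 2 * m else 0) := by
      intro c
      split_ifs <;> ring
    rw [Finset.sum_congr rfl fun c _ => e c, Finset.sum_sub_distrib, Finset.sum_const, Finset.card_univ,
      Fintype.card_fin, nsmul_eq_mul, ← Finset.sum_filter]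
    rw [Finset.filter_mem_eq_inter, Finset.univ_inter, Finset.sum_const, nsmul_eq_mul]
    ring
  rw [h3] at h2
  have h4 : (q : ℝ) - (q * (1 + m) - 2 * m * (ALP g).card) = 2 * m * ((ALP g).card - q / 2) := by ring
  rw [h4, abs_mul, abs_of_nonneg (by linarith : (0 : ℝ) ≤ 2 * m)] at h2
  have h5 : 0 ≤ |((ALP g).card : ℝ) - q / 2| := abs_nonneg _
  have h6 : (0 : ℝ) ≤ q := Nat.cast_nonneg q
  nlinarith

private theorem T27_flp_self (a : Bt d) (j : Fin d) : flp a j j = !a j := by
  unfold flp
  exact Function.update_self _ _ _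

private theorem T27_flp_ne (a : Bt d) (i j : Fin d) (h : i ≠ j) : flp a j i = a i := by
  unfold flp
  exact Function.update_of_ne h _ _

private theorem T27_flp_flp (a : Bt d) (j : Fin d) : flp (flp a j) j = a := by
  funext i
  by_cases h : i = j
  · subst h
    rw [T27_flp_self, T27_flp_self, Bool.not_not]
  · rw [T27_flp_ne _ _ _ h, T27_flp_ne _ _ _ h]

private theorem T27_od (j : Fin d) (a b : Bt d) : od (flp a j) (flp b j) ↔ od a b := by
  unfold od
  have h : (univ.filter fun i => flp a j i ≠ flp b j i) = univ.filter fun i => a i ≠ b i := by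
    apply Finset.filter_congr
    intro i _
    by_cases hi : i = j
    · subst hi
      rw [T27_flp_self, T27_flp_self]
      cases a i <;> cases b i <;> simp
    · rw [T27_flp_ne _ _ _ hi, T27_flp_ne _ _ _ hi]
  rw [h]

private theorem T27_nxt_pt (t : Blk d k) (j : Fin d) (a b : Bt d) (ha : a j = true) (hb : b j = true) :
    pt (nxt t j) (flp a j) (flp b j) = pt t a b := by
  funext i
  unfold pt
  rw [Pi.add_apply, Pi.add_apply, Pi.add_apply, Pi.add_apply]
  by_cases hi : i = j
  · subst hi
    have e1 : ∀ u : ZMod (2 ^ k), ((2 * (u + 1).val : ℕ) : ZMod (2 ^ (k + 1))) =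
        ((2 * u.val : ℕ) : ZMod (2 ^ (k + 1))) + 2 := by
      intro u
      have e2 : (((2 * (u + 1).val : ℕ)) : ZMod (2 ^ (k + 1))) = ((2 * u.val + 2 : ℕ) : ZMod (2 ^ (k + 1))) := by
        rw [ZMod.natCast_eq_natCast_iff]
        have h1 : (u + 1).val ≡ u.val + 1 [MOD 2 ^ k] := by
          rw [← ZMod.natCast_eq_natCast_iff]
          push_cast
          rw [ZMod.natCast_zmod_val, ZMod.natCast_zmod_val]
        have h2 : 2 * (u + 1).val ≡ 2 * (u.val + 1) [MOD 2 * 2 ^ k] := h1.mul_left' 2
        have h3 : 2 * 2 ^ k = 2 ^ (k + 1) := by rw [pow_succ, mul_comm]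
        rw [h3] at h2
        exact h2
      rw [e2]
      push_cast
      ring
    simp only [bas, bv, nxt, Function.update_self, T27_flp_self, ha, hb]
    rw [e1]
    simp
    ring
  · simp only [bas, bv, nxt, Function.update_of_ne hi, T27_flp_ne _ _ _ hi]

private theorem T27_face (f : Site d (k + 1) → Fin q) (t : Blk d k) (j : Fin d) (c : Fin q) :
    frq false (some (j, true)) c (pat f t) = frq false (some (j, false)) c (pat f (nxt t j)) := by
  classical
  have m1 : ∀ (β : Bool) (p : Bt d × Bt d), p ∈ oS (some (j, β)) ↔ od p.1 p.2 ∧ (p.1 j = β ∧ p.2 j = β) := by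
    intro β p
    unfold oS
    rw [Finset.mem_filter]
    simp [inS]
  have gen : ∀ F G : Bt d × Bt d → ℝ, (∀ p ∈ oS (some (j, true)), F p = G (flp p.1 j, flp p.2 j)) →
      ∑ p ∈ oS (some (j, true)), F p = ∑ p ∈ oS (some (j, false)), G p := by
    intro F G hFG
    refine Finset.sum_nbij' (fun p => (flp p.1 j, flp p.2 j)) (fun p => (flp p.1 j, flp p.2 j)) ?_ ?_ ?_ ?_ hFG
    · intro p hp
      rw [m1] at hp ⊢
      refine ⟨(T27_od j p.1 p.2).2 hp.1, ?_, ?_⟩
      · dsimp only
        rw [T27_flp_self, hp.2.1]; rfl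
      · dsimp only
        rw [T27_flp_self, hp.2.2]; rfl
    · intro p hp
      rw [m1] at hp ⊢
      refine ⟨(T27_od j p.1 p.2).2 hp.1, ?_, ?_⟩
      · dsimp only
        rw [T27_flp_self, hp.2.1]; rfl
      · dsimp only
        rw [T27_flp_self, hp.2.2]; rfl
    · intro p _
      simp only [T27_flp_flp]
    · intro p _
      simp only [T27_flp_flp]
  unfold frq
  simp only [Bool.false_eq_true, if_false]
  have c1 := gen (fun _ => 1) (fun _ => 1) fun _ _ => rfl
  rw [Finset.sum_const, Finset.sum_const, nsmul_eq_mul, nsmul_eq_mul, mul_one, mul_one] at c1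
  rw [c1]
  congr 1
  refine gen (fun p => if pat f t p.1 p.2 = c then (q : ℝ) else 0)
    (fun p => if pat f (nxt t j) p.1 p.2 = c then (q : ℝ) else 0) ?_
  intro p hp
  rw [m1] at hp
  have e : pat f (nxt t j) (flp p.1 j) (flp p.2 j) = pat f t p.1 p.2 := by
    unfold pat
    rw [T27_nxt_pt t j p.1 p.2 hp.2.1 hp.2.2]
  show (if pat f t p.1 p.2 = c then (q : ℝ) else 0) =
    if pat f (nxt t j) (flp p.1 j) (flp p.2 j) = c then (q : ℝ) else 0
  rw [e]

private theorem T27_conn {α : Type} (L : Blk d k → α) (h : ∀ (t : Blk d k) (j : Fin d), L (nxt t j) = L t)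
    (t t' : Blk d k) : L t = L t' := by
  classical
  have s1 : ∀ (n : ℕ) (t : Blk d k) (j : Fin d), L (Function.update t j (t j + (n : ZMod (2 ^ k)))) = L t := by
    intro n
    induction n with
    | zero =>
      intro t j
      simp
    | succ n ih =>
      intro t j
      have h1 := h (Function.update t j (t j + (n : ZMod (2 ^ k)))) j
      rw [ih] at h1
      rw [← h1]
      congr 1
      unfold nxt
      rw [Function.update_self, Function.update_idem]
      congr 1
      push_cast
      ring
  have s2 : ∀ (t : Blk d k) (j : Fin d) (c : ZMod (2 ^ k)), L (Function.update t j c) = L t := by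
    intro t j c
    have h1 := s1 (c - t j).val t j
    rw [ZMod.natCast_zmod_val] at h1
    rw [← h1]
    congr 2
    ring
  have s3 : ∀ s : Finset (Fin d), L (fun i => if i ∈ s then t' i else t i) = L t := by
    intro s
    induction s using Finset.induction_on with
    | empty => simp
    | insert a s ha ih =>
      rw [← ih, ← s2 (fun i => if i ∈ s then t' i else t i) a (t' a)]
      congr 1
      funext i
      by_cases hi : i = a
      · subst hi
        simp
      · rw [Function.update_of_ne hi]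
        simp [hi]
  have h2 := s3 univ
  simp only [Finset.mem_univ, if_true] at h2
  exact h2.symm

theorem ALP_const (hR : Rg d q) (hd : 2 ≤ d) (f : Site d (k + 1) → Fin q) (h : ∀ t : Blk d k, G0P (pat f t))
    (t t' : Blk d k) : ALP (pat f t) = ALP (pat f t') := by
  classical
  have hm := (ms_half hR (by omega)).1
  refine T27_conn (fun t => ALP (pat f t)) ?_ t t'
  intro t j
  show ALP (pat f (nxt t j)) = ALP (pat f t)
  ext c
  have hf := T27_face f t j c
  rcases T27_mem _ (h t) c with ⟨h1, h1'⟩ | ⟨h1, h1'⟩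
  · rcases T27_mem _ (h (nxt t j)) c with ⟨h2, h2'⟩ | ⟨h2, h2'⟩
    · exact ⟨fun _ => h1, fun _ => h2⟩
    · exfalso
      have e1 := (h1' (some (j, true))).2
      have e2 := (h2' (some (j, false))).1
      simp only [Bool.not_true] at e2
      rw [hf] at e1
      unfold et at e1 e2
      rw [abs_le] at e1 e2
      linarith [e1.1, e1.2, e2.1, e2.2]
  · rcases T27_mem _ (h (nxt t j)) c with ⟨h2, h2'⟩ | ⟨h2, h2'⟩
    · exfalso
      have e1 := (h1' (some (j, true))).1
      have e2 := (h2' (some (j, false))).2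
      simp only [Bool.not_true] at e1
      rw [hf] at e1
      unfold et at e1 e2
      rw [abs_le] at e1 e2
      linarith [e1.1, e1.2, e2.1, e2.2]
    · exact ⟨fun h3 => absurd h3 h2, fun h3 => absurd h3 h1⟩

end

end Pool.Agent.LC3
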