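import Pool.Agent.Lib_MP_2c424f_lc3.T02
import Pool.Agent.Lib_MP_2c424f_lc3.T25
import Pool.Agent.Lib_MP_2c424f_lc3.T26

/-!
# Part III, T28: BALANCE on the torus, one set `A`

WLOG (`TT_symm`, `tG_shift`) `|A| > q/2`; choose `B ⊆ A` with `|B| = q - |A|`, `|A \ B| = 2 |A| - q = 2 j` (`q` even), split it in two halves.  `Bal` with `G = tG d k`, `ev = evn` (`T26`).  `T = {f proper : #{¬ Ty A} ≤ N/d^6}`:
`|T_A| = |T_B|` (`TT_symm`), `T_A ⊆ TTo A`, `T_B ⊆ TTo B` (a vertex counted in `TTo` is not typical); `balance`: `|T_A|^2 ≤ Z^2 exp(-jN/4)`, `jN ≥ N/q^2`, square root.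
For `|A| < q/2` apply this to a set of size `q - |A|` and `TT_symm`.  (`50 j ≤ q` from the hypothesis on `|A|`.)  `N = 2^{k d} ≥ d^3` is a hypothesis.
-/

set_option autoImplicit false

open Finset Filter

namespace Pool.Agent.LC3

open Pool.Agent.LO Pool.Agent.LIN Pool.Agent.THR Pool.Agent.COR Pool.Agent.LC

open scoped Classical in
private theorem T28_big {d k q : ℕ} (hR : Rg d q) (hd : 10 ^ 10 ≤ d) (hk : 2 ≤ k) (hN : (d : ℝ) ^ 3 ≤ NN d k)
    (A : Finset (Fin q)) (hA : q / 2 < A.card) (hA' : 50 * (A.card - q / 2) ≤ q) :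
    cG (tG d k) (fun F : Site d k → Fin q => ((univ.filter fun v => ¬ Ty d (tG d k) evn A F v).card : ℝ) ≤
      NN d k / (d : ℝ) ^ 6) ≤
      (cG (tG d k) fun _ : Site d k → Fin q => True) * Real.exp (-(NN d k / (8 * (q : ℝ) ^ 2))) := by
  have hd1 : 1 ≤ d := le_trans (by norm_num) hd
  have hq := num_q hR hd1
  have hq0 : (0 : ℝ) < q := by exact_mod_cast hq.1
  have hev : Even q := hR.1
  have hq2 : 2 * (q / 2) = q := Nat.two_mul_div_two_of_even hev
  have hAq : A.card ≤ q := by
    have := Finset.card_le_univ A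
    rwa [Fintype.card_fin] at this
  set j : ℕ := A.card - q / 2 with hj
  have hAj : A.card = q / 2 + j := by omega
  -- the set B
  obtain ⟨B, hBA, hBc⟩ := Finset.exists_subset_card_eq (s := A) (n := q - A.card) (by omega)
  have hJc : (A \ B).card = 2 * j := by
    rw [Finset.card_sdiff_of_subset hBA, hBc]
    omega
  obtain ⟨J1, hJ1, hJ1c⟩ := Finset.exists_subset_card_eq (s := A \ B) (n := j) (by omega)
  let D : Bal (Site d k) d q j :=
    { G := tG d k
      ev := evn
      A := A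
      B := B
      J1 := J1
      J2 := (A \ B) \ J1
      rg := hR
      dl := hd
      par := tG_par hk
      deg := tG_deg hk
      half := tG_half hd1 hk
      sub := hBA
      un := (Finset.union_sdiff_of_subset hJ1).symm
      dis := Finset.disjoint_sdiff
      c1 := hJ1c
      c2 := by
        rw [Finset.card_sdiff_of_subset hJ1, hJ1c, hJc]
        omega
      AB := by omega
      j1 := by omega
      jq := hA' }
  obtain ⟨s, hs, hse⟩ := tG_shift (d := d) (k := k) hd1 hk
  set r : ℝ := NN d k / (d : ℝ) ^ 6 with hr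
  set Z : ℝ := cG (tG d k) fun _ : Site d k → Fin q => True with hZ
  have hZ0 : 0 ≤ Z := Nat.cast_nonneg _
  set tA : ℝ := cG (tG d k) (fun F : Site d k → Fin q =>
    ((univ.filter fun v => ¬ Ty d (tG d k) evn A F v).card : ℝ) ≤ r) with htA
  set tB : ℝ := cG (tG d k) (fun F : Site d k → Fin q =>
    ((univ.filter fun v => ¬ Ty d (tG d k) evn B F v).card : ℝ) ≤ r) with htB
  have hsym : tA = tB := TT_symm (tG d k) evn s hs hse A B (by omega) r
  have hmono : ∀ A' : Finset (Fin q), cG (tG d k) (fun F : Site d k → Fin q =>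
      ((univ.filter fun v => ¬ Ty d (tG d k) evn A' F v).card : ℝ) ≤ r) ≤
      cG (tG d k) (fun F : Site d k → Fin q => TTo d (tG d k) evn A' F) := by
    intro A'
    unfold cG
    refine Nat.cast_le.2 (Finset.card_le_card fun F hF => ?_)
    simp only [Finset.mem_filter, Finset.mem_univ, true_and] at hF ⊢
    refine ⟨hF.1, ?_⟩
    unfold TTo
    rw [← NN_card]
    refine le_trans (Nat.cast_le.2 (Finset.card_le_card fun v hv => ?_)) hF.2
    simp only [Finset.mem_filter, Finset.mem_univ, true_and] at hv ⊢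
    intro hT
    rcases hv with ⟨_, h⟩ | ⟨_, h⟩
    · exact h hT.2
    · exact h hT.1
  have hb := balance D (by rw [← NN_card]; exact hN)
  have htA0 : 0 ≤ tA := Nat.cast_nonneg _
  have hsq : tA ^ 2 ≤ (Z * Real.exp (-(NN d k / (8 * (q : ℝ) ^ 2)))) ^ 2 := by
    calc tA ^ 2 = tA * tB := by rw [← hsym, sq]
      _ ≤ cG (tG d k) (fun F : Site d k → Fin q => TTo d (tG d k) evn A F) *
          cG (tG d k) (fun F : Site d k → Fin q => TTo d (tG d k) evn B F) :=
          mul_le_mul (hmono A) (hmono B) (Nat.cast_nonneg _) (Nat.cast_nonneg _)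
      _ ≤ Z ^ 2 * Real.exp (-(jN D / 4)) := hb
      _ ≤ Z ^ 2 * Real.exp (-(NN d k / (4 * (q : ℝ) ^ 2))) := by
          refine mul_le_mul_of_nonneg_left (Real.exp_le_exp.2 (neg_le_neg ?_)) (sq_nonneg _)
          unfold jN
          rw [← NN_card]
          have hj1 : (1 : ℝ) ≤ j := by exact_mod_cast D.j1
          have hN0 : 0 ≤ NN d k := by unfold NN; positivity
          have h1 : (1 / (q : ℝ)) ^ 2 ≤ ((j : ℝ) / q) ^ 2 := by
            refine pow_le_pow_left₀ (by positivity) ?_ 2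
            exact div_le_div_of_nonneg_right hj1 hq0.le
          calc NN d k / (4 * (q : ℝ) ^ 2) = (1 / (q : ℝ)) ^ 2 * NN d k / 4 := by field_simp
            _ ≤ ((j : ℝ) / q) ^ 2 * NN d k / 4 := by
              refine div_le_div_of_nonneg_right (mul_le_mul_of_nonneg_right h1 hN0) (by norm_num)
      _ = _ := by
          rw [mul_pow, ← Real.exp_nat_mul]
          have h8 : ((2 : ℕ) : ℝ) * -(NN d k / (8 * (q : ℝ) ^ 2)) = -(NN d k / (4 * (q : ℝ) ^ 2)) := by
            push_cast
            rw [show (8 : ℝ) * (q : ℝ) ^ 2 = 2 * (4 * (q : ℝ) ^ 2) by ring, div_mul_eq_div_div_swap]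
            ring
          rw [h8]
  exact (abs_le_of_sq_le_sq' hsq (mul_nonneg hZ0 (Real.exp_pos _).le)).2

open scoped Classical in
theorem unb_one {d k q : ℕ} (hR : Rg d q) (hd : 10 ^ 10 ≤ d) (hk : 2 ≤ k) (hN : (d : ℝ) ^ 3 ≤ NN d k)
    (A : Finset (Fin q)) (hA : A.card ≠ q / 2) (hA' : |(A.card : ℝ) - q / 2| ≤ q / 50) :
    (((prps d k q).filter fun f => ((univ.filter fun v => ¬ Ty d (tG d k) evn A f v).card : ℝ) ≤
      NN d k / (d : ℝ) ^ 6).card : ℝ) ≤ ZZ d k q * Real.exp (-(NN d k / (8 * (q : ℝ) ^ 2))) := by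
  have hd1 : 1 ≤ d := le_trans (by norm_num) hd
  have hev : Even q := hR.1
  have hq2 : 2 * (q / 2) = q := Nat.two_mul_div_two_of_even hev
  have hq2' : ((q / 2 : ℕ) : ℝ) = (q : ℝ) / 2 := by
    have : (2 : ℝ) * ((q / 2 : ℕ) : ℝ) = q := by exact_mod_cast hq2
    linarith
  have hAq : A.card ≤ q := by
    have := Finset.card_le_univ A
    rwa [Fintype.card_fin] at this
  have hZ : ZZ d k q = cG (tG d k) fun _ : Site d k → Fin q => True := by
    rw [cG_prps hk, Finset.filter_true]
    rfl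
  rw [← cG_prps hk, hZ]
  rcases lt_or_gt_of_ne hA with hlt | hgt
  · -- pass to a set with `q - |A|` elements
    obtain ⟨B, hBA, hBc⟩ := Finset.exists_subset_card_eq (s := (univ : Finset (Fin q))) (n := q - A.card)
      (by rw [Finset.card_univ, Fintype.card_fin]; omega)
    obtain ⟨s, hs, hse⟩ := tG_shift (d := d) (k := k) hd1 hk
    rw [TT_symm (tG d k) evn s hs hse A B (by omega) (NN d k / (d : ℝ) ^ 6)]
    refine T28_big hR hd hk hN B (by omega) ?_
    have h1 : (50 : ℝ) * ((q / 2 : ℕ) - A.card) ≤ q := by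
      rw [hq2']
      have := (abs_le.1 hA').1
      linarith
    have h2 : (50 : ℤ) * ((q / 2 : ℕ) - A.card) ≤ q := by exact_mod_cast h1
    omega
  · refine T28_big hR hd hk hN A hgt ?_
    have h1 : (50 : ℝ) * (A.card - (q / 2 : ℕ)) ≤ q := by
      rw [hq2']
      have := (abs_le.1 hA').2
      linarith
    have h2 : (50 : ℤ) * (A.card - (q / 2 : ℕ)) ≤ q := by exact_mod_cast h1
    omega

end Pool.Agent.LC3
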