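import Pool.Agent.Lib_MP_2c424f_lc3.T27
import Pool.Agent.Lib_MP_2c424f_lc3.T28
import Pool.Agent.Lib_MP_2c424f_lc.PI

/-!
# Part III, T29: BALANCE: `allunb`

`typ 6` gives `C₁`.  Let all blocks be unbalanced (`UBP`), `f` not in the rare set of `typ 6`.  `A = ALP (pat f t)` does not depend on `t` (`ALP_const`), `|A| ≠ q/2`, `| |A| - q/2 | ≤ q/50` (`ALP_card`).
`nAt f = #{(t, a, b) : ¬ Ty A f (pt t a b)} = 2^d #{v : ¬ Ty A f v}` (every site has `2^d` representations: `LO.sum_pt`, `Lib_MP_2c424f_lo/BSum.lean`), so `#{v : ¬ Ty} ≤ 2^d (2^k)^d / d^6 = NN d (k+1) / d^6`.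
Union over the `≤ 2^q` sets `A`, `unb_one`: `≤ Z (2^q exp(-N/(8 q^2)) + exp(-N/d^{C₁})) ≤ Z exp(-N/d^C)`, `C = C₁ + 3`, for `k` large.
-/

set_option autoImplicit false

open Finset Filter

namespace Pool.Agent.LC3

open Pool.Agent.LO Pool.Agent.LIN Pool.Agent.THR Pool.Agent.COR Pool.Agent.LC

open scoped Classical in
/-- every site has `2^d` representations as a point of a block -/
private theorem T29_rep {d k : ℕ} (P : Site d (k + 1) → Prop) :
    ((univ.filter fun p : Blk d k × Bt d × Bt d => P (pt p.1 p.2.1 p.2.2)).card : ℝ) =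
      2 ^ d * ((univ.filter fun v : Site d (k + 1) => P v).card : ℝ) := by
  have h := sum_pt (d := d) (k := k) (fun x _ => if P x then (1 : ℝ) else 0)
  have h1 : ((univ.filter fun p : Blk d k × Bt d × Bt d => P (pt p.1 p.2.1 p.2.2)).card : ℝ) =
      ∑ t : Blk d k, ∑ a : Bt d, ∑ b : Bt d, (if P (pt t a b) then (1 : ℝ) else 0) := by
    rw [Finset.card_filter]
    push_cast
    rw [Fintype.sum_prod_type]
    refine Finset.sum_congr rfl fun t _ => ?_
    rw [Fintype.sum_prod_type]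
  rw [h1, h, Finset.card_filter]
  push_cast
  rw [Finset.mul_sum]
  refine Finset.sum_congr rfl fun x _ => ?_
  rw [Finset.sum_const, nsmul_eq_mul, Finset.card_univ, Fintype.card_fun, Fintype.card_bool, Fintype.card_fin]
  push_cast
  rfl

private theorem T29_rep' {d k : ℕ} (P : Site d (k + 1) → Prop) (S : Finset (Blk d k × Bt d × Bt d))
    (S' : Finset (Site d (k + 1))) (hS : ∀ p, p ∈ S ↔ P (pt p.1 p.2.1 p.2.2)) (hS' : ∀ v, v ∈ S' ↔ P v) :
    (S.card : ℝ) = 2 ^ d * (S'.card : ℝ) := by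
  classical
  have h := T29_rep P
  have h1 : S = univ.filter fun p : Blk d k × Bt d × Bt d => P (pt p.1 p.2.1 p.2.2) := by
    ext p
    rw [hS p]
    exact ⟨fun h => Finset.mem_filter.2 ⟨Finset.mem_univ _, h⟩, fun h => (Finset.mem_filter.1 h).2⟩
  have h2 : S' = univ.filter fun v : Site d (k + 1) => P v := by
    ext v
    rw [hS' v]
    exact ⟨fun h => Finset.mem_filter.2 ⟨Finset.mem_univ _, h⟩, fun h => (Finset.mem_filter.1 h).2⟩
  rw [h1, h2]
  exact h

private theorem T29_to_rar {C d k q : ℕ} {P : (Site d k → Fin q) → Prop} (S : Finset (Site d k → Fin q))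
    (hS : ∀ f ∈ prps d k q, P f → f ∈ S)
    (h : (S.card : ℝ) ≤ ZZ d k q * Real.exp (-(NN d k / (d : ℝ) ^ C))) : Rar C d k q P := by
  classical
  unfold Rar
  refine le_trans (Nat.cast_le.2 (Finset.card_le_card fun f hf => ?_)) h
  obtain ⟨h1, h2⟩ := Finset.mem_filter.1 hf
  exact hS f h1 h2

private theorem T29_of_rar {C d k q : ℕ} {P : (Site d k → Fin q) → Prop} (h : Rar C d k q P)
    (S : Finset (Site d k → Fin q)) (hS : ∀ f ∈ S, f ∈ prps d k q ∧ P f) :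
    (S.card : ℝ) ≤ ZZ d k q * Real.exp (-(NN d k / (d : ℝ) ^ C)) := by
  classical
  unfold Rar at h
  refine le_trans (Nat.cast_le.2 (Finset.card_le_card fun f hf => ?_)) h
  exact Finset.mem_filter.2 (hS f hf)

private theorem T29_NN {d : ℕ} (hd : 1 ≤ d) (k : ℕ) : (k : ℝ) ≤ NN d (k + 1) := by
  unfold NN
  have h1 : (k : ℝ) ≤ 2 ^ (k + 1) := by
    have h2 : k < 2 ^ k := Nat.lt_two_pow_self
    have h3 : k ≤ 2 ^ (k + 1) := by
      rw [pow_succ]
      omega
    exact_mod_cast h3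
  have h4 : (1 : ℝ) ≤ 2 ^ (k + 1) := one_le_pow₀ (by norm_num)
  calc (k : ℝ) ≤ 2 ^ (k + 1) := h1
    _ = (2 ^ (k + 1)) ^ 1 := (pow_one _).symm
    _ ≤ (2 ^ (k + 1)) ^ d := pow_le_pow_right₀ h4 hd

/-- the arithmetic of the union bound -/
private theorem T29_arith {d q C : ℕ} (hd : 10 ^ 10 ≤ d) (hq1 : 1 ≤ q) (hq : 500 * q ≤ d) {N : ℝ}
    (hN : (d : ℝ) ^ (C + 10) ≤ N) :
    Real.exp (-(N / (d : ℝ) ^ C)) + 2 ^ q * Real.exp (-(N / (8 * (q : ℝ) ^ 2))) ≤
      Real.exp (-(N / (d : ℝ) ^ (C + 3))) := by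
  have hd' : (10 : ℝ) ^ 10 ≤ d := by exact_mod_cast hd
  have hd0 : (0 : ℝ) < d := lt_of_lt_of_le (by norm_num) hd'
  have hd1 : (1 : ℝ) ≤ d := le_trans (by norm_num) hd'
  have hq0 : (0 : ℝ) < q := by exact_mod_cast hq1
  have hq' : (500 : ℝ) * q ≤ d := by exact_mod_cast hq
  have hN0 : 0 ≤ N := le_trans (by positivity) hN
  set M : ℝ := N / (d : ℝ) ^ (C + 3) with hM
  have hM0 : 0 ≤ M := by positivity
  have hM7 : (d : ℝ) ^ 7 ≤ M := by
    rw [hM, le_div_iff₀ (by positivity), ← pow_add]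
    rw [show 7 + (C + 3) = C + 10 by ring]
    exact hN
  have hMd : (d : ℝ) ≤ M := by
    refine le_trans ?_ hM7
    calc (d : ℝ) = (d : ℝ) ^ 1 := (pow_one _).symm
      _ ≤ (d : ℝ) ^ 7 := pow_le_pow_right₀ hd1 (by norm_num)
  have h1 : 2 * M ≤ N / (d : ℝ) ^ C := by
    have : N / (d : ℝ) ^ C = (d : ℝ) ^ 3 * M := by
      rw [hM, pow_add]
      field_simp
    rw [this]
    refine mul_le_mul_of_nonneg_right ?_ hM0
    calc (2 : ℝ) ≤ (d : ℝ) := le_trans (by norm_num) hd'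
      _ = (d : ℝ) ^ 1 := (pow_one _).symm
      _ ≤ (d : ℝ) ^ 3 := pow_le_pow_right₀ hd1 (by norm_num)
  have h2 : 3 * M ≤ N / (8 * (q : ℝ) ^ 2) := by
    have h3 : 8 * (q : ℝ) ^ 2 ≤ (d : ℝ) ^ 2 := by nlinarith
    have h4 : N / (d : ℝ) ^ 2 ≤ N / (8 * (q : ℝ) ^ 2) :=
      div_le_div_of_nonneg_left hN0 (by positivity) h3
    refine le_trans ?_ h4
    have : N / (d : ℝ) ^ 2 = (d : ℝ) ^ (C + 1) * M := by
      rw [hM, show C + 3 = (C + 1) + 2 by ring, pow_add (d : ℝ) (C + 1) 2]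
      field_simp
    rw [this]
    refine mul_le_mul_of_nonneg_right ?_ hM0
    calc (3 : ℝ) ≤ (d : ℝ) := le_trans (by norm_num) hd'
      _ = (d : ℝ) ^ 1 := (pow_one _).symm
      _ ≤ (d : ℝ) ^ (C + 1) := pow_le_pow_right₀ hd1 (by omega)
  have h5 : (2 : ℝ) ^ q ≤ Real.exp M := by
    have h6 : (2 : ℝ) ≤ Real.exp 1 := by
      have := Real.add_one_le_exp (1 : ℝ)
      linarith
    calc (2 : ℝ) ^ q ≤ (Real.exp 1) ^ q := pow_le_pow_left₀ (by norm_num) h6 q
      _ = Real.exp q := by rw [← Real.exp_nat_mul, mul_one]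
      _ ≤ Real.exp M := Real.exp_le_exp.2 (by nlinarith)
  have h7 : (2 : ℝ) ≤ Real.exp M := by
    have := Real.add_one_le_exp M
    linarith
  have h8 : Real.exp (-(N / (d : ℝ) ^ C)) ≤ Real.exp (-M) * Real.exp (-M) := by
    rw [← Real.exp_add, Real.exp_le_exp]
    linarith
  have h9 : 2 ^ q * Real.exp (-(N / (8 * (q : ℝ) ^ 2))) ≤ Real.exp (-M) * Real.exp (-M) := by
    calc 2 ^ q * Real.exp (-(N / (8 * (q : ℝ) ^ 2))) ≤ Real.exp M * Real.exp (-(3 * M)) :=
          mul_le_mul h5 (Real.exp_le_exp.2 (by linarith)) (Real.exp_pos _).le (Real.exp_pos _).le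
      _ = Real.exp (-M) * Real.exp (-M) := by
          rw [← Real.exp_add, ← Real.exp_add]
          congr 1
          ring
  have h10 : Real.exp (-M) * 2 ≤ 1 := by
    calc Real.exp (-M) * 2 ≤ Real.exp (-M) * Real.exp M := mul_le_mul_of_nonneg_left h7 (Real.exp_pos _).le
      _ = 1 := by rw [← Real.exp_add, neg_add_cancel, Real.exp_zero]
  calc _ ≤ Real.exp (-M) * Real.exp (-M) + Real.exp (-M) * Real.exp (-M) := add_le_add h8 h9
    _ = Real.exp (-M) * (Real.exp (-M) * 2) := by ring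
    _ ≤ Real.exp (-M) * 1 := mul_le_mul_of_nonneg_left h10 (Real.exp_pos _).le
    _ = _ := mul_one _

/-- III -/
theorem allunb' : ∃ C : ℕ, EvR fun d k q => Rar C d (k + 1) q fun f => ∀ t : Blk d k, UBP (pat f t) := by
  classical
  obtain ⟨C₁, d₀, hC⟩ := typ 6
  refine ⟨C₁ + 3, max d₀ (10 ^ 10), fun d q hd hR => ?_⟩
  have hd0 : d₀ ≤ d := le_trans (le_max_left _ _) hd
  have hd10 : 10 ^ 10 ≤ d := le_trans (le_max_right _ _) hd
  have hd1 : 1 ≤ d := le_trans (by norm_num) hd10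
  have hd2 : 2 ≤ d := le_trans (by norm_num) hd10
  have hq := num_q hR hd1
  have hdr : (1 : ℝ) ≤ d := by exact_mod_cast hd1
  obtain ⟨k₀, hk₀⟩ := exists_nat_ge ((d : ℝ) ^ (C₁ + 10))
  filter_upwards [hC d q hd0 hR, Filter.eventually_ge_atTop (max k₀ 1)] with k hk hkk
  have hk0 : k₀ ≤ k := le_trans (le_max_left _ _) hkk
  have hk1 : 1 ≤ k := le_trans (le_max_right _ _) hkk
  have hk2 : 2 ≤ k + 1 := by omega
  have hN : (d : ℝ) ^ (C₁ + 10) ≤ NN d (k + 1) :=
    hk₀.trans ((by exact_mod_cast hk0 : (k₀ : ℝ) ≤ k).trans (T29_NN hd1 k))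
  have hN3 : (d : ℝ) ^ 3 ≤ NN d (k + 1) := le_trans (pow_le_pow_right₀ hdr (by omega)) hN
  set TA : Finset (Fin q) → Finset (Site d (k + 1) → Fin q) := fun A => (prps d (k + 1) q).filter fun f =>
    ((univ.filter fun v => ¬ Ty d (tG d (k + 1)) evn A f v).card : ℝ) ≤ NN d (k + 1) / (d : ℝ) ^ 6 with hTA
  set AA : Finset (Finset (Fin q)) := univ.filter fun A : Finset (Fin q) => A.card ≠ q / 2 ∧
    |(A.card : ℝ) - q / 2| ≤ q / 50 with hAA
  have hsub : ((prps d (k + 1) q).filter fun f => ∀ t : Blk d k, UBP (pat f t)) ⊆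
      ((prps d (k + 1) q).filter fun f => (4 : ℝ) ^ d * (2 ^ k) ^ d / (d : ℝ) ^ 6 < (nAt f : ℝ)) ∪ AA.biUnion TA := by
    intro f hf
    obtain ⟨hf1, hf2⟩ := Finset.mem_filter.1 hf
    rw [Finset.mem_union]
    by_cases hr : (4 : ℝ) ^ d * (2 ^ k) ^ d / (d : ℝ) ^ 6 < (nAt f : ℝ)
    · left
      exact Finset.mem_filter.2 ⟨hf1, hr⟩
    · right
      have hG : ∀ t : Blk d k, G0P (pat f t) := fun t => (hf2 t).1
      have hcon := ALP_const hR hd2 f hG
      set A := ALP (pat f (0 : Blk d k)) with hA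
      have hAc := ALP_card hR hd2 (pat f (0 : Blk d k)) (hG 0)
      rw [Finset.mem_biUnion]
      refine ⟨A, Finset.mem_filter.2 ⟨Finset.mem_univ _, (hf2 0).2, ?_⟩, ?_⟩
      · refine hAc.trans ?_
        have : (0 : ℝ) ≤ q := Nat.cast_nonneg _
        linarith
      · rw [hTA]
        refine Finset.mem_filter.2 ⟨hf1, ?_⟩
        have h1 : (nAt f : ℝ) = 2 ^ d * ((univ.filter fun v => ¬ Ty d (tG d (k + 1)) evn A f v).card : ℝ) := by
          unfold nAt
          refine T29_rep' (fun v => ¬ Ty d (tG d (k + 1)) evn A f v) _ _ (fun p => ?_) (fun v => ?_)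
          · simp only [Finset.mem_filter, Finset.mem_univ, true_and]
            rw [hcon p.1 0, ← hA]
            exact ⟨fun h => h.2, fun h => ⟨hG p.1, h⟩⟩
          · simp only [Finset.mem_filter, Finset.mem_univ, true_and]
        rw [not_lt, h1] at hr
        have h2 : NN d (k + 1) = 2 ^ d * (2 ^ k) ^ d := by
          unfold NN
          rw [← mul_pow, pow_succ, mul_comm]
        have h3 : (4 : ℝ) ^ d = 2 ^ d * 2 ^ d := by
          rw [← mul_pow]
          norm_num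
        have h4 : (0 : ℝ) < 2 ^ d := by positivity
        refine le_of_mul_le_mul_left (hr.trans (le_of_eq ?_)) h4
        rw [h2, h3]
        ring
  have hcard : (((prps d (k + 1) q).filter fun f => ∀ t : Blk d k, UBP (pat f t)).card : ℝ) ≤
      (((prps d (k + 1) q).filter fun f => (4 : ℝ) ^ d * (2 ^ k) ^ d / (d : ℝ) ^ 6 < (nAt f : ℝ)).card : ℝ) +
        ∑ A ∈ AA, ((TA A).card : ℝ) := by
    have h1 := (Finset.card_le_card hsub).trans (Finset.card_union_le _ _)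
    have h2 : (AA.biUnion TA).card ≤ ∑ A ∈ AA, (TA A).card := Finset.card_biUnion_le
    have h3 := h1.trans (Nat.add_le_add_left h2 _)
    exact_mod_cast h3
  have hZ : 0 ≤ ZZ d (k + 1) q := Nat.cast_nonneg _
  have hsumA : ∑ A ∈ AA, ((TA A).card : ℝ) ≤
      2 ^ q * (ZZ d (k + 1) q * Real.exp (-(NN d (k + 1) / (8 * (q : ℝ) ^ 2)))) := by
    have h1 : ∀ A ∈ AA, ((TA A).card : ℝ) ≤ ZZ d (k + 1) q * Real.exp (-(NN d (k + 1) / (8 * (q : ℝ) ^ 2))) := by
      intro A hA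
      obtain ⟨-, h2, h3⟩ := Finset.mem_filter.1 hA
      exact unb_one hR hd10 hk2 hN3 A h2 h3
    refine (Finset.sum_le_card_nsmul AA _ _ h1).trans ?_
    rw [nsmul_eq_mul]
    refine mul_le_mul_of_nonneg_right ?_ (by positivity)
    have h4 : AA.card ≤ 2 ^ q := by
      refine (Finset.card_le_univ AA).trans ?_
      rw [Fintype.card_finset, Fintype.card_fin]
    exact_mod_cast h4
  have har := T29_arith hd10 hq.1 hq.2.1 hN
  refine T29_to_rar ((prps d (k + 1) q).filter fun f => ∀ t : Blk d k, UBP (pat f t))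
    (fun f hf hf' => Finset.mem_filter.2 ⟨hf, hf'⟩) ?_
  calc _ ≤ _ := hcard
    _ ≤ ZZ d (k + 1) q * Real.exp (-(NN d (k + 1) / (d : ℝ) ^ C₁)) +
        2 ^ q * (ZZ d (k + 1) q * Real.exp (-(NN d (k + 1) / (8 * (q : ℝ) ^ 2)))) := by
        refine add_le_add ?_ hsumA
        exact T29_of_rar hk _ fun f hf => Finset.mem_filter.1 hf
    _ = ZZ d (k + 1) q * (Real.exp (-(NN d (k + 1) / (d : ℝ) ^ C₁)) +
        2 ^ q * Real.exp (-(NN d (k + 1) / (8 * (q : ℝ) ^ 2)))) := by ring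
    _ ≤ _ := mul_le_mul_of_nonneg_left har hZ

end Pool.Agent.LC3
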